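import Mathlib.Analysis.Matrix.Spectrum
import Mathlib.Analysis.Matrix.PosDef
import Mathlib.Analysis.MeanInequalities

set_option autoImplicit false

/-!
# Two determinant inequalities

For a matrix `U` with orthonormal columns, `det (Uᵀ diag(λ) U) ≥ ∏ λ_i ^ |u_i|²` where `u_i` are the rows
of `U`; and Hadamard's inequality `det (Aᵀ A) ≤ ∏_l (Aᵀ A)_{ll}`.
-/

open Matrix Finset

namespace Pool.Agent.Lib.MP_589a62_gt

variable {ι κ : Type*} [Fintype ι] [Fintype κ] [DecidableEq κ] [DecidableEq ι]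

/-- Squared norm of the `i`-th row. -/
def rowSq (U : Matrix ι κ ℝ) (i : ι) : ℝ := ∑ l, U i l ^ 2

omit [Fintype ι] [DecidableEq κ] [DecidableEq ι] in
lemma rowSq_nonneg (U : Matrix ι κ ℝ) (i : ι) : 0 ≤ rowSq U i :=
  Finset.sum_nonneg fun _ _ => sq_nonneg _

/-- A symmetric matrix is diagonalised by an orthogonal matrix. -/
lemma exists_orthogonal_diag (M : Matrix κ κ ℝ) (hM : Mᵀ = M) :
    ∃ (W : Matrix κ κ ℝ) (μ : κ → ℝ), Wᵀ * W = 1 ∧ W * Wᵀ = 1 ∧ Wᵀ * M * W = diagonal μ ∧
      M.det = ∏ l, μ l := by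
  have hH : M.IsHermitian := by
    rw [Matrix.IsHermitian, conjTranspose_eq_transpose_of_trivial]
    exact hM
  refine ⟨(hH.eigenvectorUnitary : Matrix κ κ ℝ), hH.eigenvalues, ?_, ?_, ?_, ?_⟩
  · have := Unitary.coe_star_mul_self hH.eigenvectorUnitary
    rwa [star_eq_conjTranspose, conjTranspose_eq_transpose_of_trivial] at this
  · have := Unitary.coe_mul_star_self hH.eigenvectorUnitary
    rwa [Unitary.coe_star, star_eq_conjTranspose, conjTranspose_eq_transpose_of_trivial] at this
  · have := hH.conjStarAlgAut_star_eigenvectorUnitary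
    rw [Unitary.conjStarAlgAut_star_apply, star_eq_conjTranspose,
      conjTranspose_eq_transpose_of_trivial] at this
    rw [this]
    congr 1
  · have := hH.det_eq_prod_eigenvalues
    simpa using this

/-- The determinant inequality behind the geometric Brascamp-Lieb inequality. -/
theorem prod_rpow_le_det (U : Matrix ι κ ℝ) (hU : Uᵀ * U = 1) (lam : ι → ℝ)
    (hlam : ∀ i, 0 ≤ lam i) :
    ∏ i, lam i ^ rowSq U i ≤ (Uᵀ * diagonal lam * U).det := by
  obtain ⟨W, μ, h1, h2, h3, h4⟩ := exists_orthogonal_diag (Uᵀ * diagonal lam * U) (by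
    simp [Matrix.transpose_mul, Matrix.mul_assoc])
  rw [h4]
  set P : Matrix ι κ ℝ := U * W with hP
  have hPP : Pᵀ * P = 1 := by
    rw [hP, Matrix.transpose_mul]
    calc Wᵀ * Uᵀ * (U * W) = Wᵀ * (Uᵀ * U) * W := by simp only [Matrix.mul_assoc]
      _ = 1 := by rw [hU, Matrix.mul_one, h1]
  have hcol : ∀ l, ∑ i, P i l ^ 2 = 1 := by
    intro l
    have := congrFun (congrFun hPP l) l
    simp only [Matrix.mul_apply, Matrix.transpose_apply, Matrix.one_apply_eq] at this
    rw [← this]
    exact Finset.sum_congr rfl fun i _ => by ring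
  have hrow : ∀ i, ∑ l, P i l ^ 2 = rowSq U i := by
    intro i
    have h5 : P * Pᵀ = U * Uᵀ := by
      rw [hP, Matrix.transpose_mul]
      calc U * W * (Wᵀ * Uᵀ) = U * (W * Wᵀ) * Uᵀ := by simp only [Matrix.mul_assoc]
        _ = U * Uᵀ := by rw [h2, Matrix.mul_one]
    have := congrFun (congrFun h5 i) i
    simp only [Matrix.mul_apply, Matrix.transpose_apply] at this
    unfold rowSq
    simpa only [sq] using this
  have hμ : ∀ l, μ l = ∑ i, P i l ^ 2 * lam i := by
    intro l
    have h6 : Pᵀ * diagonal lam * P = diagonal μ := by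
      rw [← h3, hP, Matrix.transpose_mul]
      simp only [Matrix.mul_assoc]
    have := congrFun (congrFun h6 l) l
    rw [Matrix.diagonal_apply_eq, Matrix.mul_apply] at this
    rw [← this]
    refine Finset.sum_congr rfl fun i _ => ?_
    rw [Matrix.mul_diagonal, Matrix.transpose_apply]
    ring
  calc ∏ i, lam i ^ rowSq U i = ∏ i, ∏ l, lam i ^ (P i l ^ 2) := by
        refine Finset.prod_congr rfl fun i _ => ?_
        rw [← hrow i, Real.rpow_sum_of_nonneg (hlam i) fun l _ => sq_nonneg _]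
    _ = ∏ l, ∏ i, lam i ^ (P i l ^ 2) := Finset.prod_comm
    _ ≤ ∏ l, μ l := by
        refine Finset.prod_le_prod (fun l _ => Finset.prod_nonneg fun i _ =>
          Real.rpow_nonneg (hlam i) _) fun l _ => ?_
        rw [hμ l]
        exact Real.geom_mean_le_arith_mean_weighted _ _ _ (fun i _ => sq_nonneg _) (hcol l)
          fun i _ => hlam i

omit [DecidableEq ι] in
/-- AM-GM for the determinant of a Gram matrix with unit diagonal. -/
lemma det_gram_le_one (B : Matrix ι κ ℝ) (hB : ∀ l, ∑ i, B i l ^ 2 = 1) :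
    (Bᵀ * B).det ≤ 1 := by
  obtain ⟨W, μ, h1, h2, h3, h4⟩ := exists_orthogonal_diag (Bᵀ * B) (by
    simp [Matrix.transpose_mul])
  rcases isEmpty_or_nonempty κ with hκ | hκ
  · simp
  have hμ0 : ∀ l, 0 ≤ μ l := by
    intro l
    have h6 : (B * W)ᵀ * (B * W) = diagonal μ := by
      rw [← h3, Matrix.transpose_mul]
      simp only [Matrix.mul_assoc]
    have := congrFun (congrFun h6 l) l
    rw [Matrix.diagonal_apply_eq, Matrix.mul_apply] at this
    rw [← this]
    exact Finset.sum_nonneg fun i _ => by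
      rw [Matrix.transpose_apply]; exact mul_self_nonneg _
  have htr : ∑ l, μ l = Fintype.card κ := by
    have h7 : (diagonal μ).trace = (Bᵀ * B).trace := by
      rw [← h3, Matrix.trace_mul_comm, ← Matrix.mul_assoc, h2, Matrix.one_mul]
    rw [Matrix.trace_diagonal] at h7
    rw [h7, Matrix.trace]
    have : ∀ l, (Bᵀ * B).diag l = 1 := by
      intro l
      rw [Matrix.diag_apply, Matrix.mul_apply, ← hB l]
      exact Finset.sum_congr rfl fun i _ => by rw [Matrix.transpose_apply]; ring
    rw [Finset.sum_congr rfl fun l _ => this l]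
    simp
  have hc : (0 : ℝ) < Fintype.card κ := by exact_mod_cast Fintype.card_pos
  have key := Real.geom_mean_le_arith_mean_weighted (Finset.univ : Finset κ)
    (fun _ => 1 / (Fintype.card κ : ℝ)) μ (fun i _ => by positivity) (by
      simp [Finset.sum_const, hc.ne']) (fun i _ => hμ0 i)
  rw [← Finset.mul_sum, htr, one_div_mul_cancel hc.ne', Real.finsetProd_rpow _ _ fun i _ => hμ0 i] at key
  rw [h4]
  by_contra hcon
  push Not at hcon
  have : 1 < (∏ l, μ l) ^ (1 / (Fintype.card κ : ℝ)) := Real.one_lt_rpow hcon (by positivity)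
  linarith

omit [DecidableEq ι] in
/-- **Hadamard inequality** for Gram matrices. -/
theorem hadamard (A : Matrix ι κ ℝ) : (Aᵀ * A).det ≤ ∏ l, ∑ i, A i l ^ 2 := by
  by_cases h : ∀ l, 0 < ∑ i, A i l ^ 2
  · set d : κ → ℝ := fun l => (√(∑ i, A i l ^ 2)) with hd
    have hd0 : ∀ l, 0 < d l := fun l => Real.sqrt_pos.2 (h l)
    have hd2 : ∀ l, d l ^ 2 = ∑ i, A i l ^ 2 := fun l => Real.sq_sqrt (h l).le
    set B : Matrix ι κ ℝ := A * diagonal (fun l => (d l)⁻¹) with hBdef
    have hB : ∀ l, ∑ i, B i l ^ 2 = 1 := by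
      intro l
      have : ∀ i, B i l ^ 2 = A i l ^ 2 * ((d l) ^ 2)⁻¹ := by
        intro i
        rw [hBdef, Matrix.mul_diagonal]
        field_simp
      simp only [this]
      rw [← Finset.sum_mul, ← hd2 l]
      exact mul_inv_cancel₀ (pow_pos (hd0 l) 2).ne'
    have h1 := det_gram_le_one B hB
    have h2 : Aᵀ * A = diagonal d * (Bᵀ * B) * diagonal d := by
      have hA : A = B * diagonal d := by
        rw [hBdef, Matrix.mul_assoc, Matrix.diagonal_mul_diagonal]
        have : (fun i => (d i)⁻¹ * d i) = fun _ => 1 := by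
          funext l
          exact inv_mul_cancel₀ (hd0 l).ne'
        rw [this, Matrix.diagonal_one, Matrix.mul_one]
      conv_lhs => rw [hA, Matrix.transpose_mul, Matrix.diagonal_transpose]
      simp only [Matrix.mul_assoc]
    rw [h2, Matrix.det_mul, Matrix.det_mul, Matrix.det_diagonal]
    have h3 : ∏ l, ∑ i, A i l ^ 2 = (∏ l, d l) * (∏ l, d l) := by
      rw [← Finset.prod_mul_distrib]
      exact Finset.prod_congr rfl fun l _ => by rw [← hd2 l]; ring
    rw [h3]
    have h4 : 0 < ∏ l, d l := Finset.prod_pos fun l _ => hd0 l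
    have h5 : 0 < (∏ l, d l) * (∏ l, d l) := mul_pos h4 h4
    nlinarith
  · push Not at h
    obtain ⟨l, hl⟩ := h
    have h0 : ∑ i, A i l ^ 2 = 0 := le_antisymm hl (Finset.sum_nonneg fun _ _ => sq_nonneg _)
    have h1 : ∀ i, A i l = 0 := by
      intro i
      have := (Finset.sum_eq_zero_iff_of_nonneg (fun _ _ => sq_nonneg _)).1 h0 i (Finset.mem_univ i)
      exact pow_eq_zero_iff (two_ne_zero) |>.1 this
    have h2 : (Aᵀ * A).det = 0 := by
      apply Matrix.det_eq_zero_of_row_eq_zero l
      intro j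
      rw [Matrix.mul_apply]
      exact Finset.sum_eq_zero fun i _ => by rw [Matrix.transpose_apply, h1 i, zero_mul]
    rw [h2]
    exact Finset.prod_nonneg fun l _ => Finset.sum_nonneg fun _ _ => sq_nonneg _

end Pool.Agent.Lib.MP_589a62_gt
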