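import Pool.Agent.Lib.MP_589a62_gt.Phi
import Pool.Agent.Lib.MP_589a62_gt.Det
import Mathlib.MeasureTheory.Function.Jacobian
import Mathlib.MeasureTheory.Integral.Pi
import Mathlib.MeasureTheory.Measure.Lebesgue.EqHaar

set_option autoImplicit false

/-!
# The stable form of Ball's inequality

Let `U` be an `ι × κ` matrix with orthonormal columns, with rows `u_i`, `c_i = |u_i|²`. The open section
`{x : |⟨u_i, x⟩| < 1/2 for all i}` satisfies
`∫ exp (π Δ) ≤ ∏ c_i ^ (-c_i / 2)`, where `Δ = ∑ (√c_i Φ(⟨u_i,x⟩) - ⟨u_i, T x⟩)²` and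
`T x = ∑ √c_i Φ(⟨u_i,x⟩) u_i`. This is Barthe's transport proof of the geometric Brascamp-Lieb
inequality, keeping the error term.
-/

open Matrix Finset MeasureTheory Set Real
open scoped ENNReal

namespace Pool.Agent.Lib.MP_589a62_gt

variable {ι κ : Type*} [Fintype ι] [Fintype κ] [DecidableEq κ] [DecidableEq ι]

/-- The open central section, parametrised by the matrix `U`. -/
def openSec (U : Matrix ι κ ℝ) : Set (κ → ℝ) := {x | ∀ i, |(U *ᵥ x) i| < 1 / 2}

/-- The vector `(√c_i Φ(⟨u_i, x⟩))_i`. -/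
noncomputable def avec (U : Matrix ι κ ℝ) (x : κ → ℝ) : ι → ℝ :=
  fun i => √(rowSq U i) * Phi ((U *ᵥ x) i)

/-- The transport map. -/
noncomputable def tmap (U : Matrix ι κ ℝ) (x : κ → ℝ) : κ → ℝ := Uᵀ *ᵥ avec U x

/-- The defect. -/
noncomputable def defect (U : Matrix ι κ ℝ) (x : κ → ℝ) : ℝ :=
  ∑ i, (avec U x i - (U *ᵥ tmap U x) i) ^ 2

/-- Ball's bound. -/
noncomputable def ballBound (U : Matrix ι κ ℝ) : ℝ := ∏ i, rowSq U i ^ (-(rowSq U i / 2))

omit [DecidableEq κ] [DecidableEq ι] in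
lemma isOpen_openSec (U : Matrix ι κ ℝ) : IsOpen (openSec U) := by
  have : openSec U = ⋂ i, {x | |(U *ᵥ x) i| < 1 / 2} := by
    ext x; simp [openSec]
  rw [this]
  refine isOpen_iInter_of_finite fun i => ?_
  refine isOpen_lt ?_ continuous_const
  exact ((continuous_apply i).comp (Continuous.matrix_mulVec continuous_const continuous_id)).abs

omit [Fintype ι] [DecidableEq κ] [DecidableEq ι] in
lemma mem_openSec {U : Matrix ι κ ℝ} {x : κ → ℝ} (hx : x ∈ openSec U) (i : ι) :
    (U *ᵥ x) i ∈ Ioo (-(1 / 2) : ℝ) (1 / 2) := abs_lt.1 (hx i)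

omit [DecidableEq ι] in
lemma dot_mulVec_self (U : Matrix ι κ ℝ) (hU : Uᵀ * U = 1) (x : κ → ℝ) :
    (U *ᵥ x) ⬝ᵥ (U *ᵥ x) = x ⬝ᵥ x := by
  rw [Matrix.dotProduct_mulVec, Matrix.vecMul_mulVec, hU, Matrix.vecMul_one]

omit [DecidableEq ι] in
lemma defect_eq (U : Matrix ι κ ℝ) (hU : Uᵀ * U = 1) (x : κ → ℝ) :
    defect U x = ∑ i, avec U x i ^ 2 - ∑ l, tmap U x l ^ 2 := by
  have h1 : avec U x ⬝ᵥ (U *ᵥ tmap U x) = tmap U x ⬝ᵥ tmap U x := by
    rw [Matrix.dotProduct_mulVec, ← Matrix.mulVec_transpose]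
    rfl
  have h2 := dot_mulVec_self U hU (tmap U x)
  have h3 : defect U x = (avec U x - U *ᵥ tmap U x) ⬝ᵥ (avec U x - U *ᵥ tmap U x) := by
    simp only [defect, dotProduct, Pi.sub_apply, sq]
  have h4 : ∑ i, avec U x i ^ 2 = avec U x ⬝ᵥ avec U x := by simp only [dotProduct, sq]
  have h5 : ∑ l, tmap U x l ^ 2 = tmap U x ⬝ᵥ tmap U x := by simp only [dotProduct, sq]
  rw [h3, h4, h5, sub_dotProduct, dotProduct_sub, dotProduct_sub, h2, h1,
    dotProduct_comm (U *ᵥ tmap U x) (avec U x), h1]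
  ring

/-- The derivative matrix of the transport map. -/
noncomputable def tder (U : Matrix ι κ ℝ) (x : κ → ℝ) : Matrix κ κ ℝ :=
  Uᵀ * diagonal (fun i => √(rowSq U i) * Real.exp (π * Phi ((U *ᵥ x) i) ^ 2)) * U

lemma hasFDerivAt_tmap (U : Matrix ι κ ℝ) {x : κ → ℝ} (hx : x ∈ openSec U) :
    HasFDerivAt (tmap U) (LinearMap.toContinuousLinearMap (Matrix.toLin' (tder U x))) x := by
  have h1 : ∀ i, HasFDerivAt (fun y : κ → ℝ => avec U y i)
      ((√(rowSq U i) * Real.exp (π * Phi ((U *ᵥ x) i) ^ 2)) •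
        (LinearMap.toContinuousLinearMap ((LinearMap.proj i).comp (Matrix.toLin' U)))) x := by
    intro i
    have h2 : HasFDerivAt (fun y : κ → ℝ => (U *ᵥ y) i)
        (LinearMap.toContinuousLinearMap ((LinearMap.proj i).comp (Matrix.toLin' U))) x := by
      have := (LinearMap.toContinuousLinearMap
        ((LinearMap.proj (R := ℝ) (φ := fun _ : ι => ℝ) i).comp (Matrix.toLin' U))).hasFDerivAt
        (x := x)
      simpa using! this
    have h3 := (hasDerivAt_Phi (mem_openSec hx i)).comp_hasFDerivAt x h2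
    have h4 := h3.const_mul (√(rowSq U i))
    rw [smul_smul] at h4
    exact h4
  have h5 : HasFDerivAt (fun y : κ → ℝ => avec U y)
      (LinearMap.toContinuousLinearMap (Matrix.toLin' (diagonal (fun i => √(rowSq U i) *
        Real.exp (π * Phi ((U *ᵥ x) i) ^ 2)) * U))) x := by
    rw [hasFDerivAt_pi']
    intro i
    refine (h1 i).congr_fderiv ?_
    ext v
    simp [-Matrix.mulVec_mulVec, Matrix.mulVec_diagonal]
  have h6 := (LinearMap.toContinuousLinearMap (Matrix.toLin' Uᵀ)).hasFDerivAt.comp x h5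
  refine h6.congr_fderiv ?_
  ext v
  simp [tder, Matrix.mulVec_mulVec, Matrix.mul_assoc]


omit [DecidableEq ι] in
lemma injOn_tmap (U : Matrix ι κ ℝ) (hU : Uᵀ * U = 1) : InjOn (tmap U) (openSec U) := by
  intro x hx y hy hxy
  by_contra hne
  have h1 : (x - y) ⬝ᵥ (tmap U x - tmap U y) =
      ∑ i, √(rowSq U i) * ((Phi ((U *ᵥ x) i) - Phi ((U *ᵥ y) i)) *
        ((U *ᵥ x) i - (U *ᵥ y) i)) := by
    have h2 : (x - y) ⬝ᵥ (tmap U x - tmap U y) = (U *ᵥ (x - y)) ⬝ᵥ (avec U x - avec U y) := by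
      rw [tmap, tmap, ← Matrix.mulVec_sub, Matrix.dotProduct_mulVec, Matrix.vecMul_transpose]
    rw [h2, Matrix.mulVec_sub, dotProduct]
    refine Finset.sum_congr rfl fun i _ => ?_
    simp only [Pi.sub_apply, avec]
    ring
  have h3 : ∀ i, 0 ≤ √(rowSq U i) * ((Phi ((U *ᵥ x) i) - Phi ((U *ᵥ y) i)) *
        ((U *ᵥ x) i - (U *ᵥ y) i)) := by
    intro i
    refine mul_nonneg (Real.sqrt_nonneg _) ?_
    rcases lt_trichotomy ((U *ᵥ x) i) ((U *ᵥ y) i) with h | h | h
    · have := Phi_strictMonoOn (mem_openSec hx i) (mem_openSec hy i) h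
      nlinarith
    · rw [h]; simp
    · have := Phi_strictMonoOn (mem_openSec hy i) (mem_openSec hx i) h
      nlinarith
  have h4 : ∃ i, (U *ᵥ x) i ≠ (U *ᵥ y) i := by
    by_contra hcon
    push Not at hcon
    have h5 : U *ᵥ x = U *ᵥ y := funext hcon
    apply hne
    calc x = (Uᵀ * U) *ᵥ x := by rw [hU, Matrix.one_mulVec]
      _ = (Uᵀ * U) *ᵥ y := by rw [← Matrix.mulVec_mulVec, h5, Matrix.mulVec_mulVec]
      _ = y := by rw [hU, Matrix.one_mulVec]
  obtain ⟨i, hi⟩ := h4
  have hrow : 0 < rowSq U i := by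
    rcases (rowSq_nonneg U i).lt_or_eq with h | h
    · exact h
    · exfalso
      have h6 : ∀ l, U i l = 0 := by
        intro l
        have := (Finset.sum_eq_zero_iff_of_nonneg (fun _ _ => sq_nonneg _)).1 h.symm l
          (Finset.mem_univ l)
        exact pow_eq_zero_iff (two_ne_zero) |>.1 this
      apply hi
      simp [Matrix.mulVec, dotProduct, h6]
  have h7 : 0 < √(rowSq U i) * ((Phi ((U *ᵥ x) i) - Phi ((U *ᵥ y) i)) *
        ((U *ᵥ x) i - (U *ᵥ y) i)) := by
    refine mul_pos (Real.sqrt_pos.2 hrow) ?_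
    rcases lt_or_gt_of_ne hi with h | h
    · have := Phi_strictMonoOn (mem_openSec hx i) (mem_openSec hy i) h
      nlinarith
    · have := Phi_strictMonoOn (mem_openSec hy i) (mem_openSec hx i) h
      nlinarith
  have h8 : 0 < (x - y) ⬝ᵥ (tmap U x - tmap U y) := by
    rw [h1]
    exact Finset.sum_pos' (fun i _ => h3 i) ⟨i, Finset.mem_univ i, h7⟩
  rw [hxy, sub_self, dotProduct_zero] at h8
  exact lt_irrefl _ h8

omit [DecidableEq κ] [DecidableEq ι] in
lemma ballBound_pos (U : Matrix ι κ ℝ) : 0 < ballBound U := by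
  refine Finset.prod_pos fun i _ => ?_
  rcases (rowSq_nonneg U i).lt_or_eq with h | h
  · exact Real.rpow_pos_of_pos h _
  · rw [← h]; simp

omit [DecidableEq κ] [DecidableEq ι] in
lemma ballBound_mul (U : Matrix ι κ ℝ) :
    ballBound U * ∏ i, (√(rowSq U i)) ^ rowSq U i = 1 := by
  rw [ballBound, ← Finset.prod_mul_distrib]
  refine Finset.prod_eq_one fun i _ => ?_
  rcases (rowSq_nonneg U i).lt_or_eq with h | h
  · rw [Real.sqrt_eq_rpow, ← Real.rpow_mul h.le, ← Real.rpow_add h]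
    ring_nf
    simp
  · rw [← h]; simp

/-- The pointwise inequality. -/
lemma pointwise (U : Matrix ι κ ℝ) (hU : Uᵀ * U = 1) (x : κ → ℝ) :
    Real.exp (π * defect U x) ≤
      ballBound U * ((tder U x).det * Real.exp (-π * ∑ l, tmap U x l ^ 2)) := by
  have h1 := prod_rpow_le_det U hU
    (fun i => √(rowSq U i) * Real.exp (π * Phi ((U *ᵥ x) i) ^ 2)) (fun i => by positivity)
  have h2 : ∏ i, (√(rowSq U i) * Real.exp (π * Phi ((U *ᵥ x) i) ^ 2)) ^ rowSq U i =
      (∏ i, (√(rowSq U i)) ^ rowSq U i) * Real.exp (π * ∑ i, avec U x i ^ 2) := by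
    rw [Finset.mul_sum, Real.exp_sum, ← Finset.prod_mul_distrib]
    refine Finset.prod_congr rfl fun i _ => ?_
    rw [Real.mul_rpow (Real.sqrt_nonneg _) (Real.exp_pos _).le, ← Real.exp_mul]
    congr 2
    rw [avec, mul_pow, Real.sq_sqrt (rowSq_nonneg U i)]
    ring
  rw [h2] at h1
  have h3 : Real.exp (π * defect U x) =
      (ballBound U * ∏ i, (√(rowSq U i)) ^ rowSq U i) *
        (Real.exp (π * ∑ i, avec U x i ^ 2) * Real.exp (-π * ∑ l, tmap U x l ^ 2)) := by
    rw [ballBound_mul, one_mul, ← Real.exp_add, defect_eq U hU]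
    congr 1
    ring
  rw [h3, mul_assoc, ← mul_assoc (∏ i, (√(rowSq U i)) ^ rowSq U i)]
  refine mul_le_mul_of_nonneg_left ?_ (ballBound_pos U).le
  exact mul_le_mul_of_nonneg_right h1 (Real.exp_pos _).le

omit [DecidableEq κ] in
lemma lintegral_gauss_pi :
    ∫⁻ y : κ → ℝ, ENNReal.ofReal (Real.exp (-π * ∑ l, y l ^ 2)) = 1 := by
  have h1 : (fun y : κ → ℝ => Real.exp (-π * ∑ l, y l ^ 2)) =
      fun y => ∏ l, Real.exp (-π * y l ^ 2) := by
    funext y
    rw [Finset.mul_sum, Real.exp_sum]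
  have h2 : Integrable (fun y : κ → ℝ => Real.exp (-π * ∑ l, y l ^ 2)) := by
    rw [h1]
    exact Integrable.fintype_prod (f := fun _ (t : ℝ) => Real.exp (-π * t ^ 2))
      fun _ => integrable_exp_neg_mul_sq Real.pi_pos
  rw [← ofReal_integral_eq_lintegral_ofReal h2 (ae_of_all _ fun _ => (Real.exp_pos _).le), h1,
    integral_fintype_prod_volume_eq_pow (fun t : ℝ => Real.exp (-π * t ^ 2)), integral_gaussian,
    div_self Real.pi_ne_zero, Real.sqrt_one, one_pow, ENNReal.ofReal_one]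

/-- **The stable form of Ball's inequality.** -/
theorem stable_ball (U : Matrix ι κ ℝ) (hU : Uᵀ * U = 1) :
    ∫⁻ x in openSec U, ENNReal.ofReal (Real.exp (π * defect U x)) ≤
      ENNReal.ofReal (ballBound U) := by
  have hm : MeasurableSet (openSec U) := (isOpen_openSec U).measurableSet
  have h1 := lintegral_image_eq_lintegral_abs_det_fderiv_mul (volume : Measure (κ → ℝ)) hm
    (fun x hx => (hasFDerivAt_tmap U hx).hasFDerivWithinAt) (injOn_tmap U hU)
    (fun y => ENNReal.ofReal (Real.exp (-π * ∑ l, y l ^ 2)))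
  have h2 : ∫⁻ y in tmap U '' openSec U, ENNReal.ofReal (Real.exp (-π * ∑ l, y l ^ 2)) ≤ 1 := by
    rw [← lintegral_gauss_pi (κ := κ)]
    exact setLIntegral_le_lintegral _ _
  rw [h1] at h2
  calc ∫⁻ x in openSec U, ENNReal.ofReal (Real.exp (π * defect U x))
      ≤ ∫⁻ x in openSec U, ENNReal.ofReal (ballBound U) *
          (ENNReal.ofReal |(LinearMap.toContinuousLinearMap (Matrix.toLin' (tder U x))).det| *
          ENNReal.ofReal (Real.exp (-π * ∑ l, tmap U x l ^ 2))) := by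
        refine lintegral_mono fun x => ?_
        rw [← ENNReal.ofReal_mul (abs_nonneg _), ← ENNReal.ofReal_mul (ballBound_pos U).le]
        refine ENNReal.ofReal_le_ofReal ((pointwise U hU x).trans ?_)
        refine mul_le_mul_of_nonneg_left ?_ (ballBound_pos U).le
        refine mul_le_mul_of_nonneg_right ?_ (Real.exp_pos _).le
        rw [LinearMap.det_toContinuousLinearMap, LinearMap.det_toLin']
        exact le_abs_self _
    _ = ENNReal.ofReal (ballBound U) * ∫⁻ x in openSec U,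
          (ENNReal.ofReal |(LinearMap.toContinuousLinearMap (Matrix.toLin' (tder U x))).det| *
          ENNReal.ofReal (Real.exp (-π * ∑ l, tmap U x l ^ 2))) := by
        rw [lintegral_const_mul' _ _ ENNReal.ofReal_ne_top]
    _ ≤ ENNReal.ofReal (ballBound U) * 1 := mul_le_mul_right h2 _
    _ = ENNReal.ofReal (ballBound U) := mul_one _

/-- The volume of the section plus the integral of the defect is at most Ball's bound. -/
theorem volume_add_defect (U : Matrix ι κ ℝ) (hU : Uᵀ * U = 1) :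
    volume (openSec U) + ∫⁻ x in openSec U, ENNReal.ofReal (π * defect U x) ≤
      ENNReal.ofReal (ballBound U) := by
  refine le_trans ?_ (stable_ball U hU)
  have h1 : volume (openSec U) = ∫⁻ _ in openSec U, (1 : ℝ≥0∞) := by
    rw [lintegral_one, Measure.restrict_apply_univ]
  rw [h1, ← lintegral_add_left measurable_const]
  refine lintegral_mono fun x => ?_
  have hd : 0 ≤ π * defect U x :=
    mul_nonneg Real.pi_pos.le (Finset.sum_nonneg fun _ _ => sq_nonneg _)
  rw [← ENNReal.ofReal_one, ← ENNReal.ofReal_add zero_le_one hd]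
  refine ENNReal.ofReal_le_ofReal ?_
  have := Real.add_one_le_exp (π * defect U x)
  linarith

end Pool.Agent.Lib.MP_589a62_gt
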