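import Pool.Agent.Lib.MP_589a62_gt.Mixed

set_option autoImplicit false
set_option linter.unusedSectionVars false

/-!
# Existence of a basis of rows of maximal determinant
-/

open Matrix Finset MeasureTheory Set Real
open scoped ENNReal

namespace Pool.Agent.Lib.MP_589a62_gt

variable {ι κ : Type*} [Fintype ι] [Fintype κ] [DecidableEq κ] [DecidableEq ι]

lemma exists_minor_ne_zero (U : Matrix ι κ ℝ) (hU : Uᵀ * U = 1) :
    ∃ e : κ → ι, (U.submatrix e id).det ≠ 0 := by
  by_contra hcon
  push Not at hcon
  have h1 : (Uᵀ * U).det = ∑ e : κ → ι, (∏ l, U (e l) l) * (U.submatrix e id).det := by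
    have h2 : (Uᵀ * U) = fun l => ∑ i, U i l • U i := by
      funext l p
      simp [Matrix.mul_apply, Finset.sum_apply]
    have h3 : (Uᵀ * U).det = Matrix.detRowAlternating (Uᵀ * U) := rfl
    rw [h3, h2]
    have h4 := (Matrix.detRowAlternating (R := ℝ) (n := κ)).toMultilinearMap.map_sum
      (α := fun _ => ι) (fun l i => U i l • U i)
    simp only [AlternatingMap.coe_multilinearMap] at h4
    rw [h4]
    refine Finset.sum_congr rfl fun e _ => ?_
    have h5 := (Matrix.detRowAlternating (R := ℝ) (n := κ)).toMultilinearMap.map_smul_univ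
      (fun l => U (e l) l) (fun l => U (e l))
    simp only [AlternatingMap.coe_multilinearMap] at h5
    rw [h5, smul_eq_mul]
    rfl
  rw [hU, Matrix.det_one] at h1
  simp [hcon] at h1

/-- A basis of rows of maximal determinant. -/
lemma exists_goodBasis (U : Matrix ι κ ℝ) (hU : Uᵀ * U = 1) : Nonempty (GoodBasis U) := by
  obtain ⟨e0, he0⟩ := exists_minor_ne_zero U hU
  have : Nonempty (κ → ι) := ⟨e0⟩
  obtain ⟨e, he⟩ := Finite.exists_max fun e : κ → ι => |(U.submatrix e id).det|
  have hdet : (U.submatrix e id).det ≠ 0 := by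
    have := he e0
    have h2 : 0 < |(U.submatrix e0 id).det| := abs_pos.2 he0
    exact abs_pos.1 (lt_of_lt_of_le h2 this)
  set V := U.submatrix e id with hV
  have hu : IsUnit V.det := Ne.isUnit hdet
  have hmul : (U * V⁻¹) * V = U := by
    rw [Matrix.mul_assoc, Matrix.nonsing_inv_mul _ hu, Matrix.mul_one]
  refine ⟨⟨e, U * V⁻¹, hU, hdet, hmul, ?_⟩⟩
  intro i l
  set A := U * V⁻¹ with hA
  have h1 : U i = ∑ p, A i p • V p := by
    funext q
    have := congrFun (congrFun hmul i) q
    rw [← this, Matrix.mul_apply, Finset.sum_apply]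
    simp [smul_eq_mul]
  have h2 : (V.updateRow l (U i)).det = A i l * V.det := by
    rw [h1, Matrix.det_updateRow_sum, smul_eq_mul]
  have h3 : V.updateRow l (U i) = U.submatrix (Function.update e l i) id := by
    ext p q
    by_cases hp : p = l
    · subst hp
      simp
    · simp [Matrix.updateRow_ne hp, hV, Function.update_of_ne hp]
  have h4 : |(U.submatrix (Function.update e l i) id).det| ≤ |V.det| := he (Function.update e l i)
  rw [← h3, h2, abs_mul] at h4
  have h5 : 0 < |V.det| := abs_pos.2 hdet
  nlinarith [abs_nonneg (A i l)]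

/-- The volume in the new coordinates. -/
lemma vol_sq_eq {U A : Matrix ι κ ℝ} {V : Matrix κ κ ℝ} (hU : Uᵀ * U = 1) (hAV : A * V = U) :
    vol U ^ 2 = (volume (openSec A)).toReal ^ 2 * (Aᵀ * A).det := by
  have h1 : V.det ^ 2 * (Aᵀ * A).det = 1 := by
    have : Vᵀ * (Aᵀ * A) * V = 1 := by
      rw [← hU, ← hAV, Matrix.transpose_mul]
      simp only [Matrix.mul_assoc]
    have h2 := congrArg Matrix.det this
    rw [Matrix.det_mul, Matrix.det_mul, Matrix.det_transpose, Matrix.det_one] at h2
    linarith
  have hV : V.det ≠ 0 := by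
    intro h
    rw [h] at h1
    simp at h1
  have hmap := Real.map_matrix_volume_pi_eq_smul_volume_pi hV
  have hm : Measurable (fun x : κ → ℝ => V *ᵥ x) :=
    (Continuous.matrix_mulVec continuous_const continuous_id).measurable
  have hmeas : MeasurableSet (openSec A) := (isOpen_openSec A).measurableSet
  have hpre : (fun x : κ → ℝ => V *ᵥ x) ⁻¹' openSec A = openSec U := by
    ext x
    simp only [Set.mem_preimage, openSec, Set.mem_ofPred_eq, Matrix.mulVec_mulVec, hAV]
  have h2 : volume (openSec U) = ENNReal.ofReal |(V.det)⁻¹| * volume (openSec A) := by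
    have h3 : Measure.map (fun x : κ → ℝ => V *ᵥ x) volume (openSec A) =
        (ENNReal.ofReal |(V.det)⁻¹| • (volume : Measure (κ → ℝ))) (openSec A) := by
      rw [← hmap]
      rfl
    rw [Measure.map_apply hm hmeas, hpre] at h3
    rw [h3]
    rfl
  have h4 : vol U = |(V.det)⁻¹| * (volume (openSec A)).toReal := by
    rw [vol, h2, ENNReal.toReal_mul, ENNReal.toReal_ofReal (abs_nonneg _)]
  rw [h4, mul_pow, sq_abs, inv_pow, mul_comm ((V.det ^ 2)⁻¹)]
  congr 1
  exact (eq_inv_of_mul_eq_one_right h1).symm

end Pool.Agent.Lib.MP_589a62_gt
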