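import Mathlib.Algebra.Order.Ring.Pow
import Mathlib.Data.Fintype.BigOperators
import Mathlib.Data.Real.Basic
import Mathlib.Analysis.SpecialFunctions.Pow.Real
import Mathlib.Tactic

set_option autoImplicit false

/-!
# Products of integers with given sum
-/

open Finset

namespace Pool.Agent.Lib.MP_589a62_gt

/-- `m ≤ q (1 + 1/q)^(m - q)`, strictly unless `m = q` or `m = q + 1`. -/
lemma int_ineq (q m : ℕ) (hq : 1 ≤ q) :
    (m : ℝ) ≤ q * ((q + 1 : ℝ) / q) ^ ((m : ℝ) - q) ∧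
    (m ≠ q → m ≠ q + 1 → (m : ℝ) < q * ((q + 1 : ℝ) / q) ^ ((m : ℝ) - q)) := by
  have hq0 : (0 : ℝ) < q := by exact_mod_cast hq
  have hρ : 0 < (q + 1 : ℝ) / q := by positivity
  rcases le_or_gt q m with h | h
  · obtain ⟨d, rfl⟩ := Nat.exists_eq_add_of_le h
    have e1 : ((q + 1 : ℝ) / q) ^ (((q + d : ℕ) : ℝ) - q) = (1 + 1 / (q : ℝ)) ^ d := by
      have : (((q + d : ℕ) : ℝ) - q) = (d : ℝ) := by push_cast; ring
      rw [this, Real.rpow_natCast]
      congr 1
      field_simp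
    rw [e1]
    push_cast
    have hb : ∀ d : ℕ, 1 + (d : ℝ) * (1 / (q : ℝ)) ≤ (1 + 1 / (q : ℝ)) ^ d := fun d =>
      one_add_mul_le_pow (by have : (0 : ℝ) < 1 / q := by positivity
                             linarith) d
    constructor
    · calc (q : ℝ) + d = q * (1 + (d : ℝ) * (1 / (q : ℝ))) := by field_simp
        _ ≤ q * (1 + 1 / (q : ℝ)) ^ d := mul_le_mul_of_nonneg_left (hb d) hq0.le
    · intro h1 h2
      have hd : 2 ≤ d := by omega
      obtain ⟨e, rfl⟩ := Nat.exists_eq_add_of_le hd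
      have h3 := hb e
      have h4 : (0 : ℝ) < 1 / q := by positivity
      have h5 : 1 + ((2 + e : ℕ) : ℝ) * (1 / (q : ℝ)) < (1 + 1 / (q : ℝ)) ^ (2 + e) := by
        rw [pow_add]
        push_cast
        have h6 : (0 : ℝ) ≤ (e : ℝ) := by positivity
        calc 1 + (2 + (e : ℝ)) * (1 / (q : ℝ)) <
              (1 + 1 / (q : ℝ)) ^ 2 * (1 + (e : ℝ) * (1 / (q : ℝ))) := by
              nlinarith [mul_nonneg h6 h4.le, mul_pos h4 h4,
                mul_nonneg (mul_nonneg h6 h4.le) h4.le,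
                mul_nonneg (mul_nonneg h6 h4.le) (mul_nonneg h4.le h4.le)]
          _ ≤ (1 + 1 / (q : ℝ)) ^ 2 * (1 + 1 / (q : ℝ)) ^ e :=
              mul_le_mul_of_nonneg_left h3 (by positivity)
      calc (q : ℝ) + ((2 : ℕ) + (e : ℕ) : ℕ) = q * (1 + ((2 + e : ℕ) : ℝ) * (1 / (q : ℝ))) := by
            field_simp
        _ < q * (1 + 1 / (q : ℝ)) ^ (2 + e) := mul_lt_mul_of_pos_left h5 hq0
  · have hstrict : (m : ℝ) < q * ((q + 1 : ℝ) / q) ^ ((m : ℝ) - q) := by
      obtain ⟨d, hd⟩ := Nat.exists_eq_add_of_lt h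
      have hdq : (m : ℝ) - q = -((d + 1 : ℕ) : ℝ) := by
        rw [hd]; push_cast; ring
      have e1 : ((q + 1 : ℝ) / q) ^ ((m : ℝ) - q) = (1 + (-(1 / ((q : ℝ) + 1)))) ^ (d + 1) := by
        rw [hdq, Real.rpow_neg hρ.le, Real.rpow_natCast, ← inv_pow]
        congr 1
        field_simp
        ring
      rw [e1]
      have h1 : 1 + ((d + 1 : ℕ) : ℝ) * (-(1 / ((q : ℝ) + 1))) ≤
          (1 + (-(1 / ((q : ℝ) + 1)))) ^ (d + 1) := by
        refine one_add_mul_le_pow ?_ _
        have : 1 / ((q : ℝ) + 1) ≤ 1 := by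
          rw [div_le_one (by positivity)]; linarith
        linarith
      have h2 : (m : ℝ) = q * (1 - ((d + 1 : ℕ) : ℝ) * (1 / (q : ℝ))) := by
        have : (q : ℝ) = m + (d + 1 : ℕ) := by
          have : q = m + (d + 1) := by omega
          exact_mod_cast this
        field_simp
        push_cast at this ⊢
        linarith
      rw [h2]
      refine mul_lt_mul_of_pos_left ?_ hq0
      refine lt_of_lt_of_le ?_ h1
      have h3 : 1 / ((q : ℝ) + 1) < 1 / (q : ℝ) := by
        apply one_div_lt_one_div_of_lt hq0; linarith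
      have h4 : (0 : ℝ) < ((d + 1 : ℕ) : ℝ) := by positivity
      nlinarith
    exact ⟨hstrict.le, fun _ _ => hstrict⟩

variable {κ : Type*} [Fintype κ]

/-- The product of natural numbers with sum `k q + r` is at most `q^(k-r) (q+1)^r`, with equality
only if all of them are `q` or `q + 1`. -/
theorem prod_le_max (f : κ → ℕ) (q r : ℕ) (hq : 1 ≤ q) (hr : r ≤ Fintype.card κ)
    (hsum : ∑ l, f l = Fintype.card κ * q + r) :
    (∏ l, (f l : ℝ) ≤ (q : ℝ) ^ (Fintype.card κ - r) * ((q : ℝ) + 1) ^ r) ∧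
    (∏ l, (f l : ℝ) = (q : ℝ) ^ (Fintype.card κ - r) * ((q : ℝ) + 1) ^ r →
      ∀ l, f l = q ∨ f l = q + 1) := by
  have hq0 : (0 : ℝ) < q := by exact_mod_cast hq
  have hρ : 0 < (q + 1 : ℝ) / q := by positivity
  have key : (∏ _l : κ, (q : ℝ)) * ∏ l, ((q + 1 : ℝ) / q) ^ ((f l : ℝ) - q) =
      (q : ℝ) ^ (Fintype.card κ - r) * ((q : ℝ) + 1) ^ r := by
    rw [← Real.rpow_sum_of_pos hρ, Finset.sum_sub_distrib]
    have h1 : ∑ l, (f l : ℝ) = Fintype.card κ * q + r := by exact_mod_cast hsum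
    rw [h1]
    simp only [Finset.sum_const, Finset.prod_const, Finset.card_univ, nsmul_eq_mul]
    have h2 : (Fintype.card κ : ℝ) * q + r - Fintype.card κ * q = (r : ℝ) := by ring
    rw [h2, Real.rpow_natCast, div_pow]
    have h3 : (q : ℝ) ^ Fintype.card κ = (q : ℝ) ^ (Fintype.card κ - r) * (q : ℝ) ^ r := by
      rw [← pow_add]
      congr 1
      omega
    rw [h3]
    field_simp
  have hle : ∀ l, (f l : ℝ) ≤ q * ((q + 1 : ℝ) / q) ^ ((f l : ℝ) - q) := fun l =>
    (int_ineq q (f l) hq).1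
  constructor
  · rw [← key, ← Finset.prod_mul_distrib]
    exact Finset.prod_le_prod (fun l _ => by positivity) fun l _ => hle l
  · intro heq l
    by_contra hcon
    push Not at hcon
    have hstrict := (int_ineq q (f l) hq).2 hcon.1 hcon.2
    have hpos : ∀ l, 0 < (f l : ℝ) := by
      intro l'
      by_contra h0
      have h1 : (f l' : ℝ) = 0 := le_antisymm (not_lt.1 h0) (by positivity)
      have h2 : ∏ l, (f l : ℝ) = 0 := Finset.prod_eq_zero (Finset.mem_univ l') h1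
      rw [h2] at heq
      have h3 : 0 < (q : ℝ) ^ (Fintype.card κ - r) * ((q : ℝ) + 1) ^ r := by positivity
      linarith
    have hlt : ∏ l, (f l : ℝ) < ∏ l, (q * ((q + 1 : ℝ) / q) ^ ((f l : ℝ) - q)) :=
      Finset.prod_lt_prod (fun l _ => hpos l) (fun l _ => hle l) ⟨l, Finset.mem_univ l, hstrict⟩
    rw [Finset.prod_mul_distrib, key] at hlt
    linarith

end Pool.Agent.Lib.MP_589a62_gt
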