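import Pool.Agent.Lib.MP_589a62_gt.Cut
import Mathlib.Algebra.Order.Star.Real

set_option autoImplicit false
set_option linter.unusedSectionVars false

/-!
# Local analysis near a product of diagonals
-/

open Matrix Finset MeasureTheory Set Real
open scoped ENNReal

namespace Pool.Agent.Lib.MP_589a62_gt

variable {ι κ : Type*} [Fintype ι] [Fintype κ] [DecidableEq κ] [DecidableEq ι]

/-- The size of the fibre of `j` over `l`, as a real number. -/
noncomputable def fib (j : ι → κ) (l : κ) : ℝ := ∑ i, if j i = l then (1 : ℝ) else 0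

/-- Squared norm of the part of row `i` off the coordinate `j i`. -/
def off (A : Matrix ι κ ℝ) (j : ι → κ) (i : ι) : ℝ := ∑ l ∈ Finset.univ.erase (j i), A i l ^ 2

lemma off_nonneg (A : Matrix ι κ ℝ) (j : ι → κ) (i : ι) : 0 ≤ off A j i :=
  Finset.sum_nonneg fun _ _ => sq_nonneg _

lemma fib_nonneg (j : ι → κ) (l : κ) : 0 ≤ fib j l :=
  Finset.sum_nonneg fun i _ => by split_ifs <;> norm_num

lemma fib_le (j : ι → κ) (l : κ) : fib j l ≤ Fintype.card ι := by
  calc fib j l ≤ ∑ _i : ι, (1 : ℝ) := Finset.sum_le_sum fun i _ => by split_ifs <;> norm_num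
    _ = Fintype.card ι := by simp

lemma sum_fib (j : ι → κ) : ∑ l, fib j l = Fintype.card ι := by
  unfold fib
  rw [Finset.sum_comm]
  simp

/-- Hadamard plus `x ≤ n exp ((x - n) / n)`. -/
lemma det_le_exp (A : Matrix ι κ ℝ) (hA : ∀ i l, |A i l| ≤ 1) (j : ι → κ) {K : ℝ} (hK : 0 < K)
    (hn : ∀ l, (Fintype.card ι : ℝ) ≤ K * fib j l) (hN : 0 < Fintype.card ι) :
    (Aᵀ * A).det ≤ (∏ l, fib j l) *
      Real.exp ((∑ i, (K * off A j i - (1 - |A i (j i)|))) / Fintype.card ι) := by
  set N : ℝ := (Fintype.card ι : ℝ) with hNdef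
  have hN0 : 0 < N := by rw [hNdef]; exact_mod_cast hN
  have hf0 : ∀ l, 0 < fib j l := by
    intro l
    have := hn l
    by_contra hcon
    have h2 : K * fib j l ≤ 0 := mul_nonpos_of_nonneg_of_nonpos hK.le (not_lt.1 hcon)
    linarith
  have hinv : ∀ l, 1 / fib j l ≤ K / N := by
    intro l
    rw [div_le_div_iff₀ (hf0 l) hN0]
    linarith [hn l]
  have h1 : ∀ l, ∑ i, A i l ^ 2 ≤ fib j l * Real.exp ((∑ i, A i l ^ 2 - fib j l) / fib j l) := by
    intro l
    have h2 := Real.add_one_le_exp ((∑ i, A i l ^ 2 - fib j l) / fib j l)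
    have h3 : ∑ i, A i l ^ 2 = fib j l * ((∑ i, A i l ^ 2 - fib j l) / fib j l + 1) := by
      have := (hf0 l).ne'
      field_simp
      ring
    calc ∑ i, A i l ^ 2 = fib j l * ((∑ i, A i l ^ 2 - fib j l) / fib j l + 1) := h3
      _ ≤ _ := mul_le_mul_of_nonneg_left h2 (hf0 l).le
  have hS : ∑ l, (∑ i, A i l ^ 2 - fib j l) / fib j l ≤
      (∑ i, (K * off A j i - (1 - |A i (j i)|))) / N := by
    have e1 : ∑ l, (∑ i, A i l ^ 2 - fib j l) / fib j l =
        ∑ i, ∑ l, (A i l ^ 2 - if j i = l then 1 else 0) / fib j l := by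
      rw [Finset.sum_comm]
      refine Finset.sum_congr rfl fun l _ => ?_
      rw [← Finset.sum_div, Finset.sum_sub_distrib]
      rfl
    rw [e1, Finset.sum_div]
    refine Finset.sum_le_sum fun i _ => ?_
    rw [← Finset.add_sum_erase _ _ (Finset.mem_univ (j i))]
    have h4 : (A i (j i) ^ 2 - if j i = j i then (1 : ℝ) else 0) / fib j (j i) ≤
        -(1 - |A i (j i)|) / N := by
      rw [if_pos rfl]
      have h5 : A i (j i) ^ 2 - 1 ≤ -(1 - |A i (j i)|) := by
        rw [← sq_abs]
        nlinarith [abs_nonneg (A i (j i)), hA i (j i)]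
      have h6 : -(1 - |A i (j i)|) ≤ 0 := by linarith [hA i (j i)]
      calc (A i (j i) ^ 2 - 1) / fib j (j i) ≤ -(1 - |A i (j i)|) / fib j (j i) :=
            div_le_div_of_nonneg_right h5 (hf0 _).le
        _ ≤ -(1 - |A i (j i)|) / N := by
            rw [div_le_div_iff₀ (hf0 _) hN0]
            have := fib_le j (j i)
            nlinarith
    have h7 : ∑ l ∈ Finset.univ.erase (j i), (A i l ^ 2 - if j i = l then (1 : ℝ) else 0) / fib j l
        ≤ K * off A j i / N := by
      rw [off, Finset.mul_sum, Finset.sum_div]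
      refine Finset.sum_le_sum fun l hl => ?_
      rw [if_neg (Finset.ne_of_mem_erase hl).symm, sub_zero]
      have := hinv l
      have h8 := sq_nonneg (A i l)
      calc A i l ^ 2 / fib j l = A i l ^ 2 * (1 / fib j l) := by ring
        _ ≤ A i l ^ 2 * (K / N) := mul_le_mul_of_nonneg_left this h8
        _ = K * A i l ^ 2 / N := by ring
    calc _ ≤ -(1 - |A i (j i)|) / N + K * off A j i / N := add_le_add h4 h7
      _ = (K * off A j i - (1 - |A i (j i)|)) / N := by ring
  calc (Aᵀ * A).det ≤ ∏ l, ∑ i, A i l ^ 2 := hadamard A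
    _ ≤ ∏ l, (fib j l * Real.exp ((∑ i, A i l ^ 2 - fib j l) / fib j l)) :=
        Finset.prod_le_prod (fun l _ => Finset.sum_nonneg fun _ _ => sq_nonneg _) fun l _ => h1 l
    _ = (∏ l, fib j l) * Real.exp (∑ l, (∑ i, A i l ^ 2 - fib j l) / fib j l) := by
        rw [Finset.prod_mul_distrib, Real.exp_sum]
    _ ≤ _ := mul_le_mul_of_nonneg_left (Real.exp_le_exp.2 hS)
        (Finset.prod_nonneg fun l _ => (hf0 l).le)

/-- **Local bound.** -/
theorem local_bound [Nonempty κ] (A : Matrix ι κ ℝ) (hA : ∀ i l, |A i l| ≤ 1) (j : ι → κ)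
    (e : κ → ι) (he : ∀ p q, A (e p) q = if p = q then 1 else 0)
    (hn : ∀ l, (Fintype.card ι : ℝ) ≤ 4 * Fintype.card κ * fib j l)
    (hη : ∀ i, ∀ l, l ≠ j i → 128 * (Fintype.card κ : ℝ) ^ 2 * |A i l| < 1) :
    ((volume (openSec A)).toReal ^ 2 * (Aᵀ * A).det ≤ ∏ l, fib j l) ∧
    ((volume (openSec A)).toReal ^ 2 * (Aᵀ * A).det = ∏ l, fib j l →
      ∀ i, |A i (j i)| = 1 ∧ ∀ l, l ≠ j i → A i l = 0) := by
  set k : ℝ := (Fintype.card κ : ℝ) with hk
  have hk1 : 1 ≤ k := by
    rw [hk]; exact_mod_cast Fintype.card_pos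
  have hk0 : 0 < k := by linarith
  have hcardι : 0 < Fintype.card ι := Fintype.card_pos_iff.2 ⟨e (Classical.arbitrary κ)⟩
  set N : ℝ := (Fintype.card ι : ℝ) with hNdef
  have hN0 : 0 < N := by rw [hNdef]; exact_mod_cast hcardι
  have hf0 : ∀ l, 0 < fib j l := by
    intro l
    have := hn l
    by_contra hcon
    have h2 : 4 * k * fib j l ≤ 0 := mul_nonpos_of_nonneg_of_nonpos (by positivity) (not_lt.1 hcon)
    linarith
  have hP0 : 0 < ∏ l, fib j l := Finset.prod_pos fun l _ => hf0 l
  have hcube : openSec A ⊆ cube κ := by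
    intro y hy p
    have h1 := hy (e p)
    have h2 : (A *ᵥ y) (e p) = y p := by
      simp only [Matrix.mulVec, dotProduct, he, ite_mul, one_mul, zero_mul, Finset.sum_ite_eq,
        Finset.mem_univ, if_true]
    rwa [h2] at h1
  have hvtop : volume (openSec A) ≤ 1 := (measure_mono hcube).trans volume_cube.le
  set v := (volume (openSec A)).toReal with hv
  have hv0 : 0 ≤ v := ENNReal.toReal_nonneg
  have hv1 : v ≤ 1 := by
    have := ENNReal.toReal_mono ENNReal.one_ne_top hvtop
    simpa using this
  have hdet0 : 0 ≤ (Aᵀ * A).det := by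
    have : (Aᵀ * A).PosSemidef := by
      have := Matrix.posSemidef_conjTranspose_mul_self A
      rwa [conjTranspose_eq_transpose_of_trivial] at this
    exact this.det_nonneg
  have hdet := det_le_exp A hA j (K := 4 * k) (by positivity) hn hcardι
  by_cases hII : ∃ i, 1 - |A i (j i)| < 8 * k * off A j i
  · -- there is a tilted row
    have hfin : (Finset.univ.filter fun i => 1 - |A i (j i)| < 8 * k * off A j i).Nonempty := by
      obtain ⟨i, hi⟩ := hII
      exact ⟨i, by simp [hi]⟩
    obtain ⟨i, hi, hmax⟩ := Finset.exists_max_image _ (fun i => off A j i) hfin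
    rw [Finset.mem_filter] at hi
    have hi := hi.2
    have hoff : 0 < off A j i := by
      have := hA i (j i)
      by_contra hcon
      have : 8 * k * off A j i ≤ 0 :=
        mul_nonpos_of_nonneg_of_nonpos (by positivity) (not_lt.1 hcon)
      linarith
    -- the largest coordinate off `j i`
    have hne : (Finset.univ.erase (j i)).Nonempty := by
      by_contra hcon
      rw [Finset.not_nonempty_iff_eq_empty] at hcon
      rw [off, hcon, Finset.sum_empty] at hoff
      exact lt_irrefl _ hoff
    obtain ⟨l, hl, hlmax⟩ := Finset.exists_max_image _ (fun l => |A i l|) hne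
    have hlj : l ≠ j i := Finset.ne_of_mem_erase hl
    set t := |A i l| with ht
    have ht0 : 0 ≤ t := abs_nonneg _
    have hofft : off A j i ≤ k * t ^ 2 := by
      calc off A j i ≤ ∑ _l ∈ Finset.univ.erase (j i), t ^ 2 := by
            refine Finset.sum_le_sum fun p hp => ?_
            rw [← sq_abs]
            exact pow_le_pow_left₀ (abs_nonneg _) (hlmax p hp) 2
        _ = ((Finset.univ.erase (j i)).card : ℝ) * t ^ 2 := by
            rw [Finset.sum_const, nsmul_eq_mul]
        _ ≤ k * t ^ 2 := by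
            refine mul_le_mul_of_nonneg_right ?_ (sq_nonneg _)
            rw [hk]
            exact_mod_cast Finset.card_le_univ _
    have htpos : 0 < t := by
      rcases ht0.lt_or_eq with h | h
      · exact h
      · rw [← h] at hofft
        simp at hofft
        linarith
    have htη := hη i l hlj
    rw [← ht] at htη
    have hcutcond : 1 - |A i (j i)| ≤ t / 4 := by
      have h1 : 1 - |A i (j i)| < 8 * k * (k * t ^ 2) :=
        lt_of_lt_of_le hi (mul_le_mul_of_nonneg_left hofft (by positivity))
      have h2 : 8 * k * (k * t ^ 2) = (8 * k ^ 2 * t) * t := by ring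
      have h3 : 8 * k ^ 2 * t < 1 / 16 := by linarith
      nlinarith
    have hcut := volume_cut A hcube i hlj.symm (hA i l) hcutcond
    have hvcut : v + t / 64 ≤ 1 := by
      have h1 := ENNReal.toReal_mono ENNReal.one_ne_top hcut
      rw [ENNReal.toReal_add (ne_top_of_le_ne_top ENNReal.one_ne_top hvtop)
        ENNReal.ofReal_ne_top, ENNReal.toReal_ofReal (by positivity), ENNReal.toReal_one] at h1
      exact h1
    have hsum : (∑ i, (4 * k * off A j i - (1 - |A i (j i)|))) / N ≤ 4 * k * (k * t ^ 2) := by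
      rw [div_le_iff₀ hN0]
      calc ∑ i, (4 * k * off A j i - (1 - |A i (j i)|)) ≤ ∑ _i : ι, 4 * k * (k * t ^ 2) := by
            refine Finset.sum_le_sum fun i' _ => ?_
            by_cases h : 1 - |A i' (j i')| < 8 * k * off A j i'
            · have h1 := hmax i' (by simp [h])
              have h2 : 0 ≤ 1 - |A i' (j i')| := by linarith [hA i' (j i')]
              have h3 : 4 * k * off A j i' ≤ 4 * k * (k * t ^ 2) :=
                mul_le_mul_of_nonneg_left (h1.trans hofft) (by positivity)
              linarith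
            · have h1 := not_lt.1 h
              have h2 : 0 ≤ off A j i' := off_nonneg A j i'
              have h3 : 0 ≤ 4 * k * (k * t ^ 2) := by positivity
              have h4 : 0 ≤ 4 * k * off A j i' := by positivity
              linarith
        _ = 4 * k * (k * t ^ 2) * N := by
            rw [Finset.sum_const, nsmul_eq_mul, mul_comm]
            rfl
    have hvexp : v ≤ Real.exp (-(t / 64)) := by
      have := Real.add_one_le_exp (-(t / 64))
      linarith
    have hstrict : v ^ 2 * (Aᵀ * A).det < ∏ l, fib j l := by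
      have h1 : v ^ 2 ≤ Real.exp (-(t / 32)) := by
        calc v ^ 2 ≤ Real.exp (-(t / 64)) ^ 2 := pow_le_pow_left₀ hv0 hvexp 2
          _ = Real.exp (-(t / 32)) := by
              rw [← Real.exp_nat_mul]
              congr 1
              push_cast
              ring
      have h2 : (Aᵀ * A).det ≤ (∏ l, fib j l) * Real.exp (4 * k * (k * t ^ 2)) :=
        hdet.trans (mul_le_mul_of_nonneg_left (Real.exp_le_exp.2 hsum) hP0.le)
      calc v ^ 2 * (Aᵀ * A).det ≤ Real.exp (-(t / 32)) *
            ((∏ l, fib j l) * Real.exp (4 * k * (k * t ^ 2))) :=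
            mul_le_mul h1 h2 hdet0 (Real.exp_pos _).le
        _ = (∏ l, fib j l) * Real.exp (-(t / 32) + 4 * k * (k * t ^ 2)) := by
            rw [Real.exp_add]; ring
        _ < (∏ l, fib j l) * 1 := by
            refine mul_lt_mul_of_pos_left ?_ hP0
            rw [Real.exp_lt_one_iff]
            have h3 : 4 * k * (k * t ^ 2) = (4 * k ^ 2 * t) * t := by ring
            have h4 : 4 * k ^ 2 * t < 1 / 32 := by linarith
            nlinarith
        _ = ∏ l, fib j l := mul_one _
    exact ⟨hstrict.le, fun h => absurd h hstrict.ne⟩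
  · push Not at hII
    have hsum : (∑ i, (4 * k * off A j i - (1 - |A i (j i)|))) / N ≤
        -((∑ i, (1 - |A i (j i)|)) / 2) / N := by
      refine div_le_div_of_nonneg_right ?_ hN0.le
      rw [Finset.sum_div, ← Finset.sum_neg_distrib]
      refine Finset.sum_le_sum fun i _ => ?_
      have := hII i
      linarith
    have ha0 : ∀ i, 0 ≤ 1 - |A i (j i)| := fun i => by linarith [hA i (j i)]
    have hS0 : 0 ≤ ∑ i, (1 - |A i (j i)|) := Finset.sum_nonneg fun i _ => ha0 i
    have hbound : v ^ 2 * (Aᵀ * A).det ≤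
        (∏ l, fib j l) * Real.exp (-((∑ i, (1 - |A i (j i)|)) / 2) / N) := by
      have h1 : v ^ 2 ≤ 1 := pow_le_one₀ hv0 hv1
      calc v ^ 2 * (Aᵀ * A).det ≤ 1 * (Aᵀ * A).det := mul_le_mul_of_nonneg_right h1 hdet0
        _ = (Aᵀ * A).det := one_mul _
        _ ≤ _ := hdet.trans (mul_le_mul_of_nonneg_left (Real.exp_le_exp.2 hsum) hP0.le)
    constructor
    · refine hbound.trans ?_
      calc _ ≤ (∏ l, fib j l) * 1 := by
            refine mul_le_mul_of_nonneg_left ?_ hP0.le
            rw [Real.exp_le_one_iff]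
            have : 0 ≤ (∑ i, (1 - |A i (j i)|)) / 2 / N := by positivity
            rw [neg_div]
            linarith
        _ = _ := mul_one _
    · intro heq
      rw [heq] at hbound
      have h1 : 1 ≤ Real.exp (-((∑ i, (1 - |A i (j i)|)) / 2) / N) := by
        by_contra hcon
        push Not at hcon
        have := mul_lt_mul_of_pos_left hcon hP0
        linarith
      rw [Real.one_le_exp_iff, neg_div, neg_nonneg] at h1
      have h2 : ∑ i, (1 - |A i (j i)|) = 0 := by
        have h3 : 0 ≤ (∑ i, (1 - |A i (j i)|)) / 2 / N := by positivity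
        have h4 := le_antisymm h1 h3
        have h5 : (∑ i, (1 - |A i (j i)|)) / 2 = 0 := by
          rcases div_eq_zero_iff.1 h4 with h | h
          · exact h
          · exact absurd h hN0.ne'
        linarith
      intro i
      have h3 := (Finset.sum_eq_zero_iff_of_nonneg (fun i _ => ha0 i)).1 h2 i (Finset.mem_univ i)
      refine ⟨by linarith, fun l hl => ?_⟩
      have h4 := hII i
      rw [h3] at h4
      have h5 : off A j i ≤ 0 := by
        by_contra hcon
        have : 0 < 8 * k * off A j i := mul_pos (by positivity) (not_le.1 hcon)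
        linarith
      have h6 : off A j i = 0 := le_antisymm h5 (off_nonneg A j i)
      have h7 := (Finset.sum_eq_zero_iff_of_nonneg (fun l _ => sq_nonneg _)).1 h6 l
        (Finset.mem_erase.2 ⟨hl, Finset.mem_univ l⟩)
      exact pow_eq_zero_iff (two_ne_zero) |>.1 h7

end Pool.Agent.Lib.MP_589a62_gt
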