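import Pool.Agent.Lib.MP_589a62_gt.Entropy
import Pool.Agent.Lib.MP_589a62_gt.Basis
import Pool.Agent.Lib.MP_589a62_gt.Local

set_option autoImplicit false
set_option linter.unusedSectionVars false

/-!
# The core estimate

If the volume is at least the value `(n/k)^(k/2) exp (-L/2)` with `n L` small, then the section is
close to a product of diagonals and its squared volume is at most `∏ n_l`.
-/

open Matrix Finset MeasureTheory Set Real
open scoped ENNReal

namespace Pool.Agent.Lib.MP_589a62_gt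

variable {ι κ : Type*} [Fintype ι] [Fintype κ] [DecidableEq κ] [DecidableEq ι]

lemma exp_half_sub_one_le {L : ℝ} (h0 : 0 ≤ L) (h1 : L ≤ 1) : Real.exp (L / 2) - 1 ≤ L := by
  have h2 : Real.exp (L / 2) ≤ 1 / (1 - L / 2) := by
    have h3 := Real.add_one_le_exp (-(L / 2))
    have h4 : 0 < 1 - L / 2 := by linarith
    rw [le_div_iff₀ h4]
    calc Real.exp (L / 2) * (1 - L / 2) ≤ Real.exp (L / 2) * Real.exp (-(L / 2)) :=
          mul_le_mul_of_nonneg_left (by linarith) (Real.exp_pos _).le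
      _ = 1 := by rw [← Real.exp_add]; simp
  have h5 : 1 / (1 - L / 2) ≤ 1 + L := by
    rw [div_le_iff₀ (by linarith)]
    nlinarith
  linarith

lemma rowSq_triangle {U : Matrix ι κ ℝ} (g : GoodBasis U) (i : ι) :
    √(rowSq U i) ≤ ∑ l, |g.A i l| * √(rowSq U (g.e l)) := by
  have hnorm : ∀ i, √(rowSq U i) = ‖(WithLp.toLp 2 (U i) : EuclideanSpace ℝ κ)‖ := by
    intro i
    rw [EuclideanSpace.norm_eq]
    congr 1
    exact Finset.sum_congr rfl fun l _ => by simp
  have h1 : (WithLp.toLp 2 (U i) : EuclideanSpace ℝ κ) =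
      ∑ l, g.A i l • (WithLp.toLp 2 (U (g.e l)) : EuclideanSpace ℝ κ) := by
    ext q
    have h2 := congrFun (congrFun g.mul_eq i) q
    rw [Matrix.mul_apply] at h2
    simp only [WithLp.ofLp_sum, WithLp.ofLp_smul, Finset.sum_apply, Pi.smul_apply, smul_eq_mul]
    rw [← h2]
    rfl
  rw [hnorm, h1]
  refine (norm_sum_le _ _).trans (Finset.sum_le_sum fun l _ => ?_)
  rw [norm_smul, Real.norm_eq_abs, hnorm]

/-- An elementary consequence of the arithmetic-geometric mean inequality. -/
lemma prod_le_of_small (M : κ → ℝ) (hM : ∀ p, 0 ≤ M p) {δ : ℝ}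
    (hsum : ∑ p, M p ≤ Fintype.card κ + δ) (l : κ) (hl : M l ≤ 1 / 2) :
    ∏ p, M p ≤ 1 / 2 * Real.exp (1 / 2 + δ) := by
  have h1 : ∏ p ∈ Finset.univ.erase l, M p ≤
      Real.exp (∑ p ∈ Finset.univ.erase l, (M p - 1)) := by
    rw [Real.exp_sum]
    refine Finset.prod_le_prod (fun p _ => hM p) fun p _ => ?_
    have := Real.add_one_le_exp (M p - 1)
    linarith
  have h2 : ∑ p ∈ Finset.univ.erase l, (M p - 1) ≤ 1 - M l + δ := by
    have h3 := Finset.add_sum_erase Finset.univ (fun p => M p - 1) (Finset.mem_univ l)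
    have h3' : ∑ p, (M p - 1) = ∑ p, M p - Fintype.card κ := by
      rw [Finset.sum_sub_distrib]
      simp
    linarith
  have h4 : M l * Real.exp (1 / 2 - M l) ≤ 1 / 2 := by
    have h5 := Real.add_one_le_exp (-(1 / 2 - M l))
    have h6 : 0 < 1 / 2 + M l := by linarith [hM l]
    have h7 : Real.exp (1 / 2 - M l) * (1 / 2 + M l) ≤ 1 := by
      calc Real.exp (1 / 2 - M l) * (1 / 2 + M l)
          ≤ Real.exp (1 / 2 - M l) * Real.exp (-(1 / 2 - M l)) :=
            mul_le_mul_of_nonneg_left (by linarith) (Real.exp_pos _).le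
        _ = 1 := by rw [← Real.exp_add]; simp
    have h8 := (Real.exp_pos (1 / 2 - M l)).le
    nlinarith [hM l, mul_nonneg h8 (sub_nonneg.2 hl)]
  rw [← Finset.mul_prod_erase _ _ (Finset.mem_univ l)]
  calc M l * ∏ p ∈ Finset.univ.erase l, M p
      ≤ M l * Real.exp (1 - M l + δ) :=
        mul_le_mul_of_nonneg_left (h1.trans (Real.exp_le_exp.2 h2)) (hM l)
    _ = (M l * Real.exp (1 / 2 - M l)) * Real.exp (1 / 2 + δ) := by
        rw [mul_assoc, ← Real.exp_add]
        congr 2
        ring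
    _ ≤ _ := mul_le_mul_of_nonneg_right h4 (Real.exp_pos _).le

lemma exp_lt_two {x : ℝ} (hx : x ≤ 3 / 5) : Real.exp x < 2 := by
  have h1 : Real.exp (3 / 5) ^ 5 < 2 ^ 5 := by
    rw [← Real.exp_nat_mul]
    have : ((5 : ℕ) : ℝ) * (3 / 5) = 3 * 1 := by norm_num
    rw [this]
    have h2 : Real.exp (3 * 1) = Real.exp 1 ^ 3 := by
      rw [← Real.exp_nat_mul]
      norm_num
    rw [h2]
    have h3 := Real.exp_one_lt_d9
    calc Real.exp 1 ^ 3 < 3 ^ 3 := pow_lt_pow_left₀ (by linarith) (Real.exp_pos _).le (by norm_num)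
      _ < 2 ^ 5 := by norm_num
  exact lt_of_le_of_lt (Real.exp_le_exp.2 hx) (lt_of_pow_lt_pow_left₀ 5 (by norm_num) h1)

/-- **Core estimate.** -/
theorem core [Nonempty κ] (U : Matrix ι κ ℝ) (hU : Uᵀ * U = 1) {L : ℝ} (hL0 : 0 ≤ L)
    (hsmall : (8192 * ((Fintype.card κ : ℝ) + 1) ^ 7 * (360000 * (Fintype.card κ : ℝ) ^ 6)) *
      (((Fintype.card ι : ℝ) / (Fintype.card κ : ℝ)) * L) ≤ 1)
    (hv : ((Fintype.card ι : ℝ) / (Fintype.card κ : ℝ)) ^ Fintype.card κ * Real.exp (-L) ≤
      vol U ^ 2) :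
    ∃ (A : Matrix ι κ ℝ) (V : Matrix κ κ ℝ) (j : ι → κ), A * V = U ∧
      vol U ^ 2 ≤ ∏ l, fib j l ∧
      (vol U ^ 2 = ∏ l, fib j l → ∀ i, |A i (j i)| = 1 ∧ ∀ l, l ≠ j i → A i l = 0) := by
  obtain ⟨g⟩ := exists_goodBasis U hU
  have hκ : 0 < Fintype.card κ := Fintype.card_pos
  have hcard : Fintype.card κ ≤ Fintype.card ι := Fintype.card_le_of_injective g.e g.e_inj
  have hι : 0 < Fintype.card ι := lt_of_lt_of_le hκ hcard
  set N : ℝ := (Fintype.card ι : ℝ) with hN
  set k : ℝ := (Fintype.card κ : ℝ) with hk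
  have hk1 : 1 ≤ k := by rw [hk]; exact_mod_cast hκ
  have hk0 : 0 < k := by linarith
  have hkN : k ≤ N := by rw [hN, hk]; exact_mod_cast hcard
  have hN0 : 0 < N := by linarith
  have hr1 : 1 ≤ N / k := by rw [le_div_iff₀ hk0]; linarith
  have hr0 : 0 < N / k := by linarith
  set T : ℝ := (N / k) * L with hT
  have hT0 : 0 ≤ T := by positivity
  have hbig : (1 : ℝ) ≤ (k + 1) ^ 7 * k ^ 6 := by
    have h1 : (1 : ℝ) ≤ (k + 1) ^ 7 := one_le_pow₀ (by linarith)
    have h2 : (1 : ℝ) ≤ k ^ 6 := one_le_pow₀ hk1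
    nlinarith
  have hTsmall : T ≤ 1 / 16 := by
    have h1 : T ≤ ((k + 1) ^ 7 * k ^ 6) * T := by nlinarith
    nlinarith
  have hLT : L ≤ T := by
    rw [hT]
    nlinarith
  have hv0 : 0 ≤ vol U := ENNReal.toReal_nonneg
  have hvpos : 0 < vol U := by
    have h1 : 0 < vol U ^ 2 := lt_of_lt_of_le (by positivity) hv
    refine lt_of_le_of_ne hv0 fun h => ?_
    rw [← h] at h1
    simp at h1
  have hvB := vol_le U hU
  have hB2 : vol U ^ 2 ≤ ballBound U ^ 2 := pow_le_pow_left₀ hv0 hvB 2
  -- row norms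
  have hxi : ∀ i, 3 / 4 ≤ √(xi U i) ∧ √(xi U i) ≤ 5 / 4 := by
    intro i
    have h1 := sqrt_xi_close U hU hκ hι (hv.trans hB2) i
    have h2 : (√(xi U i) - 1) ^ 2 ≤ (1 / 4) ^ 2 := by
      refine h1.trans ?_
      rw [← hN, ← hk, ← hT]
      linarith
    have h3 := abs_le_of_sq_le_sq' h2 (by norm_num)
    constructor
    · linarith [h3.1]
    · linarith [h3.2]
  have hc : ∀ i, k / (2 * N) ≤ rowSq U i := by
    intro i
    have h1 := (hxi i).1
    have h2 : (3 / 4 : ℝ) ^ 2 ≤ xi U i := by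
      rw [← Real.sq_sqrt (xi_nonneg U i)]
      exact pow_le_pow_left₀ (by norm_num) h1 2
    have h3 : rowSq U i = xi U i * (k / N) := by
      rw [xi, ← hN, ← hk]
      field_simp
    rw [h3]
    have h4 : k / (2 * N) = 1 / 2 * (k / N) := by field_simp
    rw [h4]
    exact mul_le_mul_of_nonneg_right (by linarith) (by positivity)
  -- the gap in Ball's inequality
  have hgap : ballBound U - vol U ≤ vol U * L := by
    have h1 : ballBound U ^ 2 ≤ (vol U * Real.exp (L / 2)) ^ 2 := by
      have h2 := ballBound_sq_le U hU hκ hι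
      rw [← hN, ← hk] at h2
      calc ballBound U ^ 2 ≤ (N / k) ^ Fintype.card κ := h2
        _ = ((N / k) ^ Fintype.card κ * Real.exp (-L)) * Real.exp L := by
            rw [mul_assoc, ← Real.exp_add]; simp
        _ ≤ vol U ^ 2 * Real.exp L := mul_le_mul_of_nonneg_right hv (Real.exp_pos _).le
        _ = (vol U * Real.exp (L / 2)) ^ 2 := by
            rw [mul_pow, ← Real.exp_nat_mul]
            congr 2
            push_cast
            ring
    have h3 : ballBound U ≤ vol U * Real.exp (L / 2) :=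
      (pow_le_pow_iff_left₀ (ballBound_pos U).le (by positivity) two_ne_zero).1 h1
    have h4 := exp_half_sub_one_le hL0 (by linarith)
    nlinarith
  -- products of coordinates
  have hprod : ∀ i l m, l ≠ m → g.A i l ^ 2 * |g.A i m| ≤ 1 / (600 * k ^ 3) := by
    intro i l m hlm
    have h1 := g.mixed i (m := m) (l := l) hlm.symm
    rw [← hk] at h1
    have h2 : 0 ≤ g.A i l ^ 4 * g.A i m ^ 2 := by positivity
    have h3 : vol U * (k / (2 * N) * (g.A i l ^ 4 * g.A i m ^ 2)) ≤
        4096 * (k + 1) ^ 7 * (vol U * L) := by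
      calc vol U * (k / (2 * N) * (g.A i l ^ 4 * g.A i m ^ 2))
          ≤ vol U * (rowSq U i * (g.A i l ^ 4 * g.A i m ^ 2)) :=
            mul_le_mul_of_nonneg_left (mul_le_mul_of_nonneg_right (hc i) h2) hv0
        _ ≤ 4096 * (k + 1) ^ 7 * (ballBound U - vol U) := h1
        _ ≤ _ := mul_le_mul_of_nonneg_left hgap (by positivity)
    have h4 : k / (2 * N) * (g.A i l ^ 4 * g.A i m ^ 2) ≤ 4096 * (k + 1) ^ 7 * L := by
      refine le_of_mul_le_mul_left ?_ hvpos
      linarith
    have h5 : g.A i l ^ 4 * g.A i m ^ 2 ≤ 8192 * (k + 1) ^ 7 * T := by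
      have h6 : g.A i l ^ 4 * g.A i m ^ 2 =
          (2 * N / k) * (k / (2 * N) * (g.A i l ^ 4 * g.A i m ^ 2)) := by
        field_simp
      rw [h6]
      calc (2 * N / k) * (k / (2 * N) * (g.A i l ^ 4 * g.A i m ^ 2))
          ≤ (2 * N / k) * (4096 * (k + 1) ^ 7 * L) := mul_le_mul_of_nonneg_left h4 (by positivity)
        _ = 8192 * (k + 1) ^ 7 * T := by rw [hT]; ring
    have h7 : 8192 * (k + 1) ^ 7 * T ≤ 1 / (360000 * k ^ 6) := by
      rw [le_div_iff₀ (by positivity)]
      calc 8192 * (k + 1) ^ 7 * T * (360000 * k ^ 6) =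
            (8192 * (k + 1) ^ 7 * (360000 * k ^ 6)) * T := by ring
        _ ≤ 1 := hsmall
    have h8 : (g.A i l ^ 2 * |g.A i m|) ^ 2 ≤ (1 / (600 * k ^ 3)) ^ 2 := by
      calc (g.A i l ^ 2 * |g.A i m|) ^ 2 = g.A i l ^ 4 * g.A i m ^ 2 := by
            rw [mul_pow, sq_abs]; ring
        _ ≤ 1 / (360000 * k ^ 6) := h5.trans h7
        _ = (1 / (600 * k ^ 3)) ^ 2 := by
            rw [div_pow]; ring
    exact (pow_le_pow_iff_left₀ (by positivity) (by positivity) two_ne_zero).1 h8
  -- sum of the coordinates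
  have hl1 : ∀ i, 3 / 5 ≤ ∑ l, |g.A i l| := by
    intro i
    have h1 := rowSq_triangle g i
    have h2 : ∀ i, √(rowSq U i) = √(xi U i) * √(k / N) := by
      intro i
      rw [← Real.sqrt_mul (xi_nonneg U i)]
      congr 1
      rw [xi, ← hN, ← hk]
      field_simp
    have h3 : 0 < √(k / N) := Real.sqrt_pos.2 (by positivity)
    simp only [h2] at h1
    have h4 : √(xi U i) ≤ ∑ l, |g.A i l| * √(xi U (g.e l)) := by
      refine le_of_mul_le_mul_right ?_ h3
      rw [Finset.sum_mul]
      simpa only [mul_assoc] using h1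
    have h5 : ∑ l, |g.A i l| * √(xi U (g.e l)) ≤ (∑ l, |g.A i l|) * (5 / 4) := by
      rw [Finset.sum_mul]
      exact Finset.sum_le_sum fun l _ => mul_le_mul_of_nonneg_left (hxi _).2 (abs_nonneg _)
    have h6 := (hxi i).1
    linarith
  -- the large coordinate
  have hex : ∀ i, ∃ j, ∀ l, |g.A i l| ≤ |g.A i j| := fun i => Finite.exists_max _
  choose j hj using hex
  have hcardκ : ((Finset.univ : Finset κ).card : ℝ) = k := by rw [hk]; simp
  have hj1 : ∀ i, 1 / (2 * k) ≤ |g.A i (j i)| := by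
    intro i
    have h1 : ∑ l, |g.A i l| ≤ k * |g.A i (j i)| := by
      calc ∑ l, |g.A i l| ≤ ∑ _l : κ, |g.A i (j i)| := Finset.sum_le_sum fun l _ => hj i l
        _ = k * |g.A i (j i)| := by rw [Finset.sum_const, nsmul_eq_mul, hcardκ]
    have h2 := hl1 i
    rw [div_le_iff₀ (by positivity)]
    nlinarith
  have hoff1 : ∀ i m, m ≠ j i → |g.A i m| ≤ 1 / (150 * k) := by
    intro i m hm
    have h1 := hprod i (j i) m (Ne.symm hm)
    have h2 : (1 / (2 * k)) ^ 2 ≤ g.A i (j i) ^ 2 := by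
      rw [← sq_abs (g.A i (j i))]
      exact pow_le_pow_left₀ (by positivity) (hj1 i) 2
    have h3 : (1 / (2 * k)) ^ 2 * |g.A i m| ≤ 1 / (600 * k ^ 3) :=
      (mul_le_mul_of_nonneg_right h2 (abs_nonneg _)).trans h1
    have h4 : |g.A i m| = (4 * k ^ 2) * ((1 / (2 * k)) ^ 2 * |g.A i m|) := by
      field_simp
      ring
    rw [h4]
    calc (4 * k ^ 2) * ((1 / (2 * k)) ^ 2 * |g.A i m|) ≤ (4 * k ^ 2) * (1 / (600 * k ^ 3)) :=
          mul_le_mul_of_nonneg_left h3 (by positivity)
      _ = 1 / (150 * k) := by field_simp; norm_num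
  have hj2 : ∀ i, 1 / 2 ≤ |g.A i (j i)| := by
    intro i
    have h1 := Finset.add_sum_erase Finset.univ (fun l => |g.A i l|) (Finset.mem_univ (j i))
    have h2 : ∑ l ∈ Finset.univ.erase (j i), |g.A i l| ≤ 1 / 150 := by
      calc ∑ l ∈ Finset.univ.erase (j i), |g.A i l|
          ≤ ∑ _l ∈ Finset.univ.erase (j i), 1 / (150 * k) :=
            Finset.sum_le_sum fun l hl => hoff1 i l (Finset.ne_of_mem_erase hl)
        _ = ((Finset.univ.erase (j i)).card : ℝ) * (1 / (150 * k)) := by
            rw [Finset.sum_const, nsmul_eq_mul]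
        _ ≤ k * (1 / (150 * k)) := by
            refine mul_le_mul_of_nonneg_right ?_ (by positivity)
            rw [← hcardκ]
            exact_mod_cast Finset.card_le_card (Finset.erase_subset _ _)
        _ = 1 / 150 := by field_simp
    have h3 := hl1 i
    linarith
  have hoff2 : ∀ i m, m ≠ j i → |g.A i m| ≤ 1 / (150 * k ^ 3) := by
    intro i m hm
    have h1 := hprod i (j i) m (Ne.symm hm)
    have h2 : (1 / 2 : ℝ) ^ 2 ≤ g.A i (j i) ^ 2 := by
      rw [← sq_abs (g.A i (j i))]
      exact pow_le_pow_left₀ (by positivity) (hj2 i) 2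
    have h3 : (1 / 2 : ℝ) ^ 2 * |g.A i m| ≤ 1 / (600 * k ^ 3) :=
      (mul_le_mul_of_nonneg_right h2 (abs_nonneg _)).trans h1
    have h4 : 1 / (600 * k ^ 3) = (1 / 4) * (1 / (150 * k ^ 3)) := by
      field_simp
      norm_num
    rw [h4] at h3
    linarith
  have hη : ∀ i, ∀ l, l ≠ j i → 128 * k ^ 2 * |g.A i l| < 1 := by
    intro i l hl
    have h1 := hoff2 i l hl
    calc 128 * k ^ 2 * |g.A i l| ≤ 128 * k ^ 2 * (1 / (150 * k ^ 3)) :=
          mul_le_mul_of_nonneg_left h1 (by positivity)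
      _ = (128 / 150) * (1 / k) := by field_simp
      _ ≤ (128 / 150) * 1 := by
          refine mul_le_mul_of_nonneg_left ?_ (by norm_num)
          rw [div_le_one hk0]
          exact hk1
      _ < 1 := by norm_num
  -- squares of the small entries
  have hoffsq : ∀ i m, m ≠ j i → g.A i m ^ 2 ≤ 1 / (22500 * k ^ 6) := by
    intro i m hm
    rw [← sq_abs]
    calc |g.A i m| ^ 2 ≤ (1 / (150 * k ^ 3)) ^ 2 :=
          pow_le_pow_left₀ (abs_nonneg _) (hoff2 i m hm) 2
      _ = 1 / (22500 * k ^ 6) := by rw [div_pow]; ring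
  have hAsq : ∀ i l, g.A i l ^ 2 ≤ 1 := by
    intro i l
    rw [← sq_abs]
    exact pow_le_one₀ (abs_nonneg _) (g.A_le i l)
  have hvol := vol_sq_eq hU (show g.A * g.V = U from g.mul_eq)
  -- size of the fibres
  have hfib : ∀ l, N ≤ 4 * k * fib j l := by
    intro l
    by_contra hcon
    push Not at hcon
    set M : κ → ℝ := fun p => (∑ i, g.A i p ^ 2) * (k / N) with hM
    have hM0 : ∀ p, 0 ≤ M p := fun p =>
      mul_nonneg (Finset.sum_nonneg fun _ _ => sq_nonneg _) (by positivity)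
    have hMl : M l ≤ 1 / 2 := by
      have h1 : ∑ i, g.A i l ^ 2 ≤ fib j l + N * (1 / (22500 * k ^ 6)) := by
        calc ∑ i, g.A i l ^ 2 ≤ ∑ i, ((if j i = l then (1 : ℝ) else 0) + 1 / (22500 * k ^ 6)) := by
              refine Finset.sum_le_sum fun i _ => ?_
              by_cases h : j i = l
              · rw [if_pos h]
                have := hAsq i l
                have h2 : 0 ≤ 1 / (22500 * k ^ 6) := by positivity
                linarith
              · rw [if_neg h, zero_add]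
                exact hoffsq i l (Ne.symm h)
          _ = fib j l + N * (1 / (22500 * k ^ 6)) := by
              rw [Finset.sum_add_distrib, Finset.sum_const, nsmul_eq_mul]
              rfl
      have h2 : 1 / (22500 * k ^ 6) ≤ 1 / (4 * k) := by
        rw [div_le_div_iff₀ (by positivity) (by positivity)]
        have h3 : k ≤ k ^ 6 := le_self_pow₀ hk1 (by norm_num)
        nlinarith
      have h4 : fib j l ≤ N / (4 * k) := by
        rw [le_div_iff₀ (by positivity)]
        linarith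
      have h5 : ∑ i, g.A i l ^ 2 ≤ N / (2 * k) := by
        calc ∑ i, g.A i l ^ 2 ≤ N / (4 * k) + N * (1 / (4 * k)) := by
              refine h1.trans (add_le_add h4 ?_)
              exact mul_le_mul_of_nonneg_left h2 hN0.le
          _ = N / (2 * k) := by field_simp; norm_num
      calc M l ≤ N / (2 * k) * (k / N) := mul_le_mul_of_nonneg_right h5 (by positivity)
        _ = 1 / 2 := by field_simp
    have hMsum : ∑ p, M p ≤ Fintype.card κ + 1 / 100 := by
      rw [← hk, hM]
      simp only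
      rw [← Finset.sum_mul, Finset.sum_comm]
      have h1 : ∀ i, ∑ l, g.A i l ^ 2 ≤ 1 + 1 / (22500 * k ^ 5) := by
        intro i
        rw [← Finset.add_sum_erase _ _ (Finset.mem_univ (j i))]
        refine add_le_add (hAsq i _) ?_
        calc ∑ l ∈ Finset.univ.erase (j i), g.A i l ^ 2
            ≤ ∑ _l ∈ Finset.univ.erase (j i), 1 / (22500 * k ^ 6) :=
              Finset.sum_le_sum fun l hl => hoffsq i l (Finset.ne_of_mem_erase hl)
          _ = ((Finset.univ.erase (j i)).card : ℝ) * (1 / (22500 * k ^ 6)) := by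
              rw [Finset.sum_const, nsmul_eq_mul]
          _ ≤ k * (1 / (22500 * k ^ 6)) := by
              refine mul_le_mul_of_nonneg_right ?_ (by positivity)
              rw [← hcardκ]
              exact_mod_cast Finset.card_le_card (Finset.erase_subset _ _)
          _ = 1 / (22500 * k ^ 5) := by field_simp
      have h2 : ∑ i, ∑ l, g.A i l ^ 2 ≤ N * (1 + 1 / (22500 * k ^ 5)) := by
        calc ∑ i, ∑ l, g.A i l ^ 2 ≤ ∑ _i : ι, (1 + 1 / (22500 * k ^ 5)) :=
              Finset.sum_le_sum fun i _ => h1 i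
          _ = N * (1 + 1 / (22500 * k ^ 5)) := by
              rw [Finset.sum_const, nsmul_eq_mul]
              rfl
      calc (∑ i, ∑ l, g.A i l ^ 2) * (k / N) ≤ N * (1 + 1 / (22500 * k ^ 5)) * (k / N) :=
            mul_le_mul_of_nonneg_right h2 (by positivity)
        _ = k + 1 / 22500 * (1 / k ^ 4) := by field_simp
        _ ≤ k + 1 / 100 := by
            have h3 : 1 / k ^ 4 ≤ 1 := by
              rw [div_le_one (by positivity)]
              exact one_le_pow₀ hk1
            linarith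
    have h1 := prod_le_of_small M hM0 hMsum l hMl
    have h2 : vol U ^ 2 ≤ (N / k) ^ Fintype.card κ * ∏ p, M p := by
      rw [hvol]
      have h3 : (volume (openSec g.A)).toReal ^ 2 ≤ 1 := by
        have hcube : openSec g.A ⊆ cube κ := by
          intro y hy p
          have h1 := hy (g.e p)
          have h2 : (g.A *ᵥ y) (g.e p) = y p := by
            simp only [Matrix.mulVec, dotProduct, g.A_e, ite_mul, one_mul, zero_mul,
              Finset.sum_ite_eq, Finset.mem_univ, if_true]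
          rwa [h2] at h1
        have h4 := ENNReal.toReal_mono ENNReal.one_ne_top ((measure_mono hcube).trans
          (volume_cube (κ := κ)).le)
        rw [ENNReal.toReal_one] at h4
        exact pow_le_one₀ ENNReal.toReal_nonneg h4
      have h5 : 0 ≤ ∏ l, ∑ i, g.A i l ^ 2 :=
        Finset.prod_nonneg fun l _ => Finset.sum_nonneg fun _ _ => sq_nonneg _
      have h6 : ∏ p, M p = (∏ l, ∑ i, g.A i l ^ 2) * (k / N) ^ Fintype.card κ := by
        rw [hM, Finset.prod_mul_distrib, Finset.prod_const, Finset.card_univ]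
      rw [h6]
      calc (volume (openSec g.A)).toReal ^ 2 * (g.Aᵀ * g.A).det
          ≤ (volume (openSec g.A)).toReal ^ 2 * ∏ l, ∑ i, g.A i l ^ 2 :=
            mul_le_mul_of_nonneg_left (hadamard g.A) (sq_nonneg _)
        _ ≤ 1 * ∏ l, ∑ i, g.A i l ^ 2 := mul_le_mul_of_nonneg_right h3 h5
        _ = (N / k) ^ Fintype.card κ * ((∏ l, ∑ i, g.A i l ^ 2) * (k / N) ^ Fintype.card κ) := by
            have h7 : (N / k) ^ Fintype.card κ * (k / N) ^ Fintype.card κ = 1 := by
              rw [← mul_pow]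
              have : N / k * (k / N) = 1 := by field_simp
              rw [this, one_pow]
            calc 1 * ∏ l, ∑ i, g.A i l ^ 2 = ((N / k) ^ Fintype.card κ *
                  (k / N) ^ Fintype.card κ) * ∏ l, ∑ i, g.A i l ^ 2 := by rw [h7]
              _ = _ := by ring
    have h3 : Real.exp (-L) ≤ 1 / 2 * Real.exp (1 / 2 + 1 / 100) := by
      have h4 : (N / k) ^ Fintype.card κ * Real.exp (-L) ≤
          (N / k) ^ Fintype.card κ * (1 / 2 * Real.exp (1 / 2 + 1 / 100)) :=
        (hv.trans h2).trans (mul_le_mul_of_nonneg_left h1 (by positivity))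
      exact le_of_mul_le_mul_left h4 (by positivity)
    have h4 : 2 ≤ Real.exp (1 / 2 + 1 / 100 + L) := by
      have h5 : Real.exp (-L) * Real.exp L = 1 := by rw [← Real.exp_add]; simp
      rw [Real.exp_add (1 / 2 + 1 / 100) L]
      have h6 := mul_le_mul_of_nonneg_right h3 (Real.exp_pos L).le
      rw [h5] at h6
      linarith
    have h5 := exp_lt_two (x := 1 / 2 + 1 / 100 + L) (by linarith)
    linarith
  obtain ⟨hle, heq⟩ := local_bound g.A g.A_le j g.e (fun p q => g.A_e p q) hfib hη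
  rw [← hvol] at hle heq
  exact ⟨g.A, g.V, j, g.mul_eq, hle, heq⟩

end Pool.Agent.Lib.MP_589a62_gt
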