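import Pool.Agent.Lib.MP_589a62_gt.BL

set_option autoImplicit false
set_option linter.unusedSectionVars false

/-!
# The volume lost when a row is slightly tilted
-/

open Matrix Finset MeasureTheory Set Real
open scoped ENNReal

namespace Pool.Agent.Lib.MP_589a62_gt

variable {ι κ : Type*} [Fintype ι] [Fintype κ] [DecidableEq κ] [DecidableEq ι]

/-- The open unit cube. -/
def cube (κ : Type*) : Set (κ → ℝ) := {y | ∀ p, |y p| < 1 / 2}

lemma volume_cube : volume (cube κ) = 1 := by
  have : cube κ = Set.pi Set.univ fun _ : κ => Ioo (-(1 / 2) : ℝ) (1 / 2) := by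
    ext y
    simp only [cube, Set.mem_ofPred_eq, Set.mem_pi, Set.mem_univ, true_imp_iff, abs_lt, Set.mem_Ioo]
  rw [this, volume_pi_pi]
  simp only [Real.volume_Ioo]
  norm_num

/-- Interval of length `s` at the end `± 1/2` given by the sign of `c`. -/
noncomputable def endI (c s : ℝ) : Set ℝ :=
  if 0 ≤ c then Ioo (1 / 2 - s) (1 / 2) else Ioo (-(1 / 2)) (-(1 / 2) + s)

lemma volume_endI (c s : ℝ) : volume (endI c s) = ENNReal.ofReal s := by
  unfold endI
  split_ifs
  · rw [Real.volume_Ioo]; congr 1; ring
  · rw [Real.volume_Ioo]; congr 1; ring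

lemma mul_of_mem_endI {c s t : ℝ} (ht : t ∈ endI c s) : |c| * (1 / 2 - s) ≤ c * t := by
  unfold endI at ht
  split_ifs at ht with h
  · rw [abs_of_nonneg h]
    exact mul_le_mul_of_nonneg_left ht.1.le h
  · push Not at h
    rw [abs_of_neg h]
    nlinarith [ht.2]

lemma abs_of_mem_endI {c s t : ℝ} (hs : s ≤ 1 / 2) (ht : t ∈ endI c s) : |t| < 1 / 2 := by
  unfold endI at ht
  rw [abs_lt]
  split_ifs at ht with h
  · exact ⟨by linarith [ht.1], ht.2⟩
  · exact ⟨ht.1, by linarith [ht.2]⟩

lemma measurableSet_endI (c s : ℝ) : MeasurableSet (endI c s) := by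
  unfold endI
  split_ifs
  · exact measurableSet_Ioo
  · exact measurableSet_Ioo

/-- If a row of `A` is `± (1 - a)` at `j` and `b` at `l` with `a ≤ |b| / 4`, the section has volume at
most `1 - |b| / 64`. -/
theorem volume_cut (A : Matrix ι κ ℝ) (hcube : openSec A ⊆ cube κ) (i : ι) {j l : κ} (hjl : j ≠ l)
    (hb : |A i l| ≤ 1) (ha : 1 - |A i j| ≤ |A i l| / 4) :
    volume (openSec A) + ENNReal.ofReal (|A i l| / 64) ≤ 1 := by
  set b := |A i l| with hbdef
  have hb0 : 0 ≤ b := abs_nonneg _
  set P : Set (κ → ℝ) := Set.pi Set.univ (fun p : κ => if p = j then endI (A i j) (b / 8) else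
    if p = l then endI (A i l) (1 / 4) else Ioo (-(1 / 2) : ℝ) (1 / 2)) with hP
  have hPm : MeasurableSet P := by
    refine MeasurableSet.univ_pi fun p => ?_
    split_ifs
    · exact measurableSet_endI _ _
    · exact measurableSet_endI _ _
    · exact measurableSet_Ioo
  have hPv : volume P = ENNReal.ofReal (b / 32) := by
    rw [hP, volume_pi_pi, Finset.prod_eq_mul j l hjl]
    · simp only [if_true, hjl.symm, if_false, volume_endI]
      rw [← ENNReal.ofReal_mul (by positivity)]
      congr 1
      ring
    · intro c _ hc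
      simp only [hc.1, hc.2, if_false, Real.volume_Ioo]
      norm_num
    · intro h; exact absurd (Finset.mem_univ _) h
    · intro h; exact absurd (Finset.mem_univ _) h
  set Z : (κ → ℝ) → ℝ := fun y => ∑ p ∈ (Finset.univ.erase j).erase l, A i p * y p with hZ
  have hZc : Continuous Z := by
    refine continuous_finsetSum _ fun p _ => ?_
    exact continuous_const.mul (continuous_apply p)
  set W : Set (κ → ℝ) := P ∩ {y | 0 ≤ Z y} with hW
  have hWm : MeasurableSet W := hPm.inter (isClosed_le continuous_const hZc).measurableSet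
  set F : (κ → ℝ) → (κ → ℝ) := fun y p => if p = j ∨ p = l then y p else - y p with hF
  have hFmp : MeasurePreserving F volume volume := by
    have := volume_preserving_pi (ι := κ) (α' := fun _ => ℝ) (β' := fun _ => ℝ)
      (f := fun p => if p = j ∨ p = l then (fun t : ℝ => t) else fun t => -t) (by
        intro p
        split_ifs
        · exact MeasurePreserving.id _
        · exact Measure.measurePreserving_neg _)
    have hFe : F = fun a p => (if p = j ∨ p = l then (fun t : ℝ => t) else fun t => -t) (a p) := by
      funext y p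
      simp only [hF]
      split_ifs <;> rfl
    rw [hFe]
    exact this
  have hZF : ∀ y, Z (F y) = - Z y := by
    intro y
    simp only [hZ, hF]
    rw [← Finset.sum_neg_distrib]
    refine Finset.sum_congr rfl fun p hp => ?_
    rw [Finset.mem_erase, Finset.mem_erase] at hp
    simp only [hp.1, hp.2.1, or_self, if_false]
    ring
  have hPF : ∀ y ∈ P, F y ∈ P := by
    intro y hy p _
    have h1 := hy p (Set.mem_univ p)
    simp only at h1 ⊢
    by_cases hp : p = j
    · simp only [hp, if_true, hF, true_or] at h1 ⊢
      exact h1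
    · by_cases hp' : p = l
      · simp only [hp', hjl.symm, if_true, if_false, hF, or_true] at h1 ⊢
        exact h1
      · simp only [hp, hp', if_false, hF, or_self] at h1 ⊢
        exact ⟨by linarith [h1.2], by linarith [h1.1]⟩
  have hcover : P ⊆ W ∪ F ⁻¹' W := by
    intro y hy
    rcases le_total 0 (Z y) with h | h
    · exact Or.inl ⟨hy, h⟩
    · refine Or.inr ⟨hPF y hy, ?_⟩
      change 0 ≤ Z (F y)
      rw [hZF]; linarith
  have hWv : ENNReal.ofReal (b / 64) ≤ volume W := by
    have h1 : volume P ≤ volume W + volume W := by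
      calc volume P ≤ volume (W ∪ F ⁻¹' W) := measure_mono hcover
        _ ≤ volume W + volume (F ⁻¹' W) := measure_union_le _ _
        _ = volume W + volume W := by rw [hFmp.measure_preimage hWm.nullMeasurableSet]
    rw [hPv] at h1
    have h2 : ENNReal.ofReal (b / 32) = ENNReal.ofReal (b / 64) + ENNReal.ofReal (b / 64) := by
      rw [← ENNReal.ofReal_add (by positivity) (by positivity)]
      congr 1; ring
    rw [h2, ← two_mul, ← two_mul] at h1
    exact (ENNReal.mul_le_mul_iff_right (by norm_num) (by norm_num)).1 h1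
  have hWcube : W ⊆ cube κ := by
    rintro y ⟨hy, _⟩ p
    have h1 := hy p (Set.mem_univ p)
    simp only at h1
    by_cases hp : p = j
    · simp only [hp, if_true] at h1 ⊢
      exact abs_of_mem_endI (by linarith) h1
    · by_cases hp' : p = l
      · simp only [hp', hjl.symm, if_true, if_false] at h1 ⊢
        exact abs_of_mem_endI (by norm_num) h1
      · simp only [hp, hp', if_false] at h1
        exact abs_lt.2 h1
  have hdisj : Disjoint (openSec A) W := by
    rw [Set.disjoint_left]
    rintro y hy ⟨hyP, hyZ⟩
    have h1 := hy i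
    have h2 : (A *ᵥ y) i = A i j * y j + A i l * y l + Z y := by
      have h3 : (A *ᵥ y) i = ∑ p, A i p * y p := rfl
      rw [h3, ← Finset.add_sum_erase _ _ (Finset.mem_univ j),
        ← Finset.add_sum_erase _ _ (Finset.mem_erase.2 ⟨hjl.symm, Finset.mem_univ l⟩)]
      ring
    have h4 := hyP j (Set.mem_univ j)
    have h5 := hyP l (Set.mem_univ l)
    simp only [if_true, hjl.symm, if_false] at h4 h5
    have h6 := mul_of_mem_endI h4
    have h7 := mul_of_mem_endI h5
    have h8 : 0 ≤ Z y := hyZ
    have h9 : |A i j| * (1 / 2 - b / 8) ≥ (1 - b / 4) * (1 / 2 - b / 8) :=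
      mul_le_mul_of_nonneg_right (by linarith) (by linarith)
    rw [← hbdef] at h7
    have h10 : 1 / 2 ≤ (A *ᵥ y) i := by
      rw [h2]
      nlinarith
    have := abs_lt.1 h1
    linarith [this.2]
  calc volume (openSec A) + ENNReal.ofReal (b / 64) ≤ volume (openSec A) + volume W :=
        add_le_add_right hWv _
    _ = volume (openSec A ∪ W) := (measure_union hdisj hWm).symm
    _ ≤ volume (cube κ) := measure_mono (Set.union_subset hcube hWcube)
    _ = 1 := volume_cube

end Pool.Agent.Lib.MP_589a62_gt
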