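import Pool.Agent.Lib.MP_589a62_gt.Phi
import Mathlib.MeasureTheory.Constructions.BorelSpace.Basic

set_option autoImplicit false

/-!
# Third differences of `Phi`

`Phi''' ≥ 2π`, in the form of a lower bound for a third difference.
-/

open Real Set Filter Topology MeasureTheory

namespace Pool.Agent.Lib.MP_589a62_gt

lemma measurable_Phi : Measurable Phi := by
  have hout : ∀ t ∉ Ioo (-(1 / 2) : ℝ) (1 / 2), Phi t = Phi 1 := by
    intro t ht
    have h1 : ¬ ∃ s, G s = t := by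
      rintro ⟨s, rfl⟩
      exact ht ⟨lt_G s, G_lt s⟩
    have h2 : ¬ ∃ s, G s = 1 := by
      rintro ⟨s, hs⟩
      have := G_lt s
      rw [hs] at this
      norm_num at this
    rw [Phi, Phi, Function.invFun_neg h1, Function.invFun_neg h2]
  have h : Phi = (Ioo (-(1 / 2) : ℝ) (1 / 2)).piecewise Phi (fun _ => Phi 1) := by
    funext t
    by_cases ht : t ∈ Ioo (-(1 / 2) : ℝ) (1 / 2)
    · rw [Set.piecewise_eq_of_mem _ _ _ ht]
    · rw [Set.piecewise_eq_of_notMem _ _ _ ht, hout t ht]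
  rw [h]
  exact Phi_continuousOn.measurable_piecewise continuousOn_const measurableSet_Ioo

/-- `Phi' = exp (π Phi²)`, minus `π t²`, is convex. -/
lemma convexOn_aux :
    ConvexOn ℝ (Ioo (-(1 / 2) : ℝ) (1 / 2)) (fun t => Real.exp (π * Phi t ^ 2) - π * t ^ 2) := by
  have hd1 : ∀ t ∈ Ioo (-(1 / 2) : ℝ) (1 / 2),
      HasDerivAt (fun t => Real.exp (π * Phi t ^ 2) - π * t ^ 2)
        (2 * π * (Phi t * Real.exp (π * Phi t ^ 2) ^ 2 - t)) t := by
    intro t ht
    have h1 := hasDerivAt_Phi ht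
    have h2 := ((h1.pow 2).const_mul π).exp.sub ((hasDerivAt_pow 2 t).const_mul π)
    refine h2.congr_deriv ?_
    simp only [Pi.pow_apply]
    push_cast
    ring
  have hd2 : ∀ t ∈ Ioo (-(1 / 2) : ℝ) (1 / 2),
      HasDerivAt (fun t => 2 * π * (Phi t * Real.exp (π * Phi t ^ 2) ^ 2 - t))
        (2 * π * (Real.exp (π * Phi t ^ 2) ^ 3 * (1 + 4 * π * Phi t ^ 2) - 1)) t := by
    intro t ht
    have h1 := hasDerivAt_Phi ht
    have h2 := ((h1.mul (((h1.pow 2).const_mul π).exp.pow 2)).sub (hasDerivAt_id t)).const_mul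
      (2 * π)
    refine h2.congr_deriv ?_
    simp only [Pi.pow_apply]
    push_cast
    ring
  refine convexOn_of_hasDerivWithinAt2_nonneg (convex_Ioo _ _)
    (f' := fun t => 2 * π * (Phi t * Real.exp (π * Phi t ^ 2) ^ 2 - t))
    (f'' := fun t => 2 * π * (Real.exp (π * Phi t ^ 2) ^ 3 * (1 + 4 * π * Phi t ^ 2) - 1))
    (fun t ht => (hd1 t ht).continuousAt.continuousWithinAt) ?_ ?_ ?_
  · rw [interior_Ioo]
    exact fun t ht => (hd1 t ht).hasDerivWithinAt
  · rw [interior_Ioo]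
    exact fun t ht => (hd2 t ht).hasDerivWithinAt
  · intro t _
    have h1 : 1 ≤ Real.exp (π * Phi t ^ 2) := Real.one_le_exp (by positivity)
    have h2 : 1 ≤ Real.exp (π * Phi t ^ 2) ^ 3 := one_le_pow₀ h1
    have h3 : 0 ≤ 4 * π * Phi t ^ 2 := by positivity
    have h4 : 0 ≤ Real.exp (π * Phi t ^ 2) ^ 3 * (1 + 4 * π * Phi t ^ 2) - 1 := by nlinarith
    have := Real.pi_pos
    positivity

/-- Second difference of `Phi`. -/
noncomputable def sdiff (x t : ℝ) : ℝ := Phi (t + x) - 2 * Phi t + Phi (t - x)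

/-- The second difference grows at least linearly. -/
lemma sdiff_mono {x s t : ℝ} (hst : s ≤ t) (h1 : -(1 / 2) < s - |x|) (h2 : t + |x| < 1 / 2) :
    2 * π * x ^ 2 * (t - s) ≤ sdiff x t - sdiff x s := by
  have habs := abs_nonneg x
  have hx1 := le_abs_self x
  have hx2 := neg_abs_le x
  have hmem : ∀ u ∈ Icc s t, u + x ∈ Ioo (-(1 / 2) : ℝ) (1 / 2) ∧
      u ∈ Ioo (-(1 / 2) : ℝ) (1 / 2) ∧ u - x ∈ Ioo (-(1 / 2) : ℝ) (1 / 2) := by
    intro u hu
    obtain ⟨hu1, hu2⟩ := hu
    refine ⟨⟨by linarith, by linarith⟩, ⟨by linarith, by linarith⟩, ⟨by linarith, by linarith⟩⟩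
  have hder : ∀ u ∈ Icc s t, HasDerivAt (fun u => sdiff x u - 2 * π * x ^ 2 * u)
      (Real.exp (π * Phi (u + x) ^ 2) - 2 * Real.exp (π * Phi u ^ 2) +
        Real.exp (π * Phi (u - x) ^ 2) - 2 * π * x ^ 2) u := by
    intro u hu
    obtain ⟨ha, hb, hc⟩ := hmem u hu
    have d1 := (hasDerivAt_Phi ha).comp_add_const u x
    have d2 := (hasDerivAt_Phi hb).const_mul 2
    have d3 := (hasDerivAt_Phi hc).comp_sub_const u x
    have d4 := ((d1.sub d2).add d3).sub ((hasDerivAt_id u).const_mul (2 * π * x ^ 2))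
    refine d4.congr_deriv ?_
    ring
  have hmono : MonotoneOn (fun u => sdiff x u - 2 * π * x ^ 2 * u) (Icc s t) := by
    apply monotoneOn_of_hasDerivWithinAt_nonneg (convex_Icc s t)
      (fun u hu => (hder u hu).continuousAt.continuousWithinAt)
      (fun u hu => (hder u (interior_subset hu)).hasDerivWithinAt)
    intro u hu
    obtain ⟨ha, hb, hc⟩ := hmem u (interior_subset hu)
    have hconv := convexOn_aux.2 ha hc (show (0 : ℝ) ≤ 1 / 2 by norm_num)
      (show (0 : ℝ) ≤ 1 / 2 by norm_num) (by norm_num)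
    have e : (1 / 2 : ℝ) • (u + x) + (1 / 2 : ℝ) • (u - x) = u := by
      simp only [smul_eq_mul]; ring
    simp only [e] at hconv
    simp only [smul_eq_mul] at hconv
    nlinarith [hconv]
  have := hmono ⟨le_refl s, hst⟩ ⟨hst, le_refl t⟩ hst
  simp only at this
  linarith

/-- Third difference of `Phi`. -/
lemma third_diff {x w t : ℝ} (h1 : |t| + |w| + |x| < 1 / 2) :
    4 * π * x ^ 2 * |w| ≤ |sdiff x (t + w) - sdiff x (t - w)| := by
  have ht1 := le_abs_self t
  have ht2 := neg_abs_le t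
  rcases le_total 0 w with hw | hw
  · rw [abs_of_nonneg hw] at h1 ⊢
    have := sdiff_mono (x := x) (s := t - w) (t := t + w) (by linarith) (by linarith) (by linarith)
    refine le_trans ?_ (le_abs_self _)
    linarith
  · rw [abs_of_nonpos hw] at h1 ⊢
    have := sdiff_mono (x := x) (s := t + w) (t := t - w) (by linarith) (by linarith) (by linarith)
    refine le_trans ?_ (neg_le_abs _)
    linarith

end Pool.Agent.Lib.MP_589a62_gt
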