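import Pool.Agent.Lib.MP_589a62_gt.BL
import Pool.Agent.Lib.MP_589a62_gt.PhiDiff

set_option autoImplicit false
set_option linter.unusedSectionVars false

/-!
# Consequences of a small defect

Coordinates of the rows of `U` in a basis of rows of maximal determinant.
-/

open Matrix Finset MeasureTheory Set Real
open scoped ENNReal

namespace Pool.Agent.Lib.MP_589a62_gt

variable {ι κ : Type*} [Fintype ι] [Fintype κ] [DecidableEq κ] [DecidableEq ι]

/-- The data of a basis `u_{e l}` of rows of `U` in which all coordinates `A i l` of the rows are at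
most one in absolute value. -/
structure GoodBasis (U : Matrix ι κ ℝ) where
  e : κ → ι
  A : Matrix ι κ ℝ
  hU : Uᵀ * U = 1
  det_ne : (U.submatrix e id).det ≠ 0
  mul_eq : A * U.submatrix e id = U
  A_le : ∀ i l, |A i l| ≤ 1

namespace GoodBasis

variable {U : Matrix ι κ ℝ} (g : GoodBasis U)

/-- The basis matrix. -/
def V : Matrix κ κ ℝ := U.submatrix g.e id

lemma e_inj : Function.Injective g.e := by
  intro l m h
  by_contra hne
  apply g.det_ne
  apply Matrix.det_zero_of_row_eq hne
  funext p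
  simp [Matrix.submatrix_apply, h]

lemma A_e (l m : κ) : g.A (g.e l) m = if l = m then 1 else 0 := by
  have h1 : (g.A.submatrix g.e id) * g.V = g.V := by
    have h0 : (g.A * g.V).submatrix g.e id = U.submatrix g.e id := by
      rw [V, g.mul_eq]
    rw [Matrix.submatrix_mul _ _ _ id _ Function.bijective_id, Matrix.submatrix_id_id] at h0
    exact h0
  have h2 : g.A.submatrix g.e id = 1 := by
    have hu : IsUnit g.V.det := (Ne.isUnit g.det_ne)
    calc g.A.submatrix g.e id = g.A.submatrix g.e id * (g.V * g.V⁻¹) := by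
          rw [Matrix.mul_nonsing_inv _ hu, Matrix.mul_one]
      _ = 1 := by rw [← Matrix.mul_assoc, h1, Matrix.mul_nonsing_inv _ hu]
  have := congrFun (congrFun h2 l) m
  rw [Matrix.submatrix_apply, id, Matrix.one_apply] at this
  exact this

lemma mulVec_eq (x : κ → ℝ) : U *ᵥ x = g.A *ᵥ (g.V *ᵥ x) := by
  rw [Matrix.mulVec_mulVec, V, g.mul_eq]

lemma V_mulVec (x : κ → ℝ) (l : κ) : (g.V *ᵥ x) l = (U *ᵥ x) (g.e l) := rfl

/-- The function which measures the deviation from additivity. -/
noncomputable def E (i : ι) (y : κ → ℝ) : ℝ :=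
  √(rowSq U i) * Phi ((g.A *ᵥ y) i) - ∑ l, g.A i l * (√(rowSq U (g.e l)) * Phi (y l))

lemma measurable_E (i : ι) : Measurable (g.E i) := by
  unfold E
  refine Measurable.sub (measurable_const.mul (measurable_Phi.comp ?_)) ?_
  · exact ((continuous_apply i).comp
      (Continuous.matrix_mulVec continuous_const continuous_id)).measurable
  · refine Finset.measurable_sum _ fun l _ => ?_
    exact measurable_const.mul (measurable_const.mul (measurable_Phi.comp (measurable_pi_apply l)))

lemma E_eq (i : ι) (x : κ → ℝ) : g.E i (g.V *ᵥ x) =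
    (avec U x i - (U *ᵥ tmap U x) i) -
      ∑ l, g.A i l * (avec U x (g.e l) - (U *ᵥ tmap U x) (g.e l)) := by
  have h1 : (U *ᵥ tmap U x) i = ∑ l, g.A i l * (U *ᵥ tmap U x) (g.e l) := by
    conv_lhs => rw [g.mulVec_eq]
    rfl
  simp only [mul_sub, Finset.sum_sub_distrib]
  rw [← h1, E, ← g.mulVec_eq]
  simp only [avec, V_mulVec]
  ring

lemma E_sq_le (i : ι) (x : κ → ℝ) :
    g.E i (g.V *ᵥ x) ^ 2 ≤ ((Fintype.card κ : ℝ) + 1) * defect U x := by
  rw [g.E_eq]
  set D : ι → ℝ := fun j => avec U x j - (U *ᵥ tmap U x) j with hD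
  have hdef : defect U x = ∑ j, D j ^ 2 := rfl
  have hpos : 0 ≤ defect U x := by rw [hdef]; exact Finset.sum_nonneg fun _ _ => sq_nonneg _
  by_cases hi : i ∈ Set.range g.e
  · obtain ⟨m, rfl⟩ := hi
    have h1 : D (g.e m) - ∑ l, g.A (g.e m) l * D (g.e l) = 0 := by
      simp [g.A_e]
    rw [h1]
    simp only [ne_eq, OfNat.ofNat_ne_zero, not_false_eq_true, zero_pow]
    positivity
  · have h1 : D i ^ 2 + ∑ l, D (g.e l) ^ 2 ≤ defect U x := by
      rw [hdef, ← Finset.sum_image (f := fun j => D j ^ 2) (g := g.e) (s := Finset.univ)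
        (fun a _ b _ h => g.e_inj h)]
      have hni : i ∉ Finset.image g.e Finset.univ := by
        intro h
        obtain ⟨l, _, hl⟩ := Finset.mem_image.1 h
        exact hi ⟨l, hl⟩
      rw [← Finset.sum_insert (f := fun j => D j ^ 2) hni]
      exact Finset.sum_le_sum_of_subset_of_nonneg (Finset.subset_univ _)
        fun _ _ _ => sq_nonneg _
    have h2 : (∑ l, g.A i l * D (g.e l)) ^ 2 ≤ (Fintype.card κ : ℝ) * ∑ l, D (g.e l) ^ 2 := by
      refine (Finset.sum_mul_sq_le_sq_mul_sq _ _ _).trans ?_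
      refine mul_le_mul_of_nonneg_right ?_ (Finset.sum_nonneg fun _ _ => sq_nonneg _)
      calc ∑ l, g.A i l ^ 2 ≤ ∑ _l : κ, (1 : ℝ) := by
            refine Finset.sum_le_sum fun l _ => ?_
            have := g.A_le i l
            rw [← sq_abs]
            nlinarith [abs_nonneg (g.A i l)]
        _ = Fintype.card κ := by simp
    set a := D i with ha
    set b := ∑ l, g.A i l * D (g.e l) with hb
    set S := ∑ l, D (g.e l) ^ 2 with hS
    set K := (Fintype.card κ : ℝ) with hK
    have hK0 : 0 ≤ K := by positivity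
    have hS0 : 0 ≤ S := Finset.sum_nonneg fun _ _ => sq_nonneg _
    have h3 : (a - b) ^ 2 ≤ (K + 1) * (a ^ 2 + S) := by
      rcases hK0.lt_or_eq with hKp | hKz
      · have h4 : 0 ≤ (K * a + b) ^ 2 := sq_nonneg _
        have h5 : K * (a - b) ^ 2 ≤ K * ((K + 1) * (a ^ 2 + S)) := by nlinarith
        exact le_of_mul_le_mul_left h5 hKp
      · rw [← hKz] at h2 ⊢
        have : b = 0 := by nlinarith
        rw [this]
        nlinarith
    refine h3.trans ?_
    exact mul_le_mul_of_nonneg_left h1 (by positivity)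

lemma preimage_eq : (fun x : κ → ℝ => g.V *ᵥ x) ⁻¹' openSec g.A = openSec U := by
  ext x
  simp only [Set.mem_preimage, openSec, Set.mem_ofPred_eq, ← g.mulVec_eq]

lemma V_det_ne : g.V.det ≠ 0 := g.det_ne

/-- Change of variables `y = V x`. -/
lemma lintegral_comp {F : (κ → ℝ) → ℝ≥0∞} (hF : Measurable F) :
    ∫⁻ y in openSec g.A, F y =
      ENNReal.ofReal |g.V.det| * ∫⁻ x in openSec U, F (g.V *ᵥ x) := by
  have hmap := Real.map_matrix_volume_pi_eq_smul_volume_pi g.V_det_ne
  have hm : Measurable (fun x : κ → ℝ => g.V *ᵥ x) :=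
    (Continuous.matrix_mulVec continuous_const continuous_id).measurable
  have hmeas : MeasurableSet (openSec g.A) := (isOpen_openSec g.A).measurableSet
  have h1 : ∫⁻ x in openSec U, F (g.V *ᵥ x) =
      ∫⁻ y in openSec g.A, F y ∂(Measure.map (fun x : κ → ℝ => g.V *ᵥ x) volume) := by
    rw [setLIntegral_map hmeas hF hm, g.preimage_eq]
  have h2 : (Measure.map (fun x : κ → ℝ => g.V *ᵥ x) volume) =
      ENNReal.ofReal |(g.V.det)⁻¹| • (volume : Measure (κ → ℝ)) := hmap
  rw [h1, h2, Measure.restrict_smul, lintegral_smul_measure, smul_eq_mul, ← mul_assoc,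
    ← ENNReal.ofReal_mul (abs_nonneg _), ← abs_mul, mul_inv_cancel₀ g.V_det_ne, abs_one,
    ENNReal.ofReal_one, one_mul]

lemma volume_eq : volume (openSec g.A) = ENNReal.ofReal |g.V.det| * volume (openSec U) := by
  have := g.lintegral_comp (F := fun _ => 1) measurable_const
  simpa using this

end GoodBasis

end Pool.Agent.Lib.MP_589a62_gt
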