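import Pool.Agent.Lib.MP_589a62_gt.Mixed

set_option autoImplicit false
set_option linter.unusedSectionVars false

/-!
# The entropy estimate
-/

open Matrix Finset MeasureTheory Set Real
open scoped ENNReal

namespace Pool.Agent.Lib.MP_589a62_gt

variable {ι κ : Type*} [Fintype ι] [Fintype κ] [DecidableEq κ] [DecidableEq ι]

lemma sum_rowSq (U : Matrix ι κ ℝ) (hU : Uᵀ * U = 1) : ∑ i, rowSq U i = Fintype.card κ := by
  unfold rowSq
  rw [Finset.sum_comm]
  have : ∀ l, ∑ i, U i l ^ 2 = 1 := by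
    intro l
    have := congrFun (congrFun hU l) l
    simp only [Matrix.mul_apply, Matrix.transpose_apply, Matrix.one_apply_eq] at this
    rw [← this]
    exact Finset.sum_congr rfl fun i _ => by ring
  simp [this]

lemma sqrt_ineq {x : ℝ} (hx : 0 ≤ x) : (√x - 1) ^ 2 ≤ x * Real.log x - x + 1 := by
  rcases hx.lt_or_eq with h | h
  · set s := √x with hs
    have hs0 : 0 < s := Real.sqrt_pos.2 h
    have hx2 : x = s ^ 2 := (Real.sq_sqrt hx).symm
    have h1 : 1 - 1 / s ≤ Real.log s := by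
      have := Real.one_sub_inv_le_log_of_pos hs0
      rwa [one_div]
    rw [hx2, Real.log_pow]
    push_cast
    have h2 : s ^ 2 * (1 - 1 / s) ≤ s ^ 2 * Real.log s := mul_le_mul_of_nonneg_left h1 (by positivity)
    have h3 : s ^ 2 * (1 - 1 / s) = s ^ 2 - s := by
      field_simp
    nlinarith
  · rw [← h]; simp

/-- The normalised squared row norm. -/
noncomputable def xi (U : Matrix ι κ ℝ) (i : ι) : ℝ :=
  rowSq U i * ((Fintype.card ι : ℝ) / (Fintype.card κ : ℝ))

lemma xi_nonneg (U : Matrix ι κ ℝ) (i : ι) : 0 ≤ xi U i :=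
  mul_nonneg (rowSq_nonneg U i) (by positivity)

lemma entropy_eq (U : Matrix ι κ ℝ) (hU : Uᵀ * U = 1) (hκ : 0 < Fintype.card κ)
    (hι : 0 < Fintype.card ι) :
    ∑ i, (xi U i * Real.log (xi U i) - xi U i + 1) =
      ((Fintype.card ι : ℝ) / (Fintype.card κ : ℝ)) *
        (Fintype.card κ * Real.log ((Fintype.card ι : ℝ) / (Fintype.card κ : ℝ)) -
          2 * Real.log (ballBound U)) := by
  set N : ℝ := (Fintype.card ι : ℝ) with hN
  set k : ℝ := (Fintype.card κ : ℝ) with hk
  have hN0 : 0 < N := by rw [hN]; exact_mod_cast hι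
  have hk0 : 0 < k := by rw [hk]; exact_mod_cast hκ
  have hr0 : 0 < N / k := by positivity
  have h1 : Real.log (ballBound U) = ∑ i, -(rowSq U i * Real.log (rowSq U i) / 2) := by
    unfold ballBound
    rw [Real.log_prod]
    · refine Finset.sum_congr rfl fun i _ => ?_
      rcases (rowSq_nonneg U i).lt_or_eq with h | h
      · rw [Real.log_rpow h]; ring
      · rw [← h]; simp
    · intro i _
      rcases (rowSq_nonneg U i).lt_or_eq with h | h
      · exact (Real.rpow_pos_of_pos h _).ne'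
      · rw [← h]; simp
  have h2 : ∀ i, xi U i * Real.log (xi U i) =
      (N / k) * (rowSq U i * Real.log (rowSq U i) + rowSq U i * Real.log (N / k)) := by
    intro i
    rcases (rowSq_nonneg U i).lt_or_eq with h | h
    · rw [xi, Real.log_mul h.ne' hr0.ne']; ring
    · rw [xi, ← h]; simp
  have h3 : ∑ i, xi U i = N := by
    unfold xi
    rw [← Finset.sum_mul, sum_rowSq U hU, ← hk, ← hN]
    field_simp
  rw [Finset.sum_add_distrib, Finset.sum_sub_distrib, h3]
  simp only [h2]
  rw [← Finset.mul_sum, Finset.sum_add_distrib, ← Finset.sum_mul, sum_rowSq U hU, h1,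
    Finset.sum_neg_distrib, ← Finset.sum_div]
  simp only [Finset.sum_const, Finset.card_univ, nsmul_eq_mul, mul_one]
  rw [← hk, ← hN]
  ring

lemma ballBound_sq_le (U : Matrix ι κ ℝ) (hU : Uᵀ * U = 1) (hκ : 0 < Fintype.card κ)
    (hι : 0 < Fintype.card ι) :
    ballBound U ^ 2 ≤ ((Fintype.card ι : ℝ) / (Fintype.card κ : ℝ)) ^ Fintype.card κ := by
  have hN0 : (0 : ℝ) < Fintype.card ι := by exact_mod_cast hι
  have hk0 : (0 : ℝ) < Fintype.card κ := by exact_mod_cast hκ
  have hr0 : 0 < (Fintype.card ι : ℝ) / (Fintype.card κ : ℝ) := by positivity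
  have h1 := entropy_eq U hU hκ hι
  have h2 : 0 ≤ ∑ i, (xi U i * Real.log (xi U i) - xi U i + 1) :=
    Finset.sum_nonneg fun i _ => (sq_nonneg _).trans (sqrt_ineq (xi_nonneg U i))
  rw [h1] at h2
  have h3 := nonneg_of_mul_nonneg_right h2 hr0
  have h4 : Real.log (ballBound U ^ 2) ≤
      Real.log (((Fintype.card ι : ℝ) / (Fintype.card κ : ℝ)) ^ Fintype.card κ) := by
    rw [Real.log_pow, Real.log_pow]
    push_cast
    linarith
  exact (Real.log_le_log_iff (pow_pos (ballBound_pos U) 2) (pow_pos hr0 _)).1 h4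

lemma sqrt_xi_close (U : Matrix ι κ ℝ) (hU : Uᵀ * U = 1) (hκ : 0 < Fintype.card κ)
    (hι : 0 < Fintype.card ι) {L : ℝ}
    (hL : ((Fintype.card ι : ℝ) / (Fintype.card κ : ℝ)) ^ Fintype.card κ * Real.exp (-L) ≤
      ballBound U ^ 2) (i : ι) :
    (√(xi U i) - 1) ^ 2 ≤ ((Fintype.card ι : ℝ) / (Fintype.card κ : ℝ)) * L := by
  have hN0 : (0 : ℝ) < Fintype.card ι := by exact_mod_cast hι
  have hk0 : (0 : ℝ) < Fintype.card κ := by exact_mod_cast hκ
  have hr0 : 0 < (Fintype.card ι : ℝ) / (Fintype.card κ : ℝ) := by positivity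
  have h1 := entropy_eq U hU hκ hι
  have h2 := Real.log_le_log (by positivity) hL
  rw [Real.log_mul (by positivity) (Real.exp_pos _).ne', Real.log_exp, Real.log_pow,
    Real.log_pow] at h2
  push_cast at h2
  calc (√(xi U i) - 1) ^ 2 ≤ xi U i * Real.log (xi U i) - xi U i + 1 := sqrt_ineq (xi_nonneg U i)
    _ ≤ ∑ i, (xi U i * Real.log (xi U i) - xi U i + 1) :=
        Finset.single_le_sum (f := fun i => xi U i * Real.log (xi U i) - xi U i + 1)
          (fun i _ => (sq_nonneg _).trans (sqrt_ineq (xi_nonneg U i))) (Finset.mem_univ i)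
    _ ≤ _ := by
        rw [h1]
        refine mul_le_mul_of_nonneg_left ?_ hr0.le
        linarith

end Pool.Agent.Lib.MP_589a62_gt
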