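import Pool.Agent.Lib.MP_589a62_gt.Core
import Pool.Agent.Lib.MP_589a62_gt.Comb

set_option autoImplicit false
set_option linter.unusedSectionVars false

/-!
# The theorem for matrices
-/

open Matrix Finset MeasureTheory Set Real
open scoped ENNReal

namespace Pool.Agent.Lib.MP_589a62_gt

/-- The squared maximal volume. -/
noncomputable def maxSq (n k : ℕ) : ℝ := ((n / k : ℕ) : ℝ) ^ (k - n % k) * (((n / k : ℕ) : ℝ) + 1) ^ (n % k)

lemma threshold (k n : ℕ) (hk : 0 < k) (hn : 2 ^ 38 * k ^ 15 ≤ n) :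
    ((n : ℝ) / k) ^ k * Real.exp (-((k : ℝ) ^ 3 / (2 * (n : ℝ) ^ 2))) ≤ maxSq n k := by
  have hk0 : (0 : ℝ) < k := by exact_mod_cast hk
  have hk1 : (1 : ℝ) ≤ k := by exact_mod_cast hk
  have hkn : 2 * k ≤ n := by
    have h1 : k ≤ k ^ 15 := Nat.le_self_pow (by norm_num) k
    have h2 : 2 * k ≤ 2 ^ 38 * k ^ 15 := by
      calc 2 * k ≤ 2 ^ 38 * k := Nat.mul_le_mul_right _ (by norm_num)
        _ ≤ 2 ^ 38 * k ^ 15 := Nat.mul_le_mul_left _ h1
    omega
  set q := n / k with hq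
  set r := n % k with hr
  have hqr : n = k * q + r := (Nat.div_add_mod n k).symm
  have hrk : r < k := Nat.mod_lt _ hk
  have hq2 : 2 ≤ q := by
    rw [hq, Nat.le_div_iff_mul_le hk]
    linarith
  have hq0 : (0 : ℝ) < q := by
    have : 0 < q := by omega
    exact_mod_cast this
  have hn0 : (0 : ℝ) < n := by
    have : 0 < n := by omega
    exact_mod_cast this
  have hnR : (n : ℝ) = k * q + r := by exact_mod_cast hqr
  have hrR : (r : ℝ) ≤ k := by exact_mod_cast hrk.le
  have hr0 : (0 : ℝ) ≤ r := by positivity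
  set x : ℝ := (n : ℝ) / k with hx
  have hx0 : 0 < x := by positivity
  have hxq : x = q + r / k := by
    rw [hx, hnR]; field_simp
  have hx1 : x ≤ q * Real.exp (x / q - 1) := by
    have := Real.add_one_le_exp (x / q - 1)
    calc x = q * (x / q - 1 + 1) := by field_simp; ring
      _ ≤ _ := mul_le_mul_of_nonneg_left this hq0.le
  have hx2 : x ≤ (q + 1) * Real.exp (x / (q + 1) - 1) := by
    have := Real.add_one_le_exp (x / (q + 1) - 1)
    calc x = (q + 1) * (x / (q + 1) - 1 + 1) := by field_simp; ring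
      _ ≤ _ := mul_le_mul_of_nonneg_left this (by positivity)
  have hsplit : x ^ k = x ^ (k - r) * x ^ r := by
    rw [← pow_add]; congr 1; omega
  have hkr : ((k - r : ℕ) : ℝ) = k - r := by
    rw [Nat.cast_sub hrk.le]
  have hbound : x ^ k ≤ ((q : ℝ) ^ (k - r) * ((q : ℝ) + 1) ^ r) *
      Real.exp ((k - r) * (x / q - 1) + r * (x / (q + 1) - 1)) := by
    rw [hsplit]
    calc x ^ (k - r) * x ^ r ≤ (q * Real.exp (x / q - 1)) ^ (k - r) *
          ((q + 1) * Real.exp (x / (q + 1) - 1)) ^ r :=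
          mul_le_mul (pow_le_pow_left₀ hx0.le hx1 _) (pow_le_pow_left₀ hx0.le hx2 _)
            (by positivity) (by positivity)
      _ = _ := by
          rw [mul_pow, mul_pow, Real.exp_add, ← Real.exp_nat_mul, ← Real.exp_nat_mul, hkr]
          ring
  have hexp : ((k : ℝ) - r) * (x / q - 1) + r * (x / (q + 1) - 1) ≤
      (k : ℝ) ^ 3 / (2 * (n : ℝ) ^ 2) := by
    have e1 : ((k : ℝ) - r) * (x / q - 1) + r * (x / (q + 1) - 1) =
        (r * (k - r)) / (k * (q * (q + 1))) := by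
      rw [hxq]
      field_simp
      ring
    rw [e1, div_le_div_iff₀ (by positivity) (by positivity)]
    have h1 : (r : ℝ) * (k - r) ≤ k ^ 2 / 4 := by nlinarith [sq_nonneg ((k : ℝ) - 2 * r)]
    have h2 : (n : ℝ) ^ 2 ≤ k ^ 2 * (2 * (q * (q + 1))) := by
      have h3 : (n : ℝ) ≤ k * (q + 1) := by nlinarith
      have h4 : (n : ℝ) ≤ k * (2 * q) := by
        have h5 : (1 : ℝ) ≤ q := by
          have : 1 ≤ q := by omega
          exact_mod_cast this
        nlinarith
      calc (n : ℝ) ^ 2 = n * n := sq _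
        _ ≤ (k * (q + 1)) * (k * (2 * q)) := mul_le_mul h3 h4 hn0.le (by positivity)
        _ = k ^ 2 * (2 * (q * (q + 1))) := by ring
    have h6 : 0 ≤ (r : ℝ) * (k - r) := mul_nonneg hr0 (by linarith)
    calc (r : ℝ) * (k - r) * (2 * (n : ℝ) ^ 2) ≤ (k ^ 2 / 4) * (2 * (k ^ 2 * (2 * (q * (q + 1))))) :=
          mul_le_mul h1 (mul_le_mul_of_nonneg_left h2 (by norm_num)) (by positivity) (by positivity)
      _ = (k : ℝ) ^ 3 * (k * (q * (q + 1))) := by ring
  rw [maxSq, ← hq, ← hr]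
  calc x ^ k * Real.exp (-((k : ℝ) ^ 3 / (2 * (n : ℝ) ^ 2)))
      ≤ (((q : ℝ) ^ (k - r) * ((q : ℝ) + 1) ^ r) *
        Real.exp ((k - r) * (x / q - 1) + r * (x / (q + 1) - 1))) *
        Real.exp (-((k : ℝ) ^ 3 / (2 * (n : ℝ) ^ 2))) :=
        mul_le_mul_of_nonneg_right hbound (Real.exp_pos _).le
    _ = ((q : ℝ) ^ (k - r) * ((q : ℝ) + 1) ^ r) *
        Real.exp ((k - r) * (x / q - 1) + r * (x / (q + 1) - 1) -
          (k : ℝ) ^ 3 / (2 * (n : ℝ) ^ 2)) := by
        rw [mul_assoc, ← Real.exp_add]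
        rfl
    _ ≤ ((q : ℝ) ^ (k - r) * ((q : ℝ) + 1) ^ r) * 1 := by
        refine mul_le_mul_of_nonneg_left ?_ (by positivity)
        rw [Real.exp_le_one_iff]
        linarith
    _ = _ := mul_one _

lemma fib_eq_card {ι κ : Type*} [Fintype ι] [DecidableEq κ] (j : ι → κ) (l : κ) :
    fib j l = (((Finset.univ.filter fun i => j i = l).card : ℕ) : ℝ) := by
  rw [fib, Finset.sum_boole]

/-- The upper bound and the structure of the maximisers, for matrices. -/
theorem matrix_main (k n : ℕ) (hk : 0 < k) (hn : 2 ^ 38 * k ^ 15 ≤ n)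
    (U : Matrix (Fin n) (Fin k) ℝ) (hU : Uᵀ * U = 1) :
    vol U ^ 2 ≤ maxSq n k ∧
    (vol U ^ 2 = maxSq n k → ∃ (A : Matrix (Fin n) (Fin k) ℝ) (V : Matrix (Fin k) (Fin k) ℝ)
      (j : Fin n → Fin k), A * V = U ∧ (∀ i, |A i (j i)| = 1 ∧ ∀ l, l ≠ j i → A i l = 0) ∧
      ∀ l, (Finset.univ.filter fun i => j i = l).card = n / k ∨
        (Finset.univ.filter fun i => j i = l).card = n / k + 1) := by
  by_cases hlt : vol U ^ 2 < maxSq n k
  · exact ⟨hlt.le, fun h => absurd h hlt.ne⟩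
  push Not at hlt
  have : Nonempty (Fin k) := ⟨⟨0, hk⟩⟩
  have hk1 : (1 : ℝ) ≤ k := by exact_mod_cast hk
  have hk0 : (0 : ℝ) < k := by linarith
  have hnR : (2 : ℝ) ^ 38 * (k : ℝ) ^ 15 ≤ n := by exact_mod_cast hn
  have hn0 : (0 : ℝ) < n := lt_of_lt_of_le (by positivity) hnR
  have hthr := threshold k n hk hn
  have hcardι : Fintype.card (Fin n) = n := Fintype.card_fin n
  have hcardκ : Fintype.card (Fin k) = k := Fintype.card_fin k
  have hsmall : (8192 * ((Fintype.card (Fin k) : ℝ) + 1) ^ 7 *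
      (360000 * (Fintype.card (Fin k) : ℝ) ^ 6)) *
      (((Fintype.card (Fin n) : ℝ) / (Fintype.card (Fin k) : ℝ)) *
        ((k : ℝ) ^ 3 / (2 * (n : ℝ) ^ 2))) ≤ 1 := by
    rw [hcardι, hcardκ]
    have h1 : ((k : ℝ) + 1) ^ 7 ≤ (2 * k) ^ 7 := pow_le_pow_left₀ (by positivity) (by linarith) 7
    have h2 : (8192 * ((k : ℝ) + 1) ^ 7 * (360000 * (k : ℝ) ^ 6)) *
        (((n : ℝ) / k) * ((k : ℝ) ^ 3 / (2 * (n : ℝ) ^ 2))) =
        (1474560000 * ((k : ℝ) + 1) ^ 7 * k ^ 8) / n := by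
      field_simp
      ring
    rw [h2, div_le_one hn0]
    calc 1474560000 * ((k : ℝ) + 1) ^ 7 * k ^ 8 ≤ 1474560000 * (2 * k) ^ 7 * k ^ 8 := by
          refine mul_le_mul_of_nonneg_right ?_ (by positivity)
          exact mul_le_mul_of_nonneg_left h1 (by norm_num)
      _ = 188743680000 * (k : ℝ) ^ 15 := by ring
      _ ≤ 2 ^ 38 * (k : ℝ) ^ 15 := mul_le_mul_of_nonneg_right (by norm_num) (by positivity)
      _ ≤ n := hnR
  obtain ⟨A, V, j, hAV, hle, heq⟩ := core U hU (L := (k : ℝ) ^ 3 / (2 * (n : ℝ) ^ 2))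
    (by positivity) hsmall (by rw [hcardι, hcardκ]; exact hthr.trans hlt)
  have hq1 : 1 ≤ n / k := by
    rw [Nat.one_le_div_iff hk]
    have h1 : k ≤ k ^ 15 := Nat.le_self_pow (by norm_num) k
    have h2 : k ≤ 2 ^ 38 * k ^ 15 := by
      calc k ≤ k ^ 15 := h1
        _ ≤ 2 ^ 38 * k ^ 15 := Nat.le_mul_of_pos_left _ (by norm_num)
    omega
  have hsum : ∑ l, (Finset.univ.filter fun i => j i = l).card =
      Fintype.card (Fin k) * (n / k) + n % k := by
    rw [hcardκ, Nat.div_add_mod]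
    have := Finset.card_eq_sum_card_fiberwise (f := j) (s := Finset.univ) (t := Finset.univ)
      (fun _ _ => Finset.mem_coe.2 (Finset.mem_univ _))
    rw [Finset.card_univ, hcardι] at this
    exact this.symm
  obtain ⟨hle2, heq2⟩ := prod_le_max (κ := Fin k) (fun l => (Finset.univ.filter fun i => j i = l).card)
    (n / k) (n % k) hq1 (by rw [hcardκ]; exact (Nat.mod_lt _ hk).le) hsum
  rw [hcardκ] at hle2 heq2
  have hprod : ∏ l, fib j l = ∏ l, (((Finset.univ.filter fun i => j i = l).card : ℕ) : ℝ) :=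
    Finset.prod_congr rfl fun l _ => fib_eq_card j l
  rw [hprod] at hle heq
  refine ⟨hle.trans hle2, fun h => ?_⟩
  have h1 : ∏ l, (((Finset.univ.filter fun i => j i = l).card : ℕ) : ℝ) = maxSq n k :=
    le_antisymm hle2 (h ▸ hle)
  exact ⟨A, V, j, hAV, heq (h.trans h1.symm), heq2 h1⟩

/-- The volume of a product of diagonals. -/
theorem vol_sq_product {ι κ : Type*} [Fintype ι] [Fintype κ] [DecidableEq κ] [DecidableEq ι]
    (U A : Matrix ι κ ℝ) (V : Matrix κ κ ℝ) (hU : Uᵀ * U = 1) (hAV : A * V = U) (j : ι → κ)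
    (hA : ∀ i, |A i (j i)| = 1 ∧ ∀ l, l ≠ j i → A i l = 0) (hj : Function.Surjective j) :
    vol U ^ 2 = ∏ l, fib j l := by
  rw [vol_sq_eq hU hAV]
  have h1 : openSec A = cube κ := by
    have h2 : ∀ (y : κ → ℝ) (i : ι), |(A *ᵥ y) i| = |y (j i)| := by
      intro y i
      have h3 : (A *ᵥ y) i = A i (j i) * y (j i) := by
        simp only [Matrix.mulVec, dotProduct]
        refine Finset.sum_eq_single_of_mem (j i) (Finset.mem_univ _) fun l _ hl => ?_
        rw [(hA i).2 l hl, zero_mul]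
      rw [h3, abs_mul, (hA i).1, one_mul]
    ext y
    constructor
    · intro hy l
      obtain ⟨i, rfl⟩ := hj l
      rw [← h2]
      exact hy i
    · intro hy i
      rw [h2]
      exact hy _
  have h4 : Aᵀ * A = diagonal (fun l => fib j l) := by
    ext l m
    rw [Matrix.mul_apply, Matrix.diagonal_apply]
    simp only [Matrix.transpose_apply]
    split_ifs with hlm
    · subst hlm
      rw [fib]
      refine Finset.sum_congr rfl fun i _ => ?_
      by_cases h : j i = l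
      · rw [if_pos h, ← h, ← abs_mul_abs_self, (hA i).1, one_mul]
      · rw [if_neg h, (hA i).2 l (Ne.symm h), zero_mul]
    · refine Finset.sum_eq_zero fun i _ => ?_
      by_cases h : l = j i
      · rw [(hA i).2 m (fun h' => hlm (h.trans h'.symm)), mul_zero]
      · rw [(hA i).2 l h, zero_mul]
  rw [h1, h4, volume_cube, Matrix.det_diagonal]
  simp

end Pool.Agent.Lib.MP_589a62_gt
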