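import Pool.Agent.Lib.MP_589a62_gt.Threshold
import Mathlib.Geometry.Euclidean.Volume.Measure
import Mathlib.Analysis.Convex.Measure
import Mathlib.Data.Int.CardIntervalMod

set_option autoImplicit false
set_option linter.unusedSectionVars false

/-!
# From subspaces to matrices
-/

open Matrix Finset MeasureTheory Set Real
open scoped ENNReal

namespace Pool.Agent.Lib.MP_589a62_gt

variable {ι κ : Type*} [Fintype ι] [Fintype κ] [DecidableEq κ] [DecidableEq ι]

/-- The closed section. -/
def closedSec (U : Matrix ι κ ℝ) : Set (κ → ℝ) := {x | ∀ i, |(U *ᵥ x) i| ≤ 1 / 2}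

lemma convex_openSec (U : Matrix ι κ ℝ) : Convex ℝ (openSec U) := by
  intro x hx y hy a b ha hb hab i
  have h1 := hx i
  have h2 := hy i
  rw [Matrix.mulVec_add, Matrix.mulVec_smul, Matrix.mulVec_smul]
  simp only [Pi.add_apply, Pi.smul_apply, smul_eq_mul]
  calc |a * (U *ᵥ x) i + b * (U *ᵥ y) i| ≤ |a * (U *ᵥ x) i| + |b * (U *ᵥ y) i| := abs_add_le _ _
    _ = a * |(U *ᵥ x) i| + b * |(U *ᵥ y) i| := by
        rw [abs_mul, abs_mul, abs_of_nonneg ha, abs_of_nonneg hb]
    _ < 1 / 2 := by
        rcases ha.lt_or_eq with h | h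
        · nlinarith
        · have : b = 1 := by linarith
          rw [← h, this]
          linarith

lemma closedSec_subset (U : Matrix ι κ ℝ) : closedSec U ⊆ closure (openSec U) := by
  intro x hx
  rw [Metric.mem_closure_iff]
  intro ε hε
  set δ : ℝ := ε / (2 * (‖x‖ + ε)) with hδ
  have hx0 : 0 ≤ ‖x‖ := norm_nonneg x
  have hδ0 : 0 < δ := by positivity
  have hδ1 : δ ≤ 1 / 2 := by
    rw [hδ, div_le_div_iff₀ (by positivity) (by norm_num)]
    nlinarith
  refine ⟨(1 - δ) • x, ?_, ?_⟩
  · intro i
    have h1 := hx i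
    rw [Matrix.mulVec_smul]
    simp only [Pi.smul_apply, smul_eq_mul]
    rw [abs_mul, abs_of_pos (by linarith)]
    nlinarith
  · rw [dist_eq_norm]
    have : x - (1 - δ) • x = δ • x := by
      rw [sub_smul, one_smul]; abel
    rw [this, norm_smul, Real.norm_eq_abs, abs_of_pos hδ0, hδ, div_mul_eq_mul_div,
      div_lt_iff₀ (by positivity)]
    nlinarith

lemma volume_closedSec (U : Matrix ι κ ℝ) : volume (closedSec U) = volume (openSec U) := by
  apply le_antisymm
  · calc volume (closedSec U) ≤ volume (closure (openSec U)) := measure_mono (closedSec_subset U)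
      _ ≤ volume (openSec U ∪ frontier (openSec U)) := by
          refine measure_mono fun x hx => ?_
          by_cases h : x ∈ openSec U
          · exact Or.inl h
          · refine Or.inr ⟨hx, ?_⟩
            rw [(isOpen_openSec U).interior_eq]
            exact h
      _ ≤ volume (openSec U) + volume (frontier (openSec U)) := measure_union_le _ _
      _ = volume (openSec U) := by
          rw [(convex_openSec U).addHaar_frontier volume, add_zero]
  · exact measure_mono fun x hx i => (hx i).le

/-- The closed unit cube. -/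
def unitCube (n : ℕ) : Set (EuclideanSpace ℝ (Fin n)) := {x | ∀ i, |x i| ≤ 1 / 2}

/-- The matrix of a linear isometry. -/
noncomputable def matOf {n k : ℕ} (φ : EuclideanSpace ℝ (Fin k) →ₗᵢ[ℝ] EuclideanSpace ℝ (Fin n)) :
    Matrix (Fin n) (Fin k) ℝ := Matrix.of fun i m => φ (EuclideanSpace.single m 1) i

lemma matOf_mulVec {n k : ℕ} (φ : EuclideanSpace ℝ (Fin k) →ₗᵢ[ℝ] EuclideanSpace ℝ (Fin n))
    (x : EuclideanSpace ℝ (Fin k)) (i : Fin n) : (matOf φ *ᵥ x.ofLp) i = φ x i := by
  have h1 : x = ∑ m, x m • EuclideanSpace.single m (1 : ℝ) := by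
    ext l
    simp [Finset.sum_apply, Pi.single_apply]
  conv_rhs => rw [h1]
  rw [map_sum]
  simp only [map_smul, WithLp.ofLp_sum, WithLp.ofLp_smul, Finset.sum_apply, Pi.smul_apply,
    smul_eq_mul, Matrix.mulVec, dotProduct, matOf, Matrix.of_apply]
  exact Finset.sum_congr rfl fun m _ => mul_comm _ _

lemma matOf_orth {n k : ℕ} (φ : EuclideanSpace ℝ (Fin k) →ₗᵢ[ℝ] EuclideanSpace ℝ (Fin n)) :
    (matOf φ)ᵀ * matOf φ = 1 := by
  ext l m
  rw [Matrix.mul_apply, Matrix.one_apply]
  have h1 := φ.inner_map_map (EuclideanSpace.single l (1 : ℝ)) (EuclideanSpace.single m (1 : ℝ))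
  rw [PiLp.inner_apply] at h1
  simp only [EuclideanSpace.inner_single_left, map_one, one_mul, PiLp.single_apply] at h1
  simp only [Matrix.transpose_apply, matOf, Matrix.of_apply]
  have h2 : ∀ i, φ (EuclideanSpace.single l 1) i * φ (EuclideanSpace.single m 1) i =
      inner ℝ (φ (EuclideanSpace.single l 1) i) (φ (EuclideanSpace.single m 1) i) := by
    intro i
    simp [mul_comm]
  simp only [h2]
  rw [h1]

lemma measure_section {n k : ℕ} (φ : EuclideanSpace ℝ (Fin k) →ₗᵢ[ℝ] EuclideanSpace ℝ (Fin n))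
    (S : Submodule ℝ (EuclideanSpace ℝ (Fin n))) (hS : Set.range φ = S) :
    Measure.euclideanHausdorffMeasure k ((S : Set (EuclideanSpace ℝ (Fin n))) ∩ unitCube n) =
      ENNReal.ofReal (vol (matOf φ)) := by
  rw [ofReal_vol _ (matOf_orth φ), ← volume_closedSec, ← hS, Set.inter_comm,
    ← φ.isometry.euclideanHausdorffMeasure_preimage, EuclideanSpace.euclideanHausdorffMeasure_eq_volume]
  have h1 : φ ⁻¹' unitCube n = (fun x : EuclideanSpace ℝ (Fin k) => x.ofLp) ⁻¹' closedSec (matOf φ) := by
    ext x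
    simp only [Set.mem_preimage, unitCube, closedSec, Set.mem_ofPred_eq, matOf_mulVec]
  rw [h1]
  refine (PiLp.volume_preserving_ofLp (Fin k)).measure_preimage ?_
  have hcl : IsClosed (closedSec (matOf φ)) := by
    have : closedSec (matOf φ) = ⋂ i, {x | |(matOf φ *ᵥ x) i| ≤ 1 / 2} := by
      ext x; simp [closedSec]
    rw [this]
    refine isClosed_iInter fun i => ?_
    refine isClosed_le ?_ continuous_const
    exact ((continuous_apply i).comp (Continuous.matrix_mulVec continuous_const continuous_id)).abs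
  exact hcl.measurableSet.nullMeasurableSet

lemma exists_isometry {n k : ℕ} (S : Submodule ℝ (EuclideanSpace ℝ (Fin n)))
    (hS : Module.finrank ℝ S = k) :
    ∃ φ : EuclideanSpace ℝ (Fin k) →ₗᵢ[ℝ] EuclideanSpace ℝ (Fin n), Set.range φ = S := by
  subst hS
  refine ⟨S.subtypeₗᵢ.comp (stdOrthonormalBasis ℝ S).repr.symm.toLinearIsometry, ?_⟩
  ext x
  constructor
  · rintro ⟨y, rfl⟩
    exact ((stdOrthonormalBasis ℝ S).repr.symm y).2
  · intro hx
    refine ⟨(stdOrthonormalBasis ℝ S).repr ⟨x, hx⟩, ?_⟩
    simp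


/-- The converse direction: a product of diagonals with fibres of size `n / k` and `n / k + 1` has
the maximal volume. -/
lemma vol_of_product {n k : ℕ} (hk : 0 < k) (hkn : k ≤ n)
    (φ : EuclideanSpace ℝ (Fin k) →ₗᵢ[ℝ] EuclideanSpace ℝ (Fin n))
    (j : Fin n → Fin k) (ε : Fin n → ℝ) (hε : ∀ i, ε i = 1 ∨ ε i = -1)
    (hcard : ∀ l, (Finset.univ.filter fun i => j i = l).card = n / k ∨
      (Finset.univ.filter fun i => j i = l).card = n / k + 1)
    (hφ : ∀ x, ∃ y : Fin k → ℝ, ∀ i, φ x i = ε i * y (j i)) :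
    vol (matOf φ) ^ 2 = maxSq n k := by
  have hq1 : 1 ≤ n / k := (Nat.one_le_div_iff hk).2 hkn
  choose Y hY using fun m : Fin k => hφ (EuclideanSpace.single m 1)
  set A : Matrix (Fin n) (Fin k) ℝ := Matrix.of fun i l => if l = j i then ε i else 0 with hA
  set V : Matrix (Fin k) (Fin k) ℝ := Matrix.of fun l m => Y m l with hV
  have hAV : A * V = matOf φ := by
    ext i m
    rw [Matrix.mul_apply]
    simp only [hA, hV, Matrix.of_apply, matOf, ite_mul, zero_mul, Finset.sum_ite_eq',
      Finset.mem_univ, if_true]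
    exact (hY m i).symm
  have hA1 : ∀ i, |A i (j i)| = 1 ∧ ∀ l, l ≠ j i → A i l = 0 := by
    intro i
    constructor
    · simp only [hA, Matrix.of_apply, if_true]
      rcases hε i with h | h <;> rw [h] <;> simp
    · intro l hl
      simp only [hA, Matrix.of_apply, if_neg hl]
  have hsurj : Function.Surjective j := by
    intro l
    have h1 : 0 < (Finset.univ.filter fun i => j i = l).card := by
      rcases hcard l with h | h <;> omega
    obtain ⟨i, hi⟩ := Finset.card_pos.1 h1
    exact ⟨i, (Finset.mem_filter.1 hi).2⟩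
  rw [vol_sq_product _ A V (matOf_orth φ) hAV j hA1 hsurj]
  set c : Fin k → ℕ := fun l => (Finset.univ.filter fun i => j i = l).card with hc
  have hprod : ∏ l, fib j l = ∏ l, ((c l : ℕ) : ℝ) :=
    Finset.prod_congr rfl fun l _ => fib_eq_card j l
  have hsum : ∑ l, c l = n := by
    have := Finset.card_eq_sum_card_fiberwise (f := j) (s := Finset.univ) (t := Finset.univ)
      (fun _ _ => Finset.mem_coe.2 (Finset.mem_univ _))
    rw [Finset.card_univ, Fintype.card_fin] at this
    exact this.symm
  set R : Finset (Fin k) := Finset.univ.filter fun l => c l = n / k + 1 with hR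
  have hRcard : R.card = n % k := by
    have h1 : ∑ l, c l = ∑ l, (n / k + if c l = n / k + 1 then 1 else 0) := by
      refine Finset.sum_congr rfl fun l _ => ?_
      rcases hcard l with h | h
      · have h' : c l = n / k := h
        rw [h', if_neg (by omega)]
        simp
      · have h' : c l = n / k + 1 := h
        rw [h', if_pos rfl]
    rw [Finset.sum_add_distrib, Finset.sum_const, Finset.card_univ, Fintype.card_fin, smul_eq_mul,
      Finset.sum_boole, hsum] at h1
    have h2 := Nat.div_add_mod n k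
    have h3 : ((Finset.univ.filter fun l => c l = n / k + 1).card : ℕ) = R.card := rfl
    simp only [Nat.cast_id] at h1
    omega
  rw [hprod, maxSq]
  have h4 : ∀ l, ((c l : ℕ) : ℝ) = if l ∈ R then ((n / k : ℕ) : ℝ) + 1 else ((n / k : ℕ) : ℝ) := by
    intro l
    rcases hcard l with h | h
    · have h' : c l = n / k := h
      have : l ∉ R := by
        rw [hR, Finset.mem_filter]
        rintro ⟨_, h2⟩
        omega
      rw [if_neg this, h']
    · have h' : c l = n / k + 1 := h
      have : l ∈ R := by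
        rw [hR, Finset.mem_filter]
        exact ⟨Finset.mem_univ _, h'⟩
      rw [if_pos this, h']
      push_cast
      ring
  rw [Finset.prod_congr rfl fun l _ => h4 l, Finset.prod_ite]
  simp only [Finset.prod_const]
  have h5 : (Finset.univ.filter fun l => l ∈ R).card = n % k := by
    rw [Finset.filter_mem_eq_inter, Finset.univ_inter, hRcard]
  have h6 : (Finset.univ.filter fun l => l ∉ R).card = k - n % k := by
    have h7 := Finset.card_filter_add_card_filter_not (s := (Finset.univ : Finset (Fin k)))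
      (fun l => l ∈ R)
    rw [h5, Finset.card_univ, Fintype.card_fin] at h7
    omega
  rw [h5, h6, mul_comm]

/-- The diagonal subspace attached to `j`. -/
noncomputable def diagMap {n k : ℕ} (j : Fin n → Fin k) : (Fin k → ℝ) →ₗ[ℝ] EuclideanSpace ℝ (Fin n) where
  toFun y := WithLp.toLp 2 fun i => y (j i)
  map_add' _ _ := rfl
  map_smul' _ _ := rfl

lemma finrank_diag {n k : ℕ} (j : Fin n → Fin k) (hj : Function.Surjective j) :
    Module.finrank ℝ (LinearMap.range (diagMap j)) = k := by
  rw [LinearMap.finrank_range_of_inj, Module.finrank_fintype_fun_eq_card, Fintype.card_fin]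
  intro y z h
  funext l
  obtain ⟨i, rfl⟩ := hj l
  have := congrArg (fun v : EuclideanSpace ℝ (Fin n) => v i) h
  exact this

lemma card_mod {n k : ℕ} (hk : 0 < k) (l : Fin k) :
    (Finset.univ.filter fun i : Fin n => (⟨(i : ℕ) % k, Nat.mod_lt _ hk⟩ : Fin k) = l).card = n / k ∨
    (Finset.univ.filter fun i : Fin n => (⟨(i : ℕ) % k, Nat.mod_lt _ hk⟩ : Fin k) = l).card =
      n / k + 1 := by
  have h1 := Nat.count_modEq_card n hk (l : ℕ)
  have h2 : (Finset.univ.filter fun i : Fin n =>
      (⟨(i : ℕ) % k, Nat.mod_lt _ hk⟩ : Fin k) = l).card = n.count (· ≡ (l : ℕ) [MOD k]) := by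
    rw [Nat.count_eq_card_filter_range]
    have h3 : (Finset.range n).filter (fun a => a ≡ (l : ℕ) [MOD k]) =
        (Finset.univ.filter fun i : Fin n =>
          (⟨(i : ℕ) % k, Nat.mod_lt _ hk⟩ : Fin k) = l).map Fin.valEmbedding := by
      ext a
      simp only [Finset.mem_filter, Finset.mem_range, Finset.mem_map, Finset.mem_univ, true_and,
        Fin.valEmbedding_apply, Nat.ModEq, Nat.mod_eq_of_lt l.2]
      constructor
      · rintro ⟨ha, hal⟩
        exact ⟨⟨a, ha⟩, Fin.ext hal, rfl⟩
      · rintro ⟨i, hi, rfl⟩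
        exact ⟨i.2, congrArg Fin.val hi⟩
    rw [h3, Finset.card_map]
  rw [h2, h1]
  split_ifs
  · exact Or.inr rfl
  · exact Or.inl rfl

end Pool.Agent.Lib.MP_589a62_gt
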