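import Pool.Agent.Lib.MP_589a62_gt.Third
import Mathlib.Analysis.Complex.ExponentialBounds
import Mathlib.Analysis.Real.Pi.Bounds

set_option autoImplicit false
set_option linter.unusedSectionVars false

/-!
# Products of coordinates are small when Ball's inequality is almost sharp
-/

open Matrix Finset MeasureTheory Set Real
open scoped ENNReal Pointwise

namespace Pool.Agent.Lib.MP_589a62_gt

variable {ι κ : Type*} [Fintype ι] [Fintype κ] [DecidableEq κ] [DecidableEq ι]

lemma volume_openSec_le (U : Matrix ι κ ℝ) (hU : Uᵀ * U = 1) :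
    volume (openSec U) ≤ ENNReal.ofReal (ballBound U) :=
  le_trans le_self_add (volume_add_defect U hU)

lemma volume_openSec_ne_top (U : Matrix ι κ ℝ) (hU : Uᵀ * U = 1) : volume (openSec U) ≠ ∞ :=
  ne_top_of_le_ne_top ENNReal.ofReal_ne_top (volume_openSec_le U hU)

/-- The volume as a real number. -/
noncomputable def vol (U : Matrix ι κ ℝ) : ℝ := (volume (openSec U)).toReal

lemma vol_le (U : Matrix ι κ ℝ) (hU : Uᵀ * U = 1) : vol U ≤ ballBound U := by
  have := ENNReal.toReal_mono ENNReal.ofReal_ne_top (volume_openSec_le U hU)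
  rwa [ENNReal.toReal_ofReal (ballBound_pos U).le] at this

lemma ofReal_vol (U : Matrix ι κ ℝ) (hU : Uᵀ * U = 1) :
    ENNReal.ofReal (vol U) = volume (openSec U) := ENNReal.ofReal_toReal (volume_openSec_ne_top U hU)

lemma lintegral_defect_le (U : Matrix ι κ ℝ) (hU : Uᵀ * U = 1) :
    ∫⁻ x in openSec U, ENNReal.ofReal (π * defect U x) ≤ ENNReal.ofReal (ballBound U - vol U) := by
  have h := volume_add_defect U hU
  rw [← ofReal_vol U hU] at h
  rw [ENNReal.ofReal_sub _ (show 0 ≤ vol U from ENNReal.toReal_nonneg)]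
  exact ENNReal.le_sub_of_add_le_left ENNReal.ofReal_ne_top h

lemma quarter_le_pow (k : ℕ) (hk : 1 ≤ k) : (1 / 4 : ℝ) ≤ (1 - 1 / ((k : ℝ) + 1)) ^ k := by
  have hk0 : (0 : ℝ) < k := by exact_mod_cast hk
  have h1 : (1 + 1 / (k : ℝ)) ^ k ≤ 4 := by
    have h2 : 1 + 1 / (k : ℝ) ≤ Real.exp (1 / k) := by
      have := Real.add_one_le_exp (1 / (k : ℝ))
      linarith
    calc (1 + 1 / (k : ℝ)) ^ k ≤ Real.exp (1 / k) ^ k :=
          pow_le_pow_left₀ (by positivity) h2 k
      _ = Real.exp 1 := by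
          rw [← Real.exp_nat_mul]
          congr 1
          field_simp
      _ ≤ 4 := by
          have := Real.exp_one_lt_d9
          linarith
  have h3 : (1 - 1 / ((k : ℝ) + 1)) = (1 + 1 / (k : ℝ))⁻¹ := by
    field_simp
    ring
  rw [h3, inv_pow]
  have h4 : 0 < (1 + 1 / (k : ℝ)) ^ k := by positivity
  rw [one_div, inv_le_inv₀ (by norm_num) h4]
  exact h1

namespace GoodBasis

variable {U : Matrix ι κ ℝ} (g : GoodBasis U)

lemma volume_small_ge (hκ : 0 < Fintype.card κ) :
    ENNReal.ofReal ((1 - θ κ) ^ Fintype.card κ) * volume (openSec g.A) ≤ volume g.small := by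
  have hθ : 0 < 1 - θ κ := by
    unfold θ
    have : (0 : ℝ) < Fintype.card κ := by exact_mod_cast hκ
    rw [sub_pos, div_lt_one (by positivity)]
    linarith
  have h1 : volume ((1 - θ κ) • openSec g.A) =
      ENNReal.ofReal ((1 - θ κ) ^ Fintype.card κ) * volume (openSec g.A) := by
    rw [Measure.addHaar_smul, Module.finrank_fintype_fun_eq_card, abs_of_pos (pow_pos hθ _)]
  rw [← h1]
  refine measure_mono ?_
  rintro y ⟨z, hz, rfl⟩ i
  simp only [Matrix.mulVec_smul, Pi.smul_apply, smul_eq_mul, abs_mul, abs_of_pos hθ]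
  have := hz i
  nlinarith

/-- If Ball's inequality is almost sharp, then the coordinates of each row satisfy
`|A_il|² |A_im| ≈ 0` for `l ≠ m`. -/
theorem mixed (i : ι) {m l : κ} (hml : m ≠ l) :
    vol U * (rowSq U i * (g.A i l ^ 4 * g.A i m ^ 2)) ≤
      4096 * ((Fintype.card κ : ℝ) + 1) ^ 7 * (ballBound U - vol U) := by
  have hκ : 0 < Fintype.card κ := Fintype.card_pos_iff.2 ⟨m⟩
  set k : ℝ := (Fintype.card κ : ℝ) with hk
  have hk0 : 0 < k := by rw [hk]; exact_mod_cast hκ
  set C := rowSq U i * (4 * π * (θ κ / 4) ^ 3 * g.A i l ^ 2 * |g.A i m|) ^ 2 with hC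
  have hC0 : 0 ≤ C := by
    have := rowSq_nonneg U i
    positivity
  have hd0 : 0 < |g.V.det| := abs_pos.2 g.V_det_ne
  have hB : 0 ≤ ballBound U - vol U := by linarith [vol_le U g.hU]
  -- the chain in `ENNReal`
  have h1 := g.third_integral i hml
  have h2 : ∫⁻ y in openSec g.A, ENNReal.ofReal (g.E i y ^ 2) ≤
      ENNReal.ofReal |g.V.det| * ENNReal.ofReal ((k + 1) / π * (ballBound U - vol U)) := by
    rw [g.lintegral_comp (((g.measurable_E i).pow_const 2).ennreal_ofReal)]
    refine mul_le_mul_right ?_ _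
    calc ∫⁻ x in openSec U, ENNReal.ofReal (g.E i (g.V *ᵥ x) ^ 2)
        ≤ ∫⁻ x in openSec U, ENNReal.ofReal ((k + 1) / π) * ENNReal.ofReal (π * defect U x) := by
          refine lintegral_mono fun x => ?_
          rw [← ENNReal.ofReal_mul (by positivity)]
          refine ENNReal.ofReal_le_ofReal ((g.E_sq_le i x).trans (le_of_eq ?_))
          rw [← hk]
          field_simp
      _ = ENNReal.ofReal ((k + 1) / π) * ∫⁻ x in openSec U, ENNReal.ofReal (π * defect U x) :=
          lintegral_const_mul' _ _ ENNReal.ofReal_ne_top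
      _ ≤ ENNReal.ofReal ((k + 1) / π) * ENNReal.ofReal (ballBound U - vol U) :=
          mul_le_mul_right (lintegral_defect_le U g.hU) _
      _ = ENNReal.ofReal ((k + 1) / π * (ballBound U - vol U)) := by
          rw [ENNReal.ofReal_mul (by positivity)]
  have h3 : ENNReal.ofReal ((1 - θ κ) ^ Fintype.card κ * (|g.V.det| * vol U) * C) ≤
      ENNReal.ofReal (64 * (|g.V.det| * ((k + 1) / π * (ballBound U - vol U)))) := by
    have hθ : 0 ≤ 1 - θ κ := by linarith [θ_le (κ := κ)]
    have hv : 0 ≤ vol U := ENNReal.toReal_nonneg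
    rw [ENNReal.ofReal_mul (by positivity), ENNReal.ofReal_mul (by positivity),
      ENNReal.ofReal_mul hd0.le, ofReal_vol U g.hU, ← g.volume_eq,
      ENNReal.ofReal_mul (by norm_num : (0 : ℝ) ≤ 64), ENNReal.ofReal_mul hd0.le]
    have e64 : ENNReal.ofReal 64 = 64 := by norm_num
    rw [e64]
    calc ENNReal.ofReal ((1 - θ κ) ^ Fintype.card κ) * volume (openSec g.A) * ENNReal.ofReal C
        ≤ volume g.small * ENNReal.ofReal C := mul_le_mul_left (g.volume_small_ge hκ) _
      _ ≤ 64 * ∫⁻ y in openSec g.A, ENNReal.ofReal (g.E i y ^ 2) := h1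
      _ ≤ 64 * (ENNReal.ofReal |g.V.det| * ENNReal.ofReal ((k + 1) / π * (ballBound U - vol U))) :=
          mul_le_mul_right h2 _
  rw [ENNReal.ofReal_le_ofReal_iff (by positivity)] at h3
  have h4 : (1 - θ κ) ^ Fintype.card κ * vol U * C ≤ 64 * ((k + 1) / π * (ballBound U - vol U)) := by
    refine le_of_mul_le_mul_left ?_ hd0
    linarith
  have h5 : (1 / 4 : ℝ) ≤ (1 - θ κ) ^ Fintype.card κ := quarter_le_pow _ hκ
  have hv : 0 ≤ vol U := ENNReal.toReal_nonneg
  have h6 : 1 / 4 * vol U * C ≤ 64 * ((k + 1) / π * (ballBound U - vol U)) := by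
    refine le_trans ?_ h4
    have : 0 ≤ vol U * C := by positivity
    nlinarith
  have hCeq : C = π ^ 2 / (256 * (k + 1) ^ 6) * (rowSq U i * (g.A i l ^ 4 * g.A i m ^ 2)) := by
    have : θ κ = 1 / (k + 1) := rfl
    rw [hC, this, mul_pow, sq_abs]
    field_simp
    ring
  rw [hCeq] at h6
  set X := vol U * (rowSq U i * (g.A i l ^ 4 * g.A i m ^ 2)) with hX
  have hX0 : 0 ≤ X := by
    have := rowSq_nonneg U i
    positivity
  have hpi : 3 < π := Real.pi_gt_three
  have hpi3 : 27 ≤ π ^ 3 := by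
    calc (27 : ℝ) = 3 ^ 3 := by norm_num
      _ ≤ π ^ 3 := pow_le_pow_left₀ (by norm_num) hpi.le 3
  have h7 : π ^ 3 * X ≤ 65536 * (k + 1) ^ 7 * (ballBound U - vol U) := by
    have e1 : 1 / 4 * vol U * (π ^ 2 / (256 * (k + 1) ^ 6) *
        (rowSq U i * (g.A i l ^ 4 * g.A i m ^ 2))) = π ^ 3 * X / (1024 * (k + 1) ^ 6 * π) := by
      rw [hX]
      field_simp
      ring
    have e2 : 64 * ((k + 1) / π * (ballBound U - vol U)) =
        65536 * (k + 1) ^ 7 * (ballBound U - vol U) / (1024 * (k + 1) ^ 6 * π) := by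
      field_simp
      ring
    rw [e1, e2] at h6
    exact (div_le_div_iff_of_pos_right (by positivity)).1 h6
  have h8 : 0 ≤ (k + 1) ^ 7 * (ballBound U - vol U) := by positivity
  nlinarith

end GoodBasis

end Pool.Agent.Lib.MP_589a62_gt
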