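import Pool.Agent.Lib.MP_589a62_gt.Geometry

set_option autoImplicit false

/-!
# Maximal central sections of the cube in large dimension

For every `k ≥ 1` and every `n ≥ 2 ^ 38 * k ^ 15` the maximal `k`-dimensional volume of a central
section of the cube `[-1/2, 1/2]^n` by a `k`-dimensional subspace is
`sqrt (q ^ (k - r) * (q + 1) ^ r)`, where `q = n / k` and `r = n % k`, and the maximum is attained
exactly by the products of diagonals of cubes of dimension `q` and `q + 1`.
-/

open MeasureTheory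
open scoped ENNReal

namespace Pool.Agent.Lib.MP_589a62_gt.LargeN

open Pool.Agent.Lib.MP_589a62_gt

theorem result (k n : ℕ) (hk : 0 < k) (hn : 2 ^ 38 * k ^ 15 ≤ n) :
    IsGreatest
      {v : ℝ≥0∞ | ∃ S : Submodule ℝ (EuclideanSpace ℝ (Fin n)), Module.finrank ℝ S = k ∧
        v = Measure.euclideanHausdorffMeasure k
          ((S : Set (EuclideanSpace ℝ (Fin n))) ∩ {x | ∀ i, |x i| ≤ 1 / 2})}
      (ENNReal.ofReal (√(((n / k : ℕ) : ℝ) ^ (k - n % k) * (((n / k : ℕ) : ℝ) + 1) ^ (n % k)))) ∧
    ∀ S : Submodule ℝ (EuclideanSpace ℝ (Fin n)), Module.finrank ℝ S = k →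
      (Measure.euclideanHausdorffMeasure k
          ((S : Set (EuclideanSpace ℝ (Fin n))) ∩ {x | ∀ i, |x i| ≤ 1 / 2}) =
        ENNReal.ofReal
          (√(((n / k : ℕ) : ℝ) ^ (k - n % k) * (((n / k : ℕ) : ℝ) + 1) ^ (n % k))) ↔
      ∃ (j : Fin n → Fin k) (ε : Fin n → ℝ), (∀ i, ε i = 1 ∨ ε i = -1) ∧
        (∀ l, (Finset.univ.filter fun i => j i = l).card = n / k ∨
          (Finset.univ.filter fun i => j i = l).card = n / k + 1) ∧
        ∀ x : EuclideanSpace ℝ (Fin n), x ∈ S ↔ ∃ y : Fin k → ℝ, ∀ i, x i = ε i * y (j i)) := by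
  have hkn : k ≤ n := by
    have h1 : k ≤ k ^ 15 := Nat.le_self_pow (by norm_num) k
    have h2 : k ^ 15 ≤ 2 ^ 38 * k ^ 15 := Nat.le_mul_of_pos_left _ (by norm_num)
    omega
  change IsGreatest {v : ℝ≥0∞ | ∃ S : Submodule ℝ (EuclideanSpace ℝ (Fin n)),
      Module.finrank ℝ S = k ∧ v = Measure.euclideanHausdorffMeasure k
          ((S : Set (EuclideanSpace ℝ (Fin n))) ∩ unitCube n)}
      (ENNReal.ofReal (√(maxSq n k))) ∧
    ∀ S : Submodule ℝ (EuclideanSpace ℝ (Fin n)), Module.finrank ℝ S = k →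
      (Measure.euclideanHausdorffMeasure k
          ((S : Set (EuclideanSpace ℝ (Fin n))) ∩ unitCube n) = ENNReal.ofReal (√(maxSq n k)) ↔ _)
  have hmax0 : 0 ≤ maxSq n k := by unfold maxSq; positivity
  -- the upper bound
  have hub : ∀ S : Submodule ℝ (EuclideanSpace ℝ (Fin n)), Module.finrank ℝ S = k →
      Measure.euclideanHausdorffMeasure k
          ((S : Set (EuclideanSpace ℝ (Fin n))) ∩ unitCube n) ≤ ENNReal.ofReal (√(maxSq n k)) := by
    intro S hS
    obtain ⟨φ, hφ⟩ := exists_isometry S hS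
    rw [measure_section φ S hφ]
    refine ENNReal.ofReal_le_ofReal (Real.le_sqrt_of_sq_le ?_)
    exact (matrix_main k n hk hn (matOf φ) (matOf_orth φ)).1
  -- the characterisation of equality
  have hiff : ∀ S : Submodule ℝ (EuclideanSpace ℝ (Fin n)), Module.finrank ℝ S = k →
      (Measure.euclideanHausdorffMeasure k
          ((S : Set (EuclideanSpace ℝ (Fin n))) ∩ unitCube n) = ENNReal.ofReal (√(maxSq n k)) ↔
      ∃ (j : Fin n → Fin k) (ε : Fin n → ℝ), (∀ i, ε i = 1 ∨ ε i = -1) ∧
        (∀ l, (Finset.univ.filter fun i => j i = l).card = n / k ∨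
          (Finset.univ.filter fun i => j i = l).card = n / k + 1) ∧
        ∀ x : EuclideanSpace ℝ (Fin n), x ∈ S ↔ ∃ y : Fin k → ℝ, ∀ i, x i = ε i * y (j i)) := by
    intro S hS
    obtain ⟨φ, hφ⟩ := exists_isometry S hS
    have hvol0 : 0 ≤ vol (matOf φ) := ENNReal.toReal_nonneg
    have hequiv : Measure.euclideanHausdorffMeasure k
          ((S : Set (EuclideanSpace ℝ (Fin n))) ∩ unitCube n) = ENNReal.ofReal (√(maxSq n k)) ↔
        vol (matOf φ) ^ 2 = maxSq n k := by
      rw [measure_section φ S hφ, ENNReal.ofReal_eq_ofReal_iff hvol0 (Real.sqrt_nonneg _)]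
      constructor
      · intro h
        rw [h, Real.sq_sqrt hmax0]
      · intro h
        rw [← h, Real.sqrt_sq hvol0]
    rw [hequiv]
    constructor
    · intro h
      obtain ⟨A, V, j, hAV, hA, hcard⟩ := (matrix_main k n hk hn (matOf φ) (matOf_orth φ)).2 h
      refine ⟨j, fun i => A i (j i), ?_, hcard, ?_⟩
      · intro i
        exact (abs_eq zero_le_one).1 (hA i).1
      · intro x
        have hmul : ∀ (y : Fin k → ℝ) (i : Fin n), (A.mulVec y) i = A i (j i) * y (j i) := by
          intro y i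
          simp only [Matrix.mulVec, dotProduct]
          refine Finset.sum_eq_single_of_mem (j i) (Finset.mem_univ _) fun l _ hl => ?_
          rw [(hA i).2 l hl, zero_mul]
        have hmem : x ∈ S ↔ ∃ z, φ z = x := by
          rw [← SetLike.mem_coe, ← hφ, Set.mem_range]
        rw [hmem]
        constructor
        · rintro ⟨z, rfl⟩
          refine ⟨V.mulVec z.ofLp, fun i => ?_⟩
          rw [← matOf_mulVec, ← hAV, ← Matrix.mulVec_mulVec, hmul]
        · rintro ⟨y, hy⟩
          have hinv : (V.transpose * (A.transpose * A)) * V = 1 := by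
            rw [← matOf_orth φ, ← hAV, Matrix.transpose_mul]
            simp only [Matrix.mul_assoc]
          have hinv' : V * (V.transpose * (A.transpose * A)) = 1 := mul_eq_one_comm.1 hinv
          refine ⟨WithLp.toLp 2 ((V.transpose * (A.transpose * A)).mulVec y), ?_⟩
          ext i
          rw [← matOf_mulVec, hy i, ← hmul y i, ← hAV]
          simp only [Matrix.mulVec_mulVec]
          rw [Matrix.mul_assoc A V, hinv', Matrix.mul_one]
    · rintro ⟨j, ε, hε, hcard, hS'⟩
      refine vol_of_product hk hkn φ j ε hε hcard fun x => ?_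
      have hx : φ x ∈ S := by
        rw [← SetLike.mem_coe, ← hφ]
        exact ⟨x, rfl⟩
      exact (hS' _).1 hx
  refine ⟨⟨?_, ?_⟩, hiff⟩
  · -- attained
    set j : Fin n → Fin k := fun i => ⟨(i : ℕ) % k, Nat.mod_lt _ hk⟩ with hj
    have hcard := fun l => card_mod (n := n) hk l
    have hq1 : 1 ≤ n / k := (Nat.one_le_div_iff hk).2 hkn
    have hsurj : Function.Surjective j := by
      intro l
      have h1 : 0 < (Finset.univ.filter fun i => j i = l).card := by
        rcases hcard l with h | h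
        · rw [hj, h]; omega
        · rw [hj, h]; omega
      obtain ⟨i, hi⟩ := Finset.card_pos.1 h1
      exact ⟨i, (Finset.mem_filter.1 hi).2⟩
    have hfin := finrank_diag j hsurj
    refine ⟨LinearMap.range (diagMap j), hfin, ((hiff _ hfin).2 ?_).symm⟩
    refine ⟨j, fun _ => 1, fun _ => Or.inl rfl, hcard, fun x => ?_⟩
    constructor
    · rintro ⟨y, rfl⟩
      exact ⟨y, fun i => (one_mul _).symm⟩
    · rintro ⟨y, hy⟩
      refine ⟨y, ?_⟩
      ext i
      rw [hy i, one_mul]
      rfl
  · rintro v ⟨S, hS, rfl⟩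
    exact hub S hS

end Pool.Agent.Lib.MP_589a62_gt.LargeN
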