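import Mathlib.Analysis.SpecialFunctions.Gaussian.GaussianIntegral
import Mathlib.MeasureTheory.Integral.IntegralEqImproper
import Mathlib.Analysis.Convex.Deriv

set_option autoImplicit false

/-!
# The inverse of the Gaussian distribution function

`G s = ∫ t in 0..s, exp (-π t²)` is an increasing bijection of the line onto `(-1/2, 1/2)`; `Phi` is its
inverse. We prove `Phi' = exp (π Phi²)`, oddness, and strict convexity on `[0, 1/2)`.
-/

open Real Set Filter Topology MeasureTheory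

namespace Pool.Agent.Lib.MP_589a62_gt

/-- The (centred) Gaussian distribution function. -/
noncomputable def G (s : ℝ) : ℝ := ∫ t in (0 : ℝ)..s, Real.exp (-π * t ^ 2)

lemma continuous_gauss : Continuous fun t : ℝ => Real.exp (-π * t ^ 2) := by fun_prop

lemma hasDerivAt_G (s : ℝ) : HasDerivAt G (Real.exp (-π * s ^ 2)) s :=
  intervalIntegral.integral_hasDerivAt_right (continuous_gauss.intervalIntegrable _ _)
    (continuous_gauss.stronglyMeasurableAtFilter _ _) continuous_gauss.continuousAt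

lemma strictMono_G : StrictMono G := by
  apply strictMono_of_deriv_pos
  intro x
  rw [(hasDerivAt_G x).deriv]
  positivity

lemma continuous_G : Continuous G :=
  continuous_iff_continuousAt.2 fun x => (hasDerivAt_G x).continuousAt

lemma G_zero : G 0 = 0 := by simp [G]

lemma G_neg (s : ℝ) : G (-s) = -G s := by
  unfold G
  have h := intervalIntegral.integral_comp_neg (fun t : ℝ => Real.exp (-π * t ^ 2)) (a := 0) (b := s)
  simp only [neg_sq, neg_zero] at h
  rw [h, intervalIntegral.integral_symm]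

lemma tendsto_G : Tendsto G atTop (𝓝 (1 / 2)) := by
  have h1 : IntegrableOn (fun t : ℝ => Real.exp (-π * t ^ 2)) (Ioi 0) :=
    (integrable_exp_neg_mul_sq Real.pi_pos).integrableOn
  have h2 := intervalIntegral_tendsto_integral_Ioi (μ := volume) 0 h1 tendsto_id
  rw [integral_gaussian_Ioi, div_self Real.pi_ne_zero, Real.sqrt_one] at h2
  exact h2

lemma G_lt (s : ℝ) : G s < 1 / 2 := by
  have h : G (s + 1) ≤ 1 / 2 :=
    ge_of_tendsto tendsto_G ((eventually_ge_atTop (s + 1)).mono fun x hx => strictMono_G.monotone hx)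
  exact lt_of_lt_of_le (strictMono_G (by linarith)) h

lemma lt_G (s : ℝ) : -(1 / 2) < G s := by
  have := G_lt (-s)
  rw [G_neg] at this
  linarith

lemma exists_G_eq {t : ℝ} (ht : t ∈ Ioo (-(1 / 2) : ℝ) (1 / 2)) : ∃ s, G s = t := by
  obtain ⟨b, hb⟩ := (tendsto_G.eventually (lt_mem_nhds ht.2)).exists
  have h2 : -t < 1 / 2 := by linarith [ht.1]
  obtain ⟨a, ha⟩ := (tendsto_G.eventually (lt_mem_nhds h2)).exists
  have ha' : G (-a) < t := by rw [G_neg]; linarith
  have := mem_range_of_exists_le_of_exists_ge continuous_G ⟨-a, ha'.le⟩ ⟨b, hb.le⟩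
  exact this

/-- The inverse of the Gaussian distribution function. -/
noncomputable def Phi (t : ℝ) : ℝ := Function.invFun G t

lemma G_Phi {t : ℝ} (ht : t ∈ Ioo (-(1 / 2) : ℝ) (1 / 2)) : G (Phi t) = t :=
  Function.invFun_eq (exists_G_eq ht)

lemma Phi_G (s : ℝ) : Phi (G s) = s := Function.leftInverse_invFun strictMono_G.injective s

lemma Phi_strictMonoOn : StrictMonoOn Phi (Ioo (-(1 / 2) : ℝ) (1 / 2)) := by
  intro a ha b hb hab
  by_contra h
  have := strictMono_G.monotone (not_lt.1 h)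
  rw [G_Phi ha, G_Phi hb] at this
  linarith

lemma Phi_continuousAt {t : ℝ} (ht : t ∈ Ioo (-(1 / 2) : ℝ) (1 / 2)) : ContinuousAt Phi t := by
  apply Phi_strictMonoOn.continuousAt_of_image_mem_nhds (isOpen_Ioo.mem_nhds ht)
  have : Phi '' Ioo (-(1 / 2) : ℝ) (1 / 2) = univ := by
    apply eq_univ_of_forall
    intro s
    exact ⟨G s, ⟨lt_G s, G_lt s⟩, Phi_G s⟩
  rw [this]
  exact univ_mem

lemma hasDerivAt_Phi {t : ℝ} (ht : t ∈ Ioo (-(1 / 2) : ℝ) (1 / 2)) :
    HasDerivAt Phi (Real.exp (π * Phi t ^ 2)) t := by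
  have hev : ∀ᶠ y in 𝓝 t, G (Phi y) = y := by
    filter_upwards [isOpen_Ioo.mem_nhds ht] with y hy
    exact G_Phi hy
  have h := HasDerivAt.of_local_left_inverse (Phi_continuousAt ht) (hasDerivAt_G (Phi t))
    (Real.exp_pos _).ne' hev
  have e : (Real.exp (-π * Phi t ^ 2))⁻¹ = Real.exp (π * Phi t ^ 2) := by
    rw [← Real.exp_neg]
    ring_nf
  rwa [e] at h

lemma Phi_continuousOn : ContinuousOn Phi (Ioo (-(1 / 2) : ℝ) (1 / 2)) :=
  fun _ ht => (Phi_continuousAt ht).continuousWithinAt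

lemma Phi_zero : Phi 0 = 0 := by
  have := Phi_G 0
  rwa [G_zero] at this

lemma Phi_neg {t : ℝ} (ht : t ∈ Ioo (-(1 / 2) : ℝ) (1 / 2)) : Phi (-t) = -Phi t := by
  conv_lhs => rw [← G_Phi ht, ← G_neg, Phi_G]

lemma Phi_pos {t : ℝ} (h0 : 0 < t) (h1 : t < 1 / 2) : 0 < Phi t := by
  rw [← Phi_zero]
  exact Phi_strictMonoOn ⟨by norm_num, by norm_num⟩ ⟨by linarith, h1⟩ h0

lemma Phi_strictConvexOn : StrictConvexOn ℝ (Ico (0 : ℝ) (1 / 2)) Phi := by
  apply StrictMonoOn.strictConvexOn_of_deriv (convex_Ico _ _)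
  · exact Phi_continuousOn.mono fun x hx => ⟨by linarith [hx.1], hx.2⟩
  · rw [interior_Ico]
    intro a ha b hb hab
    have ha' : a ∈ Ioo (-(1 / 2) : ℝ) (1 / 2) := ⟨by linarith [ha.1], ha.2⟩
    have hb' : b ∈ Ioo (-(1 / 2) : ℝ) (1 / 2) := ⟨by linarith [hb.1], hb.2⟩
    rw [(hasDerivAt_Phi ha').deriv, (hasDerivAt_Phi hb').deriv]
    apply Real.exp_lt_exp.2
    have h1 := Phi_pos ha.1 ha.2
    have h2 := Phi_strictMonoOn ha' hb' hab
    have : Phi a ^ 2 < Phi b ^ 2 := by nlinarith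
    exact mul_lt_mul_of_pos_left this Real.pi_pos

/-- Strict convexity in the form in which it is used. -/
lemma Phi_mul_lt {a t : ℝ} (ha0 : 0 < a) (ha1 : a < 1) (ht0 : 0 < t) (ht1 : t < 1 / 2) :
    Phi (a * t) < a * Phi t := by
  have h := Phi_strictConvexOn.2 (show (0 : ℝ) ∈ Ico (0 : ℝ) (1 / 2) from ⟨le_refl _, by norm_num⟩)
    (show t ∈ Ico (0 : ℝ) (1 / 2) from ⟨ht0.le, ht1⟩) ht0.ne (show 0 < 1 - a by linarith) ha0
    (by ring)
  simpa [Phi_zero] using h

end Pool.Agent.Lib.MP_589a62_gt
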