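import Pool.Agent.Lib.MP_589a62_gt.Defect

set_option autoImplicit false
set_option linter.unusedSectionVars false

/-!
# Mixed third differences of the deviation
-/

open Matrix Finset MeasureTheory Set Real
open scoped ENNReal

namespace Pool.Agent.Lib.MP_589a62_gt

variable {ι κ : Type*} [Fintype ι] [Fintype κ] [DecidableEq κ] [DecidableEq ι]

namespace GoodBasis

variable {U : Matrix ι κ ℝ} (g : GoodBasis U)

/-- Shift by `α` in the direction `m` and by `β` in the direction `l`. -/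
def shift (m l : κ) (α β : ℝ) : κ → ℝ := fun p => (if p = m then α else 0) + (if p = l then β else 0)

lemma mulVec_shift (i : ι) (m l : κ) (α β : ℝ) (y : κ → ℝ) :
    (g.A *ᵥ (y + shift m l α β)) i = (g.A *ᵥ y) i + α * g.A i m + β * g.A i l := by
  simp only [Matrix.mulVec, dotProduct, Pi.add_apply, shift, mul_add, Finset.sum_add_distrib,
    mul_ite, mul_zero, Finset.sum_ite_eq', Finset.mem_univ, if_true]
  ring

lemma E_shift (i : ι) {m l : κ} (hml : m ≠ l) (y : κ → ℝ) :
    ∃ (c : ℝ) (P R : ℝ → ℝ), ∀ α β : ℝ, g.E i (y + shift m l α β) =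
      √(rowSq U i) * Phi ((g.A *ᵥ y) i + α * g.A i m + β * g.A i l) - (c + P α + R β) := by
  set G : κ → ℝ → ℝ := fun p z => g.A i p * (√(rowSq U (g.e p)) * Phi z) with hG
  refine ⟨∑ p, G p (y p), fun α => G m (y m + α) - G m (y m),
    fun β => G l (y l + β) - G l (y l), ?_⟩
  intro α β
  rw [E, g.mulVec_shift]
  congr 1
  have h1 : ∀ p, G p ((y + shift m l α β) p) = G p (y p) +
      (if p = m then G m (y m + α) - G m (y m) else 0) +
      (if p = l then G l (y l + β) - G l (y l) else 0) := by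
    intro p
    by_cases h2 : p = m
    · subst h2
      simp [shift, hml]
    · by_cases h3 : p = l
      · subst h3
        simp [shift, h2]
      · simp [shift, h2, h3]
  change ∑ p, G p ((y + shift m l α β) p) = _
  simp only [h1, Finset.sum_add_distrib, Finset.sum_ite_eq', Finset.mem_univ, if_true]

lemma six_sq (a b c d e f : ℝ) : (a - 2 * b + c - (d - 2 * e + f)) ^ 2 ≤
    8 * (a ^ 2 + 2 * b ^ 2 + c ^ 2 + (d ^ 2 + 2 * e ^ 2 + f ^ 2)) := by
  nlinarith [sq_nonneg (a + b), sq_nonneg (a - c), sq_nonneg (a + d), sq_nonneg (a - e),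
    sq_nonneg (a + f), sq_nonneg (b + c), sq_nonneg (b - d), sq_nonneg (b + e), sq_nonneg (b - f),
    sq_nonneg (c + d), sq_nonneg (c - e), sq_nonneg (c + f), sq_nonneg (d + e), sq_nonneg (d - f),
    sq_nonneg (e + f)]

/-- The step. -/
noncomputable def θ (κ : Type*) [Fintype κ] : ℝ := 1 / ((Fintype.card κ : ℝ) + 1)

lemma θ_pos : 0 < θ κ := by unfold θ; positivity

lemma θ_le : θ κ ≤ 1 := by
  unfold θ
  rw [div_le_one (by positivity)]
  have : (0 : ℝ) ≤ Fintype.card κ := by positivity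
  linarith

/-- The smaller set. -/
def small : Set (κ → ℝ) := {y | ∀ i, |(g.A *ᵥ y) i| < (1 - θ κ) / 2}

lemma shift_mem {y : κ → ℝ} (hy : y ∈ g.small) (m l : κ) {α β : ℝ} (hα : |α| ≤ θ κ / 4)
    (hβ : |β| ≤ θ κ / 4) : y + shift m l α β ∈ openSec g.A := by
  intro i
  rw [g.mulVec_shift]
  have h1 := hy i
  have h2 : |α * g.A i m| ≤ θ κ / 4 := by
    rw [abs_mul]
    calc |α| * |g.A i m| ≤ θ κ / 4 * 1 :=
          mul_le_mul hα (g.A_le i m) (abs_nonneg _) (by linarith [θ_pos (κ := κ)])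
      _ = θ κ / 4 := mul_one _
  have h3 : |β * g.A i l| ≤ θ κ / 4 := by
    rw [abs_mul]
    calc |β| * |g.A i l| ≤ θ κ / 4 * 1 :=
          mul_le_mul hβ (g.A_le i l) (abs_nonneg _) (by linarith [θ_pos (κ := κ)])
      _ = θ κ / 4 := mul_one _
  calc |(g.A *ᵥ y) i + α * g.A i m + β * g.A i l|
      ≤ |(g.A *ᵥ y) i| + |α * g.A i m| + |β * g.A i l| :=
        (abs_add_le _ _).trans (add_le_add_left (abs_add_le _ _) _)
    _ < 1 / 2 := by linarith

lemma third_pointwise (i : ι) {m l : κ} (hml : m ≠ l) {y : κ → ℝ} (hy : y ∈ g.small) :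
    rowSq U i * (4 * π * (θ κ / 4) ^ 3 * g.A i l ^ 2 * |g.A i m|) ^ 2 ≤
    8 * (g.E i (y + shift m l (θ κ / 4) (θ κ / 4)) ^ 2 + 2 * g.E i (y + shift m l (θ κ / 4) 0) ^ 2
      + g.E i (y + shift m l (θ κ / 4) (-(θ κ / 4))) ^ 2
      + (g.E i (y + shift m l (-(θ κ / 4)) (θ κ / 4)) ^ 2
      + 2 * g.E i (y + shift m l (-(θ κ / 4)) 0) ^ 2
      + g.E i (y + shift m l (-(θ κ / 4)) (-(θ κ / 4))) ^ 2)) := by
  refine le_trans ?_ (six_sq _ _ _ _ _ _)
  obtain ⟨c, P, R, hE⟩ := g.E_shift i hml y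
  simp only [hE]
  set h := θ κ / 4 with hh
  set t := (g.A *ᵥ y) i with ht
  have hh0 : 0 < h := by rw [hh]; linarith [θ_pos (κ := κ)]
  have key := third_diff (x := h * g.A i l) (w := h * g.A i m) (t := t) (by
    have h1 := hy i
    rw [abs_mul, abs_mul, abs_of_pos hh0]
    have h2 : h * |g.A i m| ≤ h * 1 := mul_le_mul_of_nonneg_left (g.A_le i m) hh0.le
    have h3 : h * |g.A i l| ≤ h * 1 := mul_le_mul_of_nonneg_left (g.A_le i l) hh0.le
    have h4 := θ_pos (κ := κ)
    rw [← ht] at h1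
    linarith)
  rw [abs_mul, abs_of_pos hh0] at key
  have e1 : √(rowSq U i) * Phi (t + h * g.A i m + h * g.A i l) - (c + P h + R h)
      - 2 * (√(rowSq U i) * Phi (t + h * g.A i m + 0 * g.A i l) - (c + P h + R 0))
      + (√(rowSq U i) * Phi (t + h * g.A i m + -h * g.A i l) - (c + P h + R (-h)))
      - (√(rowSq U i) * Phi (t + -h * g.A i m + h * g.A i l) - (c + P (-h) + R h)
      - 2 * (√(rowSq U i) * Phi (t + -h * g.A i m + 0 * g.A i l) - (c + P (-h) + R 0))
      + (√(rowSq U i) * Phi (t + -h * g.A i m + -h * g.A i l) - (c + P (-h) + R (-h)))) =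
      √(rowSq U i) * (sdiff (h * g.A i l) (t + h * g.A i m) -
        sdiff (h * g.A i l) (t - h * g.A i m)) := by
    simp only [sdiff, zero_mul, add_zero, neg_mul, ← sub_eq_add_neg]
    ring
  rw [e1, mul_pow (√(rowSq U i)) _ 2, Real.sq_sqrt (rowSq_nonneg U i)]
  refine mul_le_mul_of_nonneg_left ?_ (rowSq_nonneg U i)
  rw [← sq_abs (sdiff _ _ - _)]
  refine pow_le_pow_left₀ (by positivity) ?_ 2
  refine le_trans (le_of_eq ?_) key
  ring


lemma isOpen_small : IsOpen g.small := by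
  have : g.small = ⋂ i, {y | |(g.A *ᵥ y) i| < (1 - θ κ) / 2} := by
    ext x; simp [small]
  rw [this]
  refine isOpen_iInter_of_finite fun i => ?_
  refine isOpen_lt ?_ continuous_const
  exact ((continuous_apply i).comp (Continuous.matrix_mulVec continuous_const continuous_id)).abs

lemma lintegral_shift_le {F : (κ → ℝ) → ℝ≥0∞} (v : κ → ℝ)
    (hv : ∀ y ∈ g.small, y + v ∈ openSec g.A) :
    ∫⁻ y in g.small, F (y + v) ≤ ∫⁻ y in openSec g.A, F y := by
  rw [← lintegral_indicator g.isOpen_small.measurableSet,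
    ← lintegral_indicator (isOpen_openSec g.A).measurableSet,
    ← lintegral_add_right_eq_self (fun y => (openSec g.A).indicator F y) v]
  refine lintegral_mono fun y => ?_
  by_cases hy : y ∈ g.small
  · rw [Set.indicator_of_mem hy, Set.indicator_of_mem (hv y hy)]
  · rw [Set.indicator_of_notMem hy]
    exact bot_le

omit [Fintype κ] [DecidableEq κ] in
lemma lint6 {μ : Measure (κ → ℝ)} {f1 f2 f3 f4 f5 f6 : (κ → ℝ) → ℝ≥0∞} (h1 : Measurable f1)
    (h2 : Measurable f2) (h3 : Measurable f3) (h4 : Measurable f4) (h5 : Measurable f5)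
    (h6 : Measurable f6) :
    ∫⁻ y, 8 * (f1 y + 2 * f2 y + f3 y + (f4 y + 2 * f5 y + f6 y)) ∂μ =
      8 * ((∫⁻ y, f1 y ∂μ) + 2 * (∫⁻ y, f2 y ∂μ) + (∫⁻ y, f3 y ∂μ) +
        ((∫⁻ y, f4 y ∂μ) + 2 * (∫⁻ y, f5 y ∂μ) + (∫⁻ y, f6 y ∂μ))) := by
  have m2 : Measurable fun y => 2 * f2 y := h2.const_mul 2
  have m5 : Measurable fun y => 2 * f5 y := h5.const_mul 2
  have m3 : Measurable fun y => f1 y + 2 * f2 y := h1.add m2
  have m4 : Measurable fun y => f1 y + 2 * f2 y + f3 y := m3.add h3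
  have m6 : Measurable fun y => f4 y + 2 * f5 y := h4.add m5
  have m7 : Measurable fun y => f4 y + 2 * f5 y + f6 y := m6.add h6
  have m8 : Measurable fun y => f1 y + 2 * f2 y + f3 y + (f4 y + 2 * f5 y + f6 y) := m4.add m7
  rw [lintegral_const_mul _ m8, lintegral_add_left m4, lintegral_add_left m3,
    lintegral_add_left h1, lintegral_add_left m6, lintegral_add_left h4,
    lintegral_const_mul _ h2, lintegral_const_mul _ h5]

lemma third_integral (i : ι) {m l : κ} (hml : m ≠ l) :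
    volume g.small * ENNReal.ofReal
      (rowSq U i * (4 * π * (θ κ / 4) ^ 3 * g.A i l ^ 2 * |g.A i m|) ^ 2) ≤
    64 * ∫⁻ y in openSec g.A, ENNReal.ofReal (g.E i y ^ 2) := by
  set h := θ κ / 4 with hh
  have hh0 : 0 < h := by rw [hh]; linarith [θ_pos (κ := κ)]
  set C := rowSq U i * (4 * π * h ^ 3 * g.A i l ^ 2 * |g.A i m|) ^ 2 with hC
  set F : (κ → ℝ) → ℝ≥0∞ := fun y => ENNReal.ofReal (g.E i y ^ 2) with hF
  have hFm : Measurable F := ((g.measurable_E i).pow_const 2).ennreal_ofReal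
  have hFs : ∀ v, Measurable fun y => F (y + v) := fun v => hFm.comp (measurable_add_const v)
  have hI : ∀ α β : ℝ, |α| ≤ h → |β| ≤ h →
      ∫⁻ y in g.small, F (y + shift m l α β) ≤ ∫⁻ y in openSec g.A, F y := fun α β ha hb =>
    g.lintegral_shift_le _ fun y hy => g.shift_mem hy m l ha hb
  have h1 : ∀ y ∈ g.small, ENNReal.ofReal C ≤ 8 * (F (y + shift m l h h)
      + 2 * F (y + shift m l h 0) + F (y + shift m l h (-h)) + (F (y + shift m l (-h) h)
      + 2 * F (y + shift m l (-h) 0) + F (y + shift m l (-h) (-h)))) := by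
    intro y hy
    refine (ENNReal.ofReal_le_ofReal (g.third_pointwise i hml hy)).trans (le_of_eq ?_)
    have e2 : (2 : ℝ≥0∞) = ENNReal.ofReal 2 := by norm_num
    have e8 : (8 : ℝ≥0∞) = ENNReal.ofReal 8 := by norm_num
    simp only [hF]
    rw [e2, e8, ← ENNReal.ofReal_mul (by norm_num : (0 : ℝ) ≤ 2),
      ← ENNReal.ofReal_mul (by norm_num : (0 : ℝ) ≤ 2),
      ← ENNReal.ofReal_add (by positivity) (by positivity),
      ← ENNReal.ofReal_add (by positivity) (by positivity),
      ← ENNReal.ofReal_add (by positivity) (by positivity),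
      ← ENNReal.ofReal_add (by positivity) (by positivity),
      ← ENNReal.ofReal_add (by positivity) (by positivity),
      ← ENNReal.ofReal_mul (by norm_num : (0 : ℝ) ≤ 8)]
  have h2 : volume g.small * ENNReal.ofReal C = ∫⁻ _ in g.small, ENNReal.ofReal C := by
    rw [setLIntegral_const, mul_comm]
  rw [h2]
  have habs : |h| ≤ h := (abs_of_pos hh0).le
  have habs' : |(-h)| ≤ h := by rw [abs_neg]; exact habs
  have habs0 : |(0 : ℝ)| ≤ h := by rw [abs_zero]; exact hh0.le
  set I := ∫⁻ y in openSec g.A, F y with hIdef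
  calc ∫⁻ _ in g.small, ENNReal.ofReal C
      ≤ ∫⁻ y in g.small, 8 * (F (y + shift m l h h)
      + 2 * F (y + shift m l h 0) + F (y + shift m l h (-h)) + (F (y + shift m l (-h) h)
      + 2 * F (y + shift m l (-h) 0) + F (y + shift m l (-h) (-h)))) :=
        setLIntegral_mono' g.isOpen_small.measurableSet h1
    _ = 8 * ((∫⁻ y in g.small, F (y + shift m l h h))
      + 2 * (∫⁻ y in g.small, F (y + shift m l h 0))
      + (∫⁻ y in g.small, F (y + shift m l h (-h)))
      + ((∫⁻ y in g.small, F (y + shift m l (-h) h))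
      + 2 * (∫⁻ y in g.small, F (y + shift m l (-h) 0))
      + (∫⁻ y in g.small, F (y + shift m l (-h) (-h))))) :=
        lint6 (hFs _) (hFs _) (hFs _) (hFs _) (hFs _) (hFs _)
    _ ≤ 8 * (I + 2 * I + I + (I + 2 * I + I)) := by
        gcongr
        · exact hI _ _ habs habs
        · exact hI _ _ habs habs0
        · exact hI _ _ habs habs'
        · exact hI _ _ habs' habs
        · exact hI _ _ habs' habs0
        · exact hI _ _ habs' habs'
    _ = 64 * I := by ring

end GoodBasis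

end Pool.Agent.Lib.MP_589a62_gt
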